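import Pool.Agent.helper32.RH.Perm

/-!
# MP_c8d30a, exponent 12: the move in functional form
-/

set_option autoImplicit false

namespace Pool.Agent.helper32.RH

open Equiv List NTH

variable {Ω : Type} [DecidableEq Ω] {p : Ω → Ω}

/-- round trips between S-states, for every new marker. -/
def RTs (p : Ω → Ω) (K : ℕ) (s s' : St Ω) : Prop :=
  ∀ e, e ∉ s.1 ++ s.2 → p e ∉ s.1 ++ s.2 → RTn p K (s.1 ++ [p e], e :: s.2) (s'.1 ++ [p e], e :: s'.2)

/-- the tokens and letters of a move. -/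
structure MvO (p : Ω → Ω) (s : St Ω) (f t x y : Ω) : Prop where
  wf : WF p s
  last : s.2.getLast? = some f
  fA : p f ∈ s.1
  tm : t ∈ s.1 ++ s.2
  hx : NA.sc s t = x
  hy : NA.sc s (p y) = p t
  tx : t ≠ x
  tx' : t ≠ p x
  ty : t ≠ y
  ty' : t ≠ p y
  xy : x ≠ y
  xy' : x ≠ p y
  tf : t ≠ f
  tf' : t ≠ p f
  yf : y ≠ f
  yf' : y ≠ p f

/-- the result of a move. -/
structure Mvd (p : Ω → Ω) (s : St Ω) (f t x y : Ω) (s' : St Ω) : Prop where
  wf : WF p s'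
  last : s'.2.getLast? = some f
  sc : NA.sc s' = swap (p y) (p x) * (swap t y * (swap (p y) (p t) * (swap t x * NA.sc s)))
  m1 : ∀ v, v ∈ s'.1 ↔ (v ∈ s.1 ∧ v ≠ t ∧ v ≠ p y) ∨ (v = t ∧ y ∈ s.1) ∨ (v = p y ∧ p x ∈ s.1)
  m2 : ∀ v, v ∈ s'.2 ↔ (v ∈ s.2 ∧ v ≠ t ∧ v ≠ p y) ∨ (v = t ∧ y ∈ s.2) ∨ (v = p y ∧ p x ∈ s.2)

theorem fp_mid {L R : List Ω} {t x : Ω} (h : (L ++ t :: x :: R).Nodup) : formPerm (L ++ t :: x :: R) t = x := by
  have h1 : (L ++ t :: x :: R) ~r t :: x :: (R ++ L) := by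
    simpa using List.isRotated_append (l := L) (l' := t :: x :: R)
  have h2 : (t :: x :: (R ++ L)).Nodup := h1.nodup_iff.mp h
  rw [List.formPerm_eq_of_isRotated h h1, List.formPerm_cons_cons, Perm.mul_apply,
    List.formPerm_apply_of_notMem (List.nodup_cons.mp h2).1, swap_apply_left]

theorem fp_lst {L : List Ω} {t x : Ω} (h : (x :: (L ++ [t])).Nodup) : formPerm (x :: (L ++ [t])) t = x := by
  have h1 : (x :: (L ++ [t])) ~r t :: x :: L := by
    have := List.isRotated_append (l := x :: L) (l' := [t])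
    simpa using this
  have h2 : (t :: x :: L).Nodup := h1.nodup_iff.mp h
  rw [List.formPerm_eq_of_isRotated h h1, List.formPerm_cons_cons, Perm.mul_apply,
    List.formPerm_apply_of_notMem (List.nodup_cons.mp h2).1, swap_apply_left]

/-- the successor in a list with a first token `h`. -/
theorem succ_cases {h t x : Ω} {X : List Ω} (hn : (h :: X).Nodup) (ht : t ∈ h :: X) (hx : formPerm (h :: X) t = x) :
    (x = h ∧ ∃ L, h :: X = L ++ [t]) ∨ ∃ L R, h :: X = L ++ t :: x :: R := by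
  obtain ⟨L, R, e⟩ := List.append_of_mem ht
  cases R with
  | nil =>
    left
    refine ⟨?_, L, e⟩
    cases L with
    | nil =>
      simp only [List.nil_append, List.cons.injEq] at e
      obtain ⟨rfl, rfl⟩ := e
      simp at hx
      exact hx.symm
    | cons a L =>
      simp only [List.cons_append, List.cons.injEq] at e
      obtain ⟨rfl, rfl⟩ := e
      rw [← hx]
      exact fp_lst hn
  | cons b R =>
    right
    refine ⟨L, R, ?_⟩
    rw [e] at hn hx ⊢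
    rw [fp_mid hn] at hx
    rw [hx]

theorem D2_app (a : Ω) (s : St Ω) : (D2 a s).1 ++ (D2 a s).2 = dl a (s.1 ++ s.2) := by
  unfold D2; rw [dl_append]

theorem I2_app (y z : Ω) (s : St Ω) : (I2 y z s).1 ++ (I2 y z s).2 = ins y z (s.1 ++ s.2) := by
  unfold I2; rw [ins_append]

theorem MvO.py {s : St Ω} {f t x y : Ω} (h : MvO p s f t x y) : p y ∈ s.1 ++ s.2 := by
  by_contra h1
  have h2 : NA.sc s (p y) = p y := by
    rw [List.mem_append, not_or] at h1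
    unfold NA.sc
    rw [Perm.mul_apply, List.formPerm_apply_of_notMem h1.2, List.formPerm_apply_of_notMem h1.1]
  rw [h.hy] at h2
  have := congrArg p h2
  rw [h.wf.inv, h.wf.inv] at this
  exact h.ty this

theorem MvO.ym {s : St Ω} {f t x y : Ω} (h : MvO p s f t x y) : y ∈ s.1 ++ s.2 := by
  have := h.wf.cl _ h.py
  rwa [h.wf.inv] at this

theorem MvO.xm {s : St Ω} {f t x y : Ω} (h : MvO p s f t x y) : x ∈ s.1 ++ s.2 := by
  by_contra h1
  have h2 : NA.sc s x = x := by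
    rw [List.mem_append, not_or] at h1
    unfold NA.sc
    rw [Perm.mul_apply, List.formPerm_apply_of_notMem h1.2, List.formPerm_apply_of_notMem h1.1]
  rw [← h.hx] at h2
  exact h.tx (((NA.sc s).injective h2).symm.trans h.hx)

theorem mem_flat {t X2 Y1 Y2 v : Ω} (h1 : t ≠ X2) (h2 : Y1 ≠ X2) (h3 : Y2 ≠ X2) (h4 : Y1 ≠ t) (h5 : Y1 ≠ Y2) (h6 : t ≠ Y2)
    (W : List Ω) : v ∈ W.flatMap (gr t X2 Y1 Y2) ↔ (v ∈ W ∧ v ≠ t ∧ v ≠ Y2) ∨ (v = t ∧ Y1 ∈ W) ∨ (v = Y2 ∧ X2 ∈ W) := by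
  rw [gr_eq h1 h2 h3 h4 h5]
  simp only [mem_ins, mem_dl]
  constructor
  · rintro ((⟨⟨h7, h8⟩, h9⟩ | ⟨h7, ⟨h8, h9⟩, h10⟩) | ⟨h7, h8 | ⟨h8, h9⟩⟩)
    · exact Or.inl ⟨h7, h8, h9⟩
    · exact Or.inr (Or.inl ⟨h7, h8⟩)
    · exact Or.inr (Or.inr ⟨h7, h8.1.1⟩)
    · exact absurd h8.symm h1
  · rintro (⟨h7, h8, h9⟩ | ⟨h7, h8⟩ | ⟨h7, h8⟩)
    · exact Or.inl (Or.inl ⟨⟨h7, h8⟩, h9⟩)
    · exact Or.inl (Or.inr ⟨h7, ⟨h8, h4⟩, h5⟩)
    · exact Or.inr ⟨h7, Or.inl ⟨⟨h8, h1.symm⟩, h3.symm⟩⟩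

/-- the result of the move on words. -/
theorem mvd_of {s : St Ω} {f t x y : Ω} (h : MvO p s f t x y) :
    Mvd p s f t x y (s.1.flatMap (gr t (p x) y (p y)), s.2.flatMap (gr t (p x) y (p y))) := by
  have hp := h.wf.inv
  have hne := h.wf.ne
  have n0 := h.wf.nd
  have k2 : y ≠ p x := fun e => h.xy' (by rw [e, hp])
  have k3 : p y ≠ p x := fun e => h.xy (by rw [← hp x, ← e, hp])
  have k5 : y ≠ p y := (hne y).symm
  have k6 : p t ≠ p y := fun e => h.ty (by rw [← hp t, e, hp])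
  have e1 := fun W => gr_eq h.tx' k2 k3 h.ty.symm k5 W
  have mf := fun v W => mem_flat (v := v) h.tx' k2 k3 h.ty.symm k5 h.ty' W
  have hpx := h.wf.cl _ h.xm
  have happ : s.1.flatMap (gr t (p x) y (p y)) ++ s.2.flatMap (gr t (p x) y (p y)) =
      (s.1 ++ s.2).flatMap (gr t (p x) y (p y)) := by rw [List.flatMap_append]
  have hmem : ∀ v, v ∈ (s.1 ++ s.2).flatMap (gr t (p x) y (p y)) ↔ v ∈ s.1 ++ s.2 := by
    intro v
    rw [mf]
    constructor
    · rintro (⟨h1, _⟩ | ⟨rfl, _⟩ | ⟨rfl, _⟩)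
      · exact h1
      · exact h.tm
      · exact h.py
    · intro h1
      by_cases h2 : v = t
      · exact Or.inr (Or.inl ⟨h2, h.ym⟩)
      by_cases h3 : v = p y
      · exact Or.inr (Or.inr ⟨h3, hpx⟩)
      · exact Or.inl ⟨h1, h2, h3⟩
  have n1 : ((D2 t s).1 ++ (D2 t s).2).Nodup := by rw [D2_app]; exact dl_nodup n0
  have n2 : ((D2 (p y) (D2 t s)).1 ++ (D2 (p y) (D2 t s)).2).Nodup := by rw [D2_app]; exact dl_nodup n1
  have t2 : t ∉ (D2 (p y) (D2 t s)).1 ++ (D2 (p y) (D2 t s)).2 := by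
    rw [D2_app, D2_app, mem_dl, mem_dl]; tauto
  have n3 : ((I2 t y (D2 (p y) (D2 t s))).1 ++ (I2 t y (D2 (p y) (D2 t s))).2).Nodup := by
    rw [I2_app]; exact ins_nodup n2 t2
  have y3 : p y ∉ (I2 t y (D2 (p y) (D2 t s))).1 ++ (I2 t y (D2 (p y) (D2 t s))).2 := by
    rw [I2_app, D2_app, D2_app, mem_ins, mem_dl, mem_dl]
    rintro (h1 | h1)
    · exact h1.2 rfl
    · exact h.ty' h1.1.symm
  have e2 : (s.1.flatMap (gr t (p x) y (p y)), s.2.flatMap (gr t (p x) y (p y))) =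
      I2 (p y) (p x) (I2 t y (D2 (p y) (D2 t s))) := by
    rw [e1, e1]; rfl
  have n4 : ((s.1 ++ s.2).flatMap (gr t (p x) y (p y))).Nodup := by
    rw [e1, ← D2_app, ← D2_app, ← I2_app]
    exact ins_nodup n3 y3
  refine ⟨⟨?_, ?_, hp, hne⟩, ?_, ?_, ?_, ?_⟩
  · rw [happ]; exact n4
  · intro v hv
    rw [happ, hmem] at hv ⊢
    exact h.wf.cl v hv
  · obtain ⟨Y, hY⟩ := List.getLast?_eq_some_iff.mp h.last
    rw [hY, List.flatMap_append, List.flatMap_singleton]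
    have : ∃ R, gr t (p x) y (p y) f = R ++ [f] := by
      unfold gr
      rw [if_neg h.tf.symm, if_neg (fun e => h.yf' (by rw [e, hp]))]
      by_cases h1 : f = p x
      · rw [if_pos h1]; exact ⟨[p y], by rw [h1]; rfl⟩
      · rw [if_neg h1, if_neg h.yf.symm]; exact ⟨[], rfl⟩
    obtain ⟨R, hR⟩ := this
    rw [hR, ← List.append_assoc, List.getLast?_append]
    simp
  · rw [e2]
    have s1 : NA.sc (D2 t s) = swap t x * NA.sc s := sc_D2 n0 h.tm h.hx h.tx.symm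
    have s2 : NA.sc (D2 (p y) (D2 t s)) = swap (p y) (p t) * NA.sc (D2 t s) := by
      apply sc_D2 n1
      · rw [D2_app, mem_dl]; exact ⟨h.py, h.ty'.symm⟩
      · rw [s1, Perm.mul_apply, h.hy, swap_apply_of_ne_of_ne (hne t) (fun e => h.tx' (by rw [← e, hp]))]
      · exact k6
    have s3 : NA.sc (I2 t y (D2 (p y) (D2 t s))) = swap t y * NA.sc (D2 (p y) (D2 t s)) := by
      apply sc_I2 n2 _ t2
      rw [D2_app, D2_app, mem_dl, mem_dl]
      exact ⟨⟨h.ym, h.ty.symm⟩, k5⟩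
    rw [sc_I2 n3 _ y3, s3, s2, s1]
    rw [I2_app, D2_app, D2_app, mem_ins, mem_dl, mem_dl]
    exact Or.inl ⟨⟨hpx, h.tx'.symm⟩, k3.symm⟩
  · intro v; exact mf v _
  · intro v; exact mf v _

end Pool.Agent.helper32.RH
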