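import Pool.Agent.helper32.RH.DataF

/-!
# MP_c8d30a, exponent 12: exactly three coloured letters, the letter of the last token is blue
-/

set_option autoImplicit false

namespace Pool.Agent.helper32.RH

open NTH

variable {Ω : Type} [DecidableEq Ω] {p : Ω → Ω}

theorem sm_of {a : ℕ → Ω} {σ : ℕ → List Ω} {U V : List ℕ} {A B : List Ω} (hw : WF p (A, B))
    (ea : A = vl (tk p a) σ U) (eb : B = vl (tk p a) σ V)
    (h1 : ∀ t ∈ A, p t ∈ A → ∃ m ∈ U, m < 64 ∧ t = tk p a m) (h2 : ∀ t ∈ B, p t ∈ B → ∃ m ∈ V, m < 64 ∧ t = tk p a m) :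
    Sm p a σ U V A B := by
  have key : ∀ (U V : List ℕ) (A B : List Ω), WF p (A, B) → A = vl (tk p a) σ U →
      (∀ t ∈ A, p t ∈ A → ∃ m ∈ U, m < 64 ∧ t = tk p a m) → ∀ b ∈ U, 64 ≤ b → ∀ t ∈ σ b, p t ∈ B := by
    intro U V A B hw ea h1 b hb h64 t ht
    have htA : t ∈ A := by
      rw [ea]
      unfold vl
      exact List.mem_flatMap.mpr ⟨b, hb, by rw [at1_blk h64]; exact ht⟩
    rcases List.mem_append.1 (hw.cl t (List.mem_append_left _ htA)) with h3 | h3
    · exfalso
      obtain ⟨m, hm, hm64, rfl⟩ := h1 t htA h3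
      have hn : (vl (tk p a) σ U).Nodup := by rw [← ea]; exact (List.nodup_append.1 hw.nd).1
      have := at1_pw (tk p a) σ hn hb hm (by omega)
      apply this (by rw [at1_blk h64]; exact ht)
      unfold at1
      rw [if_pos hm64]
      exact List.mem_singleton_self _
    · exact h3
  exact ⟨ea, eb, key U V A B hw ea h1, key V U B A hw.mir eb h2⟩

/-- the coloured tokens. -/
def colL (p : Ω → Ω) (s : St Ω) : List Ω := s.1.filter (fun t => decide (p t ∈ s.1)) ++ s.2.filter (fun t => decide (p t ∈ s.2))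

theorem mem_colL {s : St Ω} {t : Ω} : t ∈ colL p s ↔ Clr p s t := by
  unfold colL Clr
  simp [List.mem_append, List.mem_filter]

theorem colL_length (s : St Ω) : (colL p s).length = NTS.D2 p s := by
  unfold colL NTS.D2
  rw [List.length_append, ← List.countP_eq_length_filter, ← List.countP_eq_length_filter]
  congr 1
  · apply List.countP_congr
    intro t _
    simp only [decide_eq_true_iff]
  · apply List.countP_congr
    intro t _
    simp only [decide_eq_true_iff]

theorem colL_nodup {s : St Ω} (hw : WF p s) : (colL p s).Nodup := by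
  unfold colL
  have h := List.nodup_append.1 hw.nd
  rw [List.nodup_append]
  refine ⟨h.1.filter _, h.2.1.filter _, ?_⟩
  intro a ha b hb
  exact h.2.2 a (List.mem_of_mem_filter ha) b (List.mem_of_mem_filter hb)

theorem Clr.par {s : St Ω} {t : Ω} (hp : ∀ t, p (p t) = t) (h : Clr p s t) : Clr p s (p t) := by
  rcases h with ⟨h1, h2⟩ | ⟨h1, h2⟩
  · exact Or.inl ⟨h2, by rw [hp]; exact h1⟩
  · exact Or.inr ⟨h2, by rw [hp]; exact h1⟩

/-- the third letter. -/
theorem third {s : St Ω} (hw : WF p s) {c f : Ω} (hc : Clr p s c) (hf : Clr p s f) (hcf : c ≠ f) (hcf' : c ≠ p f)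
    (hD : NTS.D2 p s = 6) : ∃ z, Clr p s z ∧ z ≠ c ∧ z ≠ p c ∧ z ≠ f ∧ z ≠ p f ∧
      ∀ t, Clr p s t → t = c ∨ t = p c ∨ t = f ∨ t = p f ∨ t = z ∨ t = p z := by
  have hinv := hw.inv
  have hne := hw.ne
  have hL := colL_length (p := p) s
  obtain ⟨z, hz, hz4⟩ : ∃ z ∈ colL p s, z ∉ [c, p c, f, p f] := by
    by_contra hcon
    push Not at hcon
    have := (List.Nodup.subperm (colL_nodup hw) hcon).length_le
    simp only [List.length_cons, List.length_nil] at this
    omega
  simp only [List.mem_cons, List.not_mem_nil, or_false, not_or] at hz4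
  obtain ⟨z1, z2, z3, z4⟩ := hz4
  have hzc := mem_colL.1 hz
  refine ⟨z, hzc, z1, z2, z3, z4, ?_⟩
  have i1 : ∀ {u v : Ω}, u ≠ p v → p u ≠ v := fun {u v} h e => h (by rw [← e, hinv])
  have i2 : ∀ {u v : Ω}, u ≠ v → p u ≠ p v := fun {u v} h e => h (by rw [← hinv u, e, hinv])
  have hn6 : [c, p c, f, p f, z, p z].Nodup := by
    simp only [List.nodup_cons, List.mem_cons, List.not_mem_nil, or_false, not_or, not_false_eq_true, List.nodup_nil, and_true]
    refine ⟨⟨fun e => hne c e.symm, hcf, hcf', fun e => z1 e.symm, fun e => z2 (by rw [e, hinv])⟩,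
      ⟨i1 hcf', i2 hcf, fun e => z2 e.symm, fun e => i2 (fun e' => z1 e') e.symm⟩,
      ⟨fun e => hne f e.symm, fun e => z3 e.symm, fun e => z4 (by rw [e, hinv])⟩,
      ⟨fun e => z4 e.symm, fun e => i2 (fun e' => z3 e') e.symm⟩, fun e => hne z e.symm⟩
  have hsub : [c, p c, f, p f, z, p z] ⊆ colL p s := by
    intro t ht
    simp only [List.mem_cons, List.not_mem_nil, or_false] at ht
    rcases ht with rfl | rfl | rfl | rfl | rfl | rfl
    · exact mem_colL.2 hc
    · exact mem_colL.2 (hc.par hinv)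
    · exact mem_colL.2 hf
    · exact mem_colL.2 (hf.par hinv)
    · exact hz
    · exact mem_colL.2 (hzc.par hinv)
  have hper : [c, p c, f, p f, z, p z].Perm (colL p s) :=
    (List.Nodup.subperm hn6 hsub).perm_of_length_le (by rw [hL, hD]; rfl)
  intro t ht
  have := hper.mem_iff.2 (mem_colL.2 ht)
  simpa only [List.mem_cons, List.not_mem_nil, or_false] using this

theorem mid_inf {a c : Ω} {X : List Ω} (h : a ∈ c :: X) (hne : a ≠ c) : [a] <:+: X := by
  rcases List.mem_cons.1 h with h | h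
  · exact absurd h hne
  · obtain ⟨X1, X2, rfl⟩ := List.append_of_mem h
    exact ⟨X1, X2, by simp⟩

theorem mid_inf' {a f : Ω} {Y : List Ω} (h : a ∈ Y ++ [f]) (hne : a ≠ f) : [a] <:+: Y := by
  rcases List.mem_append.1 h with h | h
  · obtain ⟨X1, X2, rfl⟩ := List.append_of_mem h
    exact ⟨X1, X2, by simp⟩
  · exact absurd (List.mem_singleton.1 h) hne

/-- **the table**: exactly three coloured letters, the letter of the last token `f` is blue. -/
theorem FIX3 {f : Ω} {s : St Ω} (hw : WF p s) (hi : NA.IrB p s) (hl : s.2.getLast? = some f) (hr : ∃ c ∈ s.1, p c ∈ s.1)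
    (hf : p f ∈ s.2) (hD : NTS.D2 p s = 6) :
    ∃ s', RTs p 11 s s' ∧ (s'.1 ++ s'.2).Perm (s.1 ++ s.2) ∧ s'.2.getLast? = some f ∧
      ((p f ∈ s'.1 ∧ NTS.D2 p s' ≤ 6) ∨ NTS.D2 p s' ≤ 4) := by
  obtain ⟨A, B⟩ := s
  obtain ⟨c, hc, hc'⟩ := hr
  simp only at hc hc' hf hl
  have hinv := hw.inv
  have hne := hw.ne
  obtain ⟨Y, hY⟩ := List.getLast?_eq_some_iff.mp hl
  subst hY
  have hdj : ∀ t, t ∈ A → t ∉ Y ++ [f] := fun t h1 h2 => (List.nodup_append.1 hw.nd).2.2 t h1 t h2 rfl
  have hfB : f ∈ Y ++ [f] := by simp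
  have hcf : c ≠ f := fun e => hdj c hc (e ▸ hfB)
  have hcf' : c ≠ p f := fun e => hdj c hc (e ▸ hf)
  obtain ⟨z, hz, z1, z2, z3, z4, hcol⟩ := third hw (c := c) (f := f) (Or.inl ⟨hc, hc'⟩) (Or.inr ⟨hfB, hf⟩) hcf hcf' hD
  -- the rotation
  obtain ⟨A1, A2, hA⟩ := List.append_of_mem hc
  set X : List Ω := A2 ++ A1 with hX
  have hrot : A ~r (c :: X) := by
    rw [hA, hX]
    have := List.isRotated_append (l := A1) (l' := c :: A2)
    simpa using this
  have hpA := hrot.perm
  have hwr : WF p (c :: X, Y ++ [f]) := by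
    refine ⟨?_, ?_, hinv, hne⟩
    · exact ((hpA.append_right (Y ++ [f])).nodup_iff).1 hw.nd
    · intro t ht
      have h1 : t ∈ A ++ (Y ++ [f]) := (hpA.append_right (Y ++ [f])).mem_iff.2 ht
      exact (hpA.append_right (Y ++ [f])).mem_iff.1 (hw.cl t h1)
  have hir : NA.IrB p (c :: X, Y ++ [f]) := hi
  have hmem : ∀ t, t ∈ A ↔ t ∈ c :: X := fun t => hpA.mem_iff
  have hfin : ∀ (U V : List ℕ) (σ : ℕ → List Ω) (a : ℕ → Ω) (is : List IS) (st : List (List ℕ × List ℕ)),
      runT 11 finF is st = true → (U, V) ∈ st → Sm p a σ U V (c :: X) (Y ++ [f]) →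
      ∃ s', RTs p 11 (A, Y ++ [f]) s' ∧ (s'.1 ++ s'.2).Perm (A ++ (Y ++ [f])) ∧ s'.2.getLast? = some f ∧
      ((p f ∈ s'.1 ∧ NTS.D2 p s' ≤ 6) ∨ NTS.D2 p s' ≤ 4) := by
    intro U V σ a is st h1 h2 h3
    obtain ⟨s', m, d, h4, h5, h6, h7, h8, h9⟩ := runT_sound h1 (U, V) h2 hwr hir h3 f hl
    have hpp : ((c :: X) ++ (Y ++ [f])).Perm (A ++ (Y ++ [f])) := (hpA.append_right (Y ++ [f])).symm
    have h0 : RTs p 0 (A, Y ++ [f]) (c :: X, Y ++ [f]) := rts_rot hrot ⟨c, hc, hc'⟩ ⟨f, hfB, hf⟩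
    have h10 : RTs p (0 + 11) (A, Y ++ [f]) s' := RTs.trans h0 h4 hpp
    rw [zero_add] at h10
    refine ⟨s', h10, h5.trans hpp, h6, ?_⟩
    cases m with
    | true =>
      left
      exact ⟨h7 rfl, h8.trans (Nat.le_of_ble_eq_true h9)⟩
    | false =>
      right
      exact h8.trans (Nat.le_of_ble_eq_true h9)
  have i1 : ∀ {u v : Ω}, u ≠ p v → p u ≠ v := fun {u v} h e => h (by rw [← e, hinv])
  have i2 : ∀ {u v : Ω}, u ≠ v → p u ≠ p v := fun {u v} h e => h (by rw [← hinv u, e, hinv])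
  let a : ℕ → Ω := fun n => if n = 0 then c else if n = 5 then f else z
  have a0 : tk p a 0 = c := rfl
  have a1 : tk p a 1 = p c := rfl
  have a10 : tk p a 10 = f := rfl
  have a11 : tk p a 11 = p f := rfl
  have a6 : tk p a 6 = z := rfl
  have a7 : tk p a 7 = p z := rfl
  have a8 : tk p a 8 = z := rfl
  have a9 : tk p a 9 = p z := rfl
  rcases hz with ⟨hz, hz'⟩ | ⟨hz, hz'⟩
  · -- two red letters
    simp only at hz hz'
    obtain ⟨us', h1, vs', h2, σ, h3, h4⟩ := splitter' (tk p a) [[1], [6], [7]] [[11]] X Y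
      (by decide) (by decide) (by decide) (by decide)
      (by
        simp only [List.map_cons, List.map_nil, a1, a6, a7, List.pairwise_cons, List.mem_cons, List.not_mem_nil, or_false,
          List.Pairwise.nil, and_true, forall_eq_or_imp, forall_eq, false_implies, implies_true]
        refine ⟨⟨fun e => z2 e, fun e => i2 z1 e⟩, fun e => hne z e⟩)
      (by simp)
      (by
        simp only [List.mem_cons, List.not_mem_nil, or_false, forall_eq_or_imp, forall_eq, List.map_cons, List.map_nil, a1, a6, a7]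
        refine ⟨mid_inf ((hmem _).1 hc') (hne c), mid_inf ((hmem _).1 hz) z1, mid_inf ((hmem _).1 hz') (i1 z2)⟩)
      (by
        simp only [List.mem_cons, List.not_mem_nil, or_false, forall_eq, List.map_cons, List.map_nil, a11]
        exact mid_inf' hf (hne f))
    have hu : ∀ u ∈ [[1], [6], [7]], u ∈ us' := fun u hu => (List.mem_permutations'.mp h1).mem_iff.mpr hu
    have hv : ∀ u ∈ [[11]], u ∈ vs' := fun u hu => (List.mem_permutations'.mp h2).mem_iff.mpr hu
    refine hfin (0 :: wn 0 us') (wn 4 vs' ++ [10]) σ a is21 rt21 c_21 (List.mem_map.mpr ⟨(us', vs'), mem_prs h1 h2, rfl⟩) ?_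
    apply sm_of hwr
    · rw [vl_tok _ _ (by norm_num : (0 : ℕ) < 64), a0, ← h3]
    · rw [vl_append, vl_tok _ _ (by norm_num : (10 : ℕ) < 64), a10]
      have : vl (tk p a) σ [] = [] := rfl
      rw [this]
      exact congrArg (· ++ [f]) h4
    · intro t ht ht'
      rcases hcol t (Or.inl ⟨(hmem t).2 ht, (hmem _).2 ht'⟩) with rfl | rfl | rfl | rfl | rfl | rfl
      · exact ⟨0, List.mem_cons_self, by norm_num, rfl⟩
      · exact ⟨1, List.mem_cons_of_mem _ (mem_wn (u := [1]) (by simp) 0 (hu [1] (by simp))), by norm_num, rfl⟩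
      · exact absurd hfB (hdj _ ((hmem _).2 ht))
      · exact absurd hf (hdj _ ((hmem _).2 ht))
      · exact ⟨6, List.mem_cons_of_mem _ (mem_wn (u := [6]) (by simp) 0 (hu [6] (by simp))), by norm_num, rfl⟩
      · exact ⟨7, List.mem_cons_of_mem _ (mem_wn (u := [7]) (by simp) 0 (hu [7] (by simp))), by norm_num, rfl⟩
    · intro t ht ht'
      rcases hcol t (Or.inr ⟨ht, ht'⟩) with rfl | rfl | rfl | rfl | rfl | rfl
      · exact absurd ht (hdj _ hc)
      · exact absurd ht (hdj _ hc')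
      · exact ⟨10, List.mem_append_right _ (by simp), by norm_num, rfl⟩
      · exact ⟨11, List.mem_append_left _ (mem_wn (u := [11]) (by simp) 4 (hv [11] (by simp))), by norm_num, rfl⟩
      · exact absurd ht (hdj _ hz)
      · exact absurd ht (hdj _ hz')
  · -- one red letter
    simp only at hz hz'
    obtain ⟨us', h1, vs', h2, σ, h3, h4⟩ := splitter' (tk p a) [[1]] [[11], [8], [9]] X Y
      (by decide) (by decide) (by decide) (by decide)
      (by simp)
      (by
        simp only [List.map_cons, List.map_nil, a11, a8, a9, List.pairwise_cons, List.mem_cons, List.not_mem_nil, or_false,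
          List.Pairwise.nil, and_true, forall_eq_or_imp, forall_eq, false_implies, implies_true]
        refine ⟨⟨fun e => z4 e, fun e => i2 z3 e⟩, fun e => hne z e⟩)
      (by
        simp only [List.mem_cons, List.not_mem_nil, or_false, forall_eq, List.map_cons, List.map_nil, a1]
        exact mid_inf ((hmem _).1 hc') (hne c))
      (by
        simp only [List.mem_cons, List.not_mem_nil, or_false, forall_eq_or_imp, forall_eq, List.map_cons, List.map_nil, a11, a8, a9]
        refine ⟨mid_inf' hf (hne f), mid_inf' hz z3, mid_inf' hz' (i1 z4)⟩)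
    have hu : ∀ u ∈ [[1]], u ∈ us' := fun u hu => (List.mem_permutations'.mp h1).mem_iff.mpr hu
    have hv : ∀ u ∈ [[11], [8], [9]], u ∈ vs' := fun u hu => (List.mem_permutations'.mp h2).mem_iff.mpr hu
    refine hfin (0 :: wn 0 us') (wn 2 vs' ++ [10]) σ a is12 rt12 c_12 (List.mem_map.mpr ⟨(us', vs'), mem_prs h1 h2, rfl⟩) ?_
    apply sm_of hwr
    · rw [vl_tok _ _ (by norm_num : (0 : ℕ) < 64), a0, ← h3]
    · rw [vl_append, vl_tok _ _ (by norm_num : (10 : ℕ) < 64), a10]
      have : vl (tk p a) σ [] = [] := rfl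
      rw [this]
      exact congrArg (· ++ [f]) h4
    · intro t ht ht'
      rcases hcol t (Or.inl ⟨(hmem t).2 ht, (hmem _).2 ht'⟩) with rfl | rfl | rfl | rfl | rfl | rfl
      · exact ⟨0, List.mem_cons_self, by norm_num, rfl⟩
      · exact ⟨1, List.mem_cons_of_mem _ (mem_wn (u := [1]) (by simp) 0 (hu [1] (by simp))), by norm_num, rfl⟩
      · exact absurd hfB (hdj _ ((hmem _).2 ht))
      · exact absurd hf (hdj _ ((hmem _).2 ht))
      · exact absurd hz (hdj _ ((hmem _).2 ht))
      · exact absurd hz' (hdj _ ((hmem _).2 ht))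
    · intro t ht ht'
      rcases hcol t (Or.inr ⟨ht, ht'⟩) with rfl | rfl | rfl | rfl | rfl | rfl
      · exact absurd ht (hdj _ hc)
      · exact absurd ht (hdj _ hc')
      · exact ⟨10, List.mem_append_right _ (by simp), by norm_num, rfl⟩
      · exact ⟨11, List.mem_append_left _ (mem_wn (u := [11]) (by simp) 2 (hv [11] (by simp))), by norm_num, rfl⟩
      · exact ⟨8, List.mem_append_left _ (mem_wn (u := [8]) (by simp) 2 (hv [8] (by simp))), by norm_num, rfl⟩
      · exact ⟨9, List.mem_append_left _ (mem_wn (u := [9]) (by simp) 2 (hv [9] (by simp))), by norm_num, rfl⟩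

end Pool.Agent.helper32.RH
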