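import Pool.Agent.helper32.RH.Main

/-!
# MP_c8d30a, exponent 12: cargo lifting in the run model

Every token carries a cargo: the words `cw k w` = every token `t` followed by `k t`. A path of states
lifts to a path of the states with cargo, with the same number of runs.
-/

set_option autoImplicit false

namespace Pool.Agent.helper32.RH

open NTH

universe u
variable {Ω : Type u} {p : Ω → Ω}

/-- a word with cargo. -/
def cw (k : Ω → List Ω) (w : List Ω) : List Ω := w.flatMap (fun t => t :: k t)

/-- a state with cargo. -/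
def cs (k : Ω → List Ω) (s : St Ω) : St Ω := (cw k s.1, cw k s.2)

theorem cw_append (k : Ω → List Ω) (v w : List Ω) : cw k (v ++ w) = cw k v ++ cw k w := by simp [cw]

theorem cw_cons (k : Ω → List Ω) (t : Ω) (w : List Ω) : cw k (t :: w) = t :: (k t ++ cw k w) := by simp [cw]

theorem mem_cw {k : Ω → List Ω} {t : Ω} {w : List Ω} (h : t ∈ w) : t ∈ cw k w := by
  unfold cw
  rw [List.mem_flatMap]
  exact ⟨t, h, List.mem_cons_self⟩

theorem N_cs {k : Ω → List Ω} {s : St Ω} (h : N p s) : N p (cs k s) := by
  obtain ⟨⟨r, h1, h2⟩, ⟨b, h3, h4⟩⟩ := h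
  exact ⟨⟨r, mem_cw h1, mem_cw h2⟩, ⟨b, mem_cw h3, mem_cw h4⟩⟩

theorem cs_mir (k : Ω → List Ω) (s : St Ω) : cs k (mir s) = mir (cs k s) := rfl

/-- a block of the second word moves before `p x`, `x` at the front of the first word. -/
theorem lift_SL0 {k : Ω → List Ω} {s t : St Ω} (h : SL p 0 s t) (hs : N p s) : Rn p (N p) 0 (cs k s) (cs k t) := by
  generalize hc : (0 : ℕ) = c at h
  cases h with
  | reg x y U A B =>
    have hN := N_cs (k := k) hs
    simp only [cs, cw_cons, cw_append] at hN ⊢
    have := (rotL (p := p) x (y :: k y) (cw k A) (k (p x) ++ cw k B) (k x ++ cw k U) (by simpa using hN)).toRn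
    simpa using this
  | tr x y A B V => omega

theorem lift_TrL {k : Ω → List Ω} {x : Ω} {s t : St Ω} (h : TrL p x s t) (hs : N p s) (ht : N p t) :
    Run p (N p) x (cs k s) (cs k t) := by
  cases h with
  | mk y A B V =>
    have hN := N_cs (k := k) hs
    have hN' := N_cs (k := k) ht
    simp only [cs, cw_cons, cw_append] at hN hN' ⊢
    -- move the tokens y :: k y one by one
    have key : ∀ (S A1 : List Ω) (y : Ω), Run p (N p) x
        (x :: (k x ++ (A1 ++ p x :: (k (p x) ++ cw k B))), y :: (S ++ cw k V))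
        (x :: (k x ++ (A1 ++ y :: (S ++ p x :: (k (p x) ++ cw k B)))), cw k V) := by
      intro S
      induction S with
      | nil =>
        intro A1 y
        refine Run.one ⟨⟨x, by simp, by simp⟩, ?_⟩ (Or.inl ?_) ⟨⟨x, by simp, by simp⟩, ?_⟩
        · obtain ⟨b, h3, h4⟩ := hN'.2
          exact ⟨b, List.mem_cons_of_mem _ h3, List.mem_cons_of_mem _ h4⟩
        · have := TrL.mk (p := p) (x := x) y (k x ++ A1) (k (p x) ++ cw k B) (cw k V)
          simpa using this
        · exact hN'.2
      | cons z S ih =>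
        intro A1 y
        have h2 := ih (A1 ++ [y]) z
        refine Run.cons ⟨⟨x, by simp, by simp⟩, ?_⟩ (Or.inl ?_) (by simpa using h2)
        · obtain ⟨b, h3, h4⟩ := hN'.2
          exact ⟨b, List.mem_cons_of_mem _ (List.mem_append_right _ h3), List.mem_cons_of_mem _ (List.mem_append_right _ h4)⟩
        · have := TrL.mk (p := p) (x := x) y (k x ++ A1) (k (p x) ++ cw k B) (z :: (S ++ cw k V))
          simpa using this
    have := key (k y) (cw k A) y
    simpa using this

theorem lift_Tr {k : Ω → List Ω} {x : Ω} {s t : St Ω} (h : Tr p x s t) (hs : N p s) (ht : N p t) :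
    Run p (N p) x (cs k s) (cs k t) := by
  rcases h with h | h
  · exact lift_TrL h hs ht
  · exact (lift_TrL (k := k) h hs.mir ht.mir).mir

theorem Run.trans' {Q : St Ω → Prop} {x : Ω} {s t v : St Ω} (h : Run p Q x s t) (h' : Run p Q x t v) : Run p Q x s v := by
  induction h with
  | one hs h _ => exact .cons hs h h'
  | cons hs h _ ih => exact .cons hs h (ih h')

theorem lift_Run {k : Ω → List Ω} {x : Ω} {s t : St Ω} (h : Run p (N p) x s t) : Run p (N p) x (cs k s) (cs k t) := by
  induction h with
  | one hs h ht => exact lift_Tr h hs ht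
  | cons hs h ht ih => exact Run.trans' (lift_Tr h hs ht.left) ih

/-- **cargo lifting**. -/
theorem lift_Rn (k : Ω → List Ω) {a : ℕ} {s t : St Ω} (h : Rn p (N p) a s t) : Rn p (N p) a (cs k s) (cs k t) := by
  induction h with
  | refl a s h => exact .refl _ _ (N_cs h)
  | @reg a s t v hs h ht ih =>
    have h1 : Rn p (N p) 0 (cs k s) (cs k t) := by
      rcases h with h | h
      · exact lift_SL0 h hs
      · exact (lift_SL0 (k := k) h hs.mir).mir
    have := h1.trans ih
    rwa [zero_add] at this
  | run h ht ih => exact .run (lift_Run h) ih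

theorem lift_RTn (k : Ω → List Ω) {a : ℕ} {s t : St Ω} (h : RTn p a s t) : RTn p a (cs k s) (cs k t) :=
  ⟨lift_Rn k h.1, lift_Rn k h.2⟩

end Pool.Agent.helper32.RH
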