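import Pool.Agent.helper32.RH.Fil

/-!
# MP_c8d30a, exponent 12: drops (one more mixed letter)
-/

set_option autoImplicit false

namespace Pool.Agent.helper32.RH

open Equiv List NTH

variable {Ω : Type} [DecidableEq Ω] {p : Ω → Ω}

/-- with `K` runs (round trip) the number of mixed letters can be made larger; `f` stays the last token
and mixed. -/
def DropR (p : Ω → Ω) (K : ℕ) (f : Ω) (s : St Ω) : Prop :=
  ∃ s', RTs p K s s' ∧ WF p s' ∧ s'.2.getLast? = some f ∧ p f ∈ s'.1 ∧ (s'.1 ++ s'.2).Perm (s.1 ++ s.2) ∧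
    NA.mx p s < NA.mx p s'

/-- a coloured letter. -/
def Clr (p : Ω → Ω) (s : St Ω) (v : Ω) : Prop := (v ∈ s.1 ∧ p v ∈ s.1) ∨ (v ∈ s.2 ∧ p v ∈ s.2)

theorem RTs.trans {a b : ℕ} {s u v : St Ω} (h : RTs p a s u) (h' : RTs p b u v) (hp : (u.1 ++ u.2).Perm (s.1 ++ s.2)) :
    RTs p (a + b) s v := fun e he he' =>
  RTn.tr (h e he he') (h' e (fun h1 => he (hp.mem_iff.mp h1)) (fun h1 => he' (hp.mem_iff.mp h1)))

theorem RTs.mono {a b : ℕ} {s u : St Ω} (h : RTs p a s u) (hab : a ≤ b) : RTs p b s u := fun e he he' =>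
  ⟨(h e he he').1.mono hab, (h e he he').2.mono hab⟩

theorem RTs.refl {s : St Ω} (hr : ∃ r ∈ s.1, p r ∈ s.1) (hb : ∃ b ∈ s.2, p b ∈ s.2) : RTs p 0 s s := fun e _ _ => by
  obtain ⟨r, h1, h2⟩ := hr
  obtain ⟨b, h3, h4⟩ := hb
  have : N p (s.1 ++ [p e], e :: s.2) := ⟨⟨r, List.mem_append_left _ h1, List.mem_append_left _ h2⟩,
    ⟨b, List.mem_cons_of_mem _ h3, List.mem_cons_of_mem _ h4⟩⟩
  exact ⟨.refl _ _ this, .refl _ _ this⟩

theorem RTs.symm {K : ℕ} {s u : St Ω} (h : RTs p K s u) (hp : (u.1 ++ u.2).Perm (s.1 ++ s.2)) : RTs p K u s := fun e he he' =>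
  ⟨(h e (fun h1 => he (hp.mem_iff.mpr h1)) (fun h1 => he' (hp.mem_iff.mpr h1))).2,
    (h e (fun h1 => he (hp.mem_iff.mpr h1)) (fun h1 => he' (hp.mem_iff.mpr h1))).1⟩

theorem DropR.mono {a b : ℕ} {f : Ω} {s : St Ω} (h : DropR p a f s) (hab : a ≤ b) : DropR p b f s := by
  obtain ⟨s', h1, h2⟩ := h
  exact ⟨s', h1.mono hab, h2⟩

theorem DropR.pre {a b : ℕ} {f : Ω} {s u : St Ω} (h : RTs p a s u) (hp : (u.1 ++ u.2).Perm (s.1 ++ s.2))
    (hm : NA.mx p s ≤ NA.mx p u) (h' : DropR p b f u) : DropR p (a + b) f s := by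
  obtain ⟨s', h1, h2, h3, h4, h5, h6⟩ := h'
  exact ⟨s', h.trans h1 hp, h2, h3, h4, h5.trans hp, lt_of_le_of_lt hm h6⟩

theorem Mvd.perm {s s' : St Ω} {f t x y : Ω} (h : MvO p s f t x y) (h' : Mvd p s f t x y s') :
    (s'.1 ++ s'.2).Perm (s.1 ++ s.2) := by
  rw [List.perm_ext_iff_of_nodup h'.wf.nd h.wf.nd]
  intro v
  have px := h.wf.cl _ h.xm
  have ym := h.ym
  have pym := h.py
  have tm := h.tm
  simp only [List.mem_append] at px ym pym tm ⊢
  rw [h'.m1, h'.m2]
  by_cases h1 : v = t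
  · subst h1; (first | grind | tauto)
  by_cases h2 : v = p y
  · subst h2; (first | grind | tauto)
  · (first | grind | tauto)

theorem MvdQ.perm {s s' : St Ω} {f t y : Ω} (h : MvQ p s f t y) (h' : MvdQ p s f t y s') :
    (s'.1 ++ s'.2).Perm (s.1 ++ s.2) := by
  rw [List.perm_ext_iff_of_nodup h'.wf.nd h.wf.nd]
  intro v
  have ym := h.ym
  have pym := h.py
  have tm := h.tm
  simp only [List.mem_append] at ym pym tm ⊢
  rw [h'.m1, h'.m2]
  by_cases h1 : v = t
  · subst h1; (first | grind | tauto)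
  by_cases h2 : v = p y
  · subst h2; (first | grind | tauto)
  · (first | grind | tauto)

/-- the set of the mixed tokens of the first word. -/
theorem mx_card {s : St Ω} (hn : s.1.Nodup) : NA.mx p s = (s.1.toFinset.filter (fun v => p v ∈ s.2)).card := by
  unfold NA.mx
  rw [List.countP_eq_length_filter, ← List.toFinset_card_of_nodup (hn.filter _)]
  congr 1
  ext v
  simp

theorem mx_lt {s s' : St Ω} (hn : s.1.Nodup) (hn' : s'.1.Nodup) {w : Ω}
    (h1 : ∀ v, v ∈ s.1 → p v ∈ s.2 → v ∈ s'.1 ∧ p v ∈ s'.2) (h2 : w ∈ s'.1) (h3 : p w ∈ s'.2) (h4 : w ∉ s.1 ∨ p w ∉ s.2) :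
    NA.mx p s < NA.mx p s' := by
  rw [mx_card hn, mx_card hn']
  apply Finset.card_lt_card
  rw [Finset.ssubset_iff_of_subset]
  · refine ⟨w, ?_, ?_⟩
    · simp only [Finset.mem_filter, List.mem_toFinset]; exact ⟨h2, h3⟩
    · simp only [Finset.mem_filter, List.mem_toFinset]; (first | grind | tauto)
  · intro v hv
    simp only [Finset.mem_filter, List.mem_toFinset] at hv ⊢
    exact h1 v hv.1 hv.2

theorem mx_le {s s' : St Ω} (hn : s.1.Nodup) (hn' : s'.1.Nodup) 
    (h1 : ∀ v, v ∈ s.1 → p v ∈ s.2 → v ∈ s'.1 ∧ p v ∈ s'.2) : NA.mx p s ≤ NA.mx p s' := by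
  rw [mx_card hn, mx_card hn']
  apply Finset.card_le_card
  intro v hv
  simp only [Finset.mem_filter, List.mem_toFinset] at hv ⊢
  exact h1 v hv.1 hv.2

/-- **the direct drop**: `c` coloured, exactly one of `x`, `y` coloured, and a letter of the other colour. -/
theorem drop1 {s : St Ω} {f t x y : Ω} (h : MvO p s f t x y) (ht : Clr p s t)
    (hxy : (Clr p s x ∧ ¬ Clr p s y) ∨ (¬ Clr p s x ∧ Clr p s y)) {z : Ω} (hz : Clr p s z)
    (hzt : z ∈ s.1 ↔ t ∉ s.1) : DropR p 6 f s := by
  have hp := h.wf.inv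
  have n0 := h.wf.nd
  have hn1 := (List.nodup_append.mp n0).1
  have dis : ∀ v, v ∈ s.1 → v ∉ s.2 := fun v hv hv' => fix_of_disj n0 hv' hv
  have scA : ∀ v, v ∈ s.1 → NA.sc s v ∈ s.1 := by
    intro v hv; rw [sc_mem1 n0 hv]; exact List.formPerm_apply_mem_of_mem hv
  have scB : ∀ v, v ∈ s.2 → NA.sc s v ∈ s.2 := by
    intro v hv; rw [sc_mem2 n0 hv]; exact List.formPerm_apply_mem_of_mem hv
  have px := List.mem_append.mp (h.wf.cl _ h.xm)
  have ym := List.mem_append.mp h.ym
  have pym := List.mem_append.mp h.py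
  have fB := List.mem_of_getLast? h.last
  have fA := h.fA
  rcases ht with ⟨t1, t2⟩ | ⟨t1, t2⟩
  · -- red
    have xA : x ∈ s.1 := h.hx ▸ scA _ t1
    have pyA : p y ∈ s.1 := by
      rcases pym with h3 | h3
      · exact h3
      · have := scB _ h3; rw [h.hy] at this; exact absurd this (dis _ t2)
    have zB : z ∈ s.2 ∧ p z ∈ s.2 := by
      rcases hz with h3 | h3
      · exact absurd t1 (hzt.mp h3.1)
      · exact h3
    have hc : Col p s t x y := by
      refine .red z t1 t2 zB.1 zB.2 ?_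
      intro h1 h2
      exfalso
      unfold Clr at hxy
      have a1 := dis _ xA
      have a2 := dis _ pyA
      have a3 : p x ∉ s.1 := fun h' => dis _ h' h1
      have a4 : y ∉ s.1 := fun h' => dis _ h' h2
      (first | grind | tauto)
    obtain ⟨s', r1, r2⟩ := RHO' h hc
    refine ⟨s', r1, r2.wf, r2.last, ?_, r2.perm h, ?_⟩
    · rw [r2.m1]
      exact Or.inl ⟨fA, fun e => h.tf' e.symm, fun e => h.yf (by rw [← hp y, ← e, hp])⟩
    · have hn1' := (List.nodup_append.mp r2.wf.nd).1
      rcases hxy with ⟨hx, hy⟩ | ⟨hx, hy⟩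
      · -- x red, y mixed
        have pxA : p x ∈ s.1 := by
          rcases hx with h3 | h3
          · exact h3.2
          · exact absurd h3.1 (dis _ xA)
        have yB : y ∈ s.2 := by
          rcases ym with h3 | h3
          · exact absurd (Or.inl ⟨h3, pyA⟩) hy
          · exact h3
        have yA : y ∉ s.1 := fun h' => dis _ h' yB
        refine mx_lt (w := p t) hn1 hn1' ?_ ?_ ?_ (Or.inr (by rw [hp]; exact dis _ t1))
        · intro v v1 v2
          have e1 : v ≠ t := by rintro rfl; exact dis _ t2 v2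
          have e2 : p v ≠ t := by
            intro e; rw [e] at v2; exact dis _ t1 v2
          have e3 : p v ≠ p y := by
            intro e; rw [e] at v2; exact dis _ pyA v2
          rw [r2.m1, r2.m2]
          refine ⟨?_, Or.inl ⟨v2, e2, e3⟩⟩
          by_cases e4 : v = p y
          · exact Or.inr (Or.inr ⟨e4, pxA⟩)
          · exact Or.inl ⟨v1, e1, e4⟩
        · rw [r2.m1]
          exact Or.inl ⟨t2, h.wf.ne t, fun e => h.ty (by rw [← hp t, e, hp])⟩
        · rw [hp, r2.m2]
          exact Or.inr (Or.inl ⟨rfl, yB⟩)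
      · -- x mixed, y red
        have yA : y ∈ s.1 := by
          rcases hy with h3 | h3
          · exact h3.1
          · exact absurd h3.2 (dis _ pyA)
        have pxB : p x ∈ s.2 := by
          rcases px with h3 | h3
          · exact absurd (Or.inl ⟨xA, h3⟩) hx
          · exact h3
        refine mx_lt (w := y) hn1 hn1' ?_ ?_ ?_ (Or.inr (dis _ pyA))
        · intro v v1 v2
          have e1 : v ≠ t := by rintro rfl; exact dis _ t2 v2
          have e2 : p v ≠ t := by
            intro e; rw [e] at v2; exact dis _ t1 v2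
          have e3 : p v ≠ p y := by
            intro e; rw [e] at v2; exact dis _ pyA v2
          have e4 : v ≠ p y := by
            rintro rfl; rw [hp] at v2; exact dis _ yA v2
          rw [r2.m1, r2.m2]
          exact ⟨Or.inl ⟨v1, e1, e4⟩, Or.inl ⟨v2, e2, e3⟩⟩
        · rw [r2.m1]
          exact Or.inl ⟨yA, h.ty.symm, (h.wf.ne y).symm⟩
        · rw [r2.m2]
          exact Or.inr (Or.inr ⟨rfl, pxB⟩)
  · -- blue
    have tA : t ∉ s.1 := fun h' => dis _ h' t1
    have xB : x ∈ s.2 := h.hx ▸ scB _ t1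
    have pyB : p y ∈ s.2 := by
      rcases pym with h3 | h3
      · have := scA _ h3; rw [h.hy] at this; exact absurd t2 (dis _ this)
      · exact h3
    have zA : z ∈ s.1 ∧ p z ∈ s.1 := by
      have := hzt.mpr tA
      rcases hz with h3 | h3
      · exact h3
      · exact absurd h3.1 (dis _ this)
    have hc : Col p s t x y := by
      refine .blue z t1 t2 zA.1 zA.2 ?_
      intro h1 h2
      exfalso
      unfold Clr at hxy
      have a1 := dis _ h1
      have a2 := dis _ h2
      have a3 : x ∉ s.1 := fun h' => dis _ h' xB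
      have a4 : p y ∉ s.1 := fun h' => dis _ h' pyB
      (first | grind | tauto)
    obtain ⟨s', r1, r2⟩ := RHO' h hc
    refine ⟨s', r1, r2.wf, r2.last, ?_, r2.perm h, ?_⟩
    · rw [r2.m1]
      exact Or.inl ⟨fA, fun e => h.tf' e.symm, fun e => h.yf (by rw [← hp y, ← e, hp])⟩
    · have hn1' := (List.nodup_append.mp r2.wf.nd).1
      rcases hxy with ⟨hx, hy⟩ | ⟨hx, hy⟩
      · -- x blue, y mixed
        have pxB : p x ∈ s.2 := by
          rcases hx with h3 | h3
          · exact absurd xB (dis _ h3.1)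
          · exact h3.2
        have yA : y ∈ s.1 := by
          rcases ym with h3 | h3
          · exact h3
          · exact absurd (Or.inr ⟨h3, pyB⟩) hy
        refine mx_lt (w := t) hn1 hn1' ?_ ?_ ?_ (Or.inl tA)
        · intro v v1 v2
          have e1 : v ≠ t := by rintro rfl; exact tA v1
          have e2 : v ≠ p y := by rintro rfl; exact dis _ v1 pyB
          have e3 : p v ≠ t := by
            intro e
            have : v = p t := by rw [← e, hp]
            rw [this] at v1; exact dis _ v1 t2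
          rw [r2.m1, r2.m2]
          refine ⟨Or.inl ⟨v1, e1, e2⟩, ?_⟩
          by_cases e4 : p v = p y
          · exact Or.inr (Or.inr ⟨e4, pxB⟩)
          · exact Or.inl ⟨v2, e3, e4⟩
        · rw [r2.m1]; exact Or.inr (Or.inl ⟨rfl, yA⟩)
        · rw [r2.m2]
          exact Or.inl ⟨t2, h.wf.ne t, fun e => h.ty (by rw [← hp t, e, hp])⟩
      · -- x mixed, y blue
        have yB : y ∈ s.2 := by
          rcases hy with h3 | h3
          · exact absurd pyB (dis _ h3.2)
          · exact h3.1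
        have pxA : p x ∈ s.1 := by
          rcases px with h3 | h3
          · exact h3
          · exact absurd (Or.inr ⟨xB, h3⟩) hx
        refine mx_lt (w := p y) hn1 hn1' ?_ ?_ ?_ (Or.inl (fun h' => dis _ h' pyB))
        · intro v v1 v2
          have e1 : v ≠ t := by rintro rfl; exact tA v1
          have e2 : v ≠ p y := by rintro rfl; exact dis _ v1 pyB
          have e3 : p v ≠ t := by
            intro e
            have : v = p t := by rw [← e, hp]
            rw [this] at v1; exact dis _ v1 t2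
          have e4 : p v ≠ p y := by
            intro e
            have : v = y := by rw [← hp v, e, hp]
            rw [this] at v1; exact dis _ v1 yB
          rw [r2.m1, r2.m2]
          exact ⟨Or.inl ⟨v1, e1, e2⟩, Or.inl ⟨v2, e3, e4⟩⟩
        · rw [r2.m1]; exact Or.inr (Or.inr ⟨rfl, pxA⟩)
        · rw [hp, r2.m2]
          exact Or.inl ⟨yB, h.ty.symm, (h.wf.ne y).symm⟩

/-- **lifting of drops**: the deleted letters are coloured. -/
theorem drop_fil {q : Ω → Bool} {K : ℕ} {f : Ω} {s : St Ω} (hw : WF p s) (hq : ∀ t, q (p t) = q t)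
    (hm : ∀ t ∈ s.1 ++ s.2, q t = false → Clr p s t) (hl : s.2.getLast? = some f) (hf : p f ∈ s.1) (hqf : q f = true)
    (h : DropR p K f (NA.fil q s)) : DropR p K f s := by
  obtain ⟨u, h1, h2, h3, h4, h5, h6⟩ := h
  obtain ⟨s', r1, r2, r3, r4⟩ := lift_fil hw ⟨p f, hf, by rw [hq]; exact hqf⟩ h1 h5
  have hn0 := hw.nd
  have dis : ∀ v, v ∈ s.1 → v ∉ s.2 := fun v hv hv' => fix_of_disj hn0 hv' hv
  have hn1 := (List.nodup_append.mp hn0).1
  have hw' : WF p s' := NA.wf_perm hw r3.symm
  have hn1' := (List.nodup_append.mp hw'.nd).1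
  have e1 : ∀ v, v ∈ u.1 ↔ v ∈ s'.1 ∧ q v = true := by
    intro v; rw [← r2]; simp [NA.fil]
  have e2 : ∀ v, v ∈ u.2 ↔ v ∈ s'.2 ∧ q v = true := by
    intro v; rw [← r2]; simp [NA.fil]
  refine ⟨s', r1, hw', r4 f hl h3, ((e1 _).mp h4).1, r3, ?_⟩
  have g1 : NA.mx p s ≤ NA.mx p (NA.fil q s) := by
    apply mx_le hn1 (by simpa [NA.fil] using hn1.filter _)
    intro v v1 v2
    have hqv : q v = true := by
      by_contra hc
      rw [Bool.not_eq_true] at hc
      rcases hm v (List.mem_append_left _ v1) hc with h7 | h7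
      · exact dis _ h7.2 v2
      · exact dis _ v1 h7.1
    simp only [NA.fil, List.mem_filter]
    exact ⟨⟨v1, hqv⟩, v2, by rw [hq]; exact hqv⟩
  have g2 : NA.mx p u ≤ NA.mx p s' := by
    apply mx_le (List.nodup_append.mp h2.nd).1 hn1'
    intro v v1 v2
    exact ⟨((e1 v).mp v1).1, ((e2 _).mp v2).1⟩
  omega

end Pool.Agent.helper32.RH
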