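import Pool.Agent.helper32.RH.Env

/-!
# MP_c8d30a, exponent 12: the moves with `X1 = Y2` (`t Y2 c2` in one word) in functional form
-/

set_option autoImplicit false

namespace Pool.Agent.helper32.RH

open Equiv List NTH

variable {Ω : Type} [DecidableEq Ω] {p : Ω → Ω}

/-- the tokens and letters of a move with `X1 = Y2 = p y`: `t`, `p y`, `p t` adjacent in this order. -/
structure MvQ (p : Ω → Ω) (s : St Ω) (f t y : Ω) : Prop where
  wf : WF p s
  last : s.2.getLast? = some f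
  fA : p f ∈ s.1
  tm : t ∈ s.1 ++ s.2
  hx : NA.sc s t = p y
  hy : NA.sc s (p y) = p t
  ty : t ≠ y
  ty' : t ≠ p y
  tf : t ≠ f
  tf' : t ≠ p f
  yf : y ≠ f
  yf' : y ≠ p f

/-- the result: `p y`, `t` go before `y`. -/
structure MvdQ (p : Ω → Ω) (s : St Ω) (f t y : Ω) (s' : St Ω) : Prop where
  wf : WF p s'
  last : s'.2.getLast? = some f
  sc : NA.sc s' = swap t (p t) * (swap y (p y) * NA.sc s)
  m1 : ∀ v, v ∈ s'.1 ↔ (v ∈ s.1 ∧ v ≠ t ∧ v ≠ p y) ∨ ((v = t ∨ v = p y) ∧ y ∈ s.1)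
  m2 : ∀ v, v ∈ s'.2 ↔ (v ∈ s.2 ∧ v ≠ t ∧ v ≠ p y) ∨ ((v = t ∨ v = p y) ∧ y ∈ s.2)

/-- the colours. -/
inductive ColQ (p : Ω → Ω) (s : St Ω) (t y : Ω) : Prop
  | red (z : Ω) (h1 : t ∈ s.1) (h2 : p t ∈ s.1) (hz : z ∈ s.2) (hz' : p z ∈ s.2)
      (hd : y ∈ s.2 → ∃ d ∈ s.1, p d ∈ s.1 ∧ d ≠ t ∧ d ≠ p t)
  | blue (z : Ω) (h1 : t ∈ s.2) (h2 : p t ∈ s.2) (hz : z ∈ s.1) (hz' : p z ∈ s.1)
      (hd : y ∈ s.1 → ∃ d ∈ s.2, p d ∈ s.2 ∧ d ≠ t ∧ d ≠ p t)

theorem MvQ.py {s : St Ω} {f t y : Ω} (h : MvQ p s f t y) : p y ∈ s.1 ++ s.2 := by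
  by_contra h1
  have h2 : NA.sc s (p y) = p y := by
    rw [List.mem_append, not_or] at h1
    unfold NA.sc
    rw [Perm.mul_apply, List.formPerm_apply_of_notMem h1.2, List.formPerm_apply_of_notMem h1.1]
  rw [h.hy] at h2
  have := congrArg p h2
  rw [h.wf.inv, h.wf.inv] at this
  exact h.ty this

theorem MvQ.ym {s : St Ω} {f t y : Ω} (h : MvQ p s f t y) : y ∈ s.1 ++ s.2 := by
  have := h.wf.cl _ h.py
  rwa [h.wf.inv] at this

theorem gq_eq {t Y1 Y2 : Ω} (h4 : Y1 ≠ t) (h5 : Y1 ≠ Y2) (h6 : t ≠ Y2) {W : List Ω} (hn : W.Nodup) :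
    W.flatMap (gq t Y1 Y2) = ins Y2 t (ins t Y1 (dl Y2 (dl t W))) := by
  have key : ∀ V : List Ω, (∀ v ∈ V, v ≠ t) → True := fun _ _ => trivial
  induction W with
  | nil => rfl
  | cons a W ih =>
    rw [List.flatMap_cons, ih (List.nodup_cons.mp hn).2]
    have e : ∀ W : List Ω, dl t (a :: W) = dl t [a] ++ dl t W := fun W => by rw [← dl_append]; rfl
    rw [e, dl_append, ins_append, ins_append]
    congr 1
    by_cases ht : a = t
    · subst ht
      simp [gq, dl, ins]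
    by_cases hy : a = Y2
    · subst hy
      simp [gq, dl, ins]
    by_cases hy1 : a = Y1
    · subst hy1
      simp [gq, dl, ins, ht, hy]
    · simp [gq, dl, ins, ht, hy, hy1]

theorem mem_flatQ {t Y1 Y2 v : Ω} (h4 : Y1 ≠ t) (h5 : Y1 ≠ Y2) (h6 : t ≠ Y2) {W : List Ω} (hn : W.Nodup) :
    v ∈ W.flatMap (gq t Y1 Y2) ↔ (v ∈ W ∧ v ≠ t ∧ v ≠ Y2) ∨ ((v = t ∨ v = Y2) ∧ Y1 ∈ W) := by
  rw [gq_eq h4 h5 h6 hn]
  simp only [mem_ins, mem_dl]
  constructor
  · rintro ((⟨⟨h7, h8⟩, h9⟩ | ⟨h7, ⟨h8, h9⟩, h10⟩) | ⟨h7, h8 | ⟨h8, h9⟩⟩)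
    · exact Or.inl ⟨h7, h8, h9⟩
    · exact Or.inr ⟨Or.inl h7, h8⟩
    · exact absurd rfl h8.1.2
    · exact Or.inr ⟨Or.inr h7, h9.1.1⟩
  · rintro (⟨h7, h8, h9⟩ | ⟨h7 | h7, h8⟩)
    · exact Or.inl (Or.inl ⟨⟨h7, h8⟩, h9⟩)
    · exact Or.inl (Or.inr ⟨h7, ⟨h8, h4⟩, h5⟩)
    · exact Or.inr ⟨h7, Or.inr ⟨trivial, ⟨h8, h4⟩, h5⟩⟩

/-- the result of the move on words. -/
theorem mvdQ_of {s : St Ω} {f t y : Ω} (h : MvQ p s f t y) :
    MvdQ p s f t y (s.1.flatMap (gq t y (p y)), s.2.flatMap (gq t y (p y))) := by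
  have hp := h.wf.inv
  have hne := h.wf.ne
  have n0 := h.wf.nd
  have k5 : y ≠ p y := (hne y).symm
  have k6 : p t ≠ p y := fun e => h.ty (by rw [← hp t, e, hp])
  have n01 := (List.nodup_append.mp n0).1
  have n02 := (List.nodup_append.mp n0).2.1
  have happ : s.1.flatMap (gq t y (p y)) ++ s.2.flatMap (gq t y (p y)) = (s.1 ++ s.2).flatMap (gq t y (p y)) := by
    rw [List.flatMap_append]
  have hmem : ∀ v, v ∈ (s.1 ++ s.2).flatMap (gq t y (p y)) ↔ v ∈ s.1 ++ s.2 := by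
    intro v
    rw [mem_flatQ h.ty.symm k5 h.ty' n0]
    constructor
    · rintro (⟨h1, _⟩ | ⟨rfl | rfl, _⟩)
      · exact h1
      · exact h.tm
      · exact h.py
    · intro h1
      by_cases h2 : v = t
      · exact Or.inr ⟨Or.inl h2, h.ym⟩
      by_cases h3 : v = p y
      · exact Or.inr ⟨Or.inr h3, h.ym⟩
      · exact Or.inl ⟨h1, h2, h3⟩
  have n1 : ((D2 t s).1 ++ (D2 t s).2).Nodup := by rw [D2_app]; exact dl_nodup n0
  have n2 : ((D2 (p y) (D2 t s)).1 ++ (D2 (p y) (D2 t s)).2).Nodup := by rw [D2_app]; exact dl_nodup n1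
  have t2 : t ∉ (D2 (p y) (D2 t s)).1 ++ (D2 (p y) (D2 t s)).2 := by
    rw [D2_app, D2_app, mem_dl, mem_dl]; tauto
  have y2 : y ∈ (D2 (p y) (D2 t s)).1 ++ (D2 (p y) (D2 t s)).2 := by
    rw [D2_app, D2_app, mem_dl, mem_dl]
    exact ⟨⟨h.ym, h.ty.symm⟩, k5⟩
  have n3 : ((I2 t y (D2 (p y) (D2 t s))).1 ++ (I2 t y (D2 (p y) (D2 t s))).2).Nodup := by
    rw [I2_app]; exact ins_nodup n2 t2
  have t3 : t ∈ (I2 t y (D2 (p y) (D2 t s))).1 ++ (I2 t y (D2 (p y) (D2 t s))).2 := by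
    rw [I2_app, mem_ins]; exact Or.inr ⟨rfl, y2⟩
  have y3 : p y ∉ (I2 t y (D2 (p y) (D2 t s))).1 ++ (I2 t y (D2 (p y) (D2 t s))).2 := by
    rw [I2_app, D2_app, D2_app, mem_ins, mem_dl, mem_dl]
    rintro (h1 | h1)
    · exact h1.2 rfl
    · exact h.ty' h1.1.symm
  have e2 : (s.1.flatMap (gq t y (p y)), s.2.flatMap (gq t y (p y))) =
      I2 (p y) t (I2 t y (D2 (p y) (D2 t s))) := by
    rw [gq_eq h.ty.symm k5 h.ty' n01, gq_eq h.ty.symm k5 h.ty' n02]; rfl
  have n4 : ((s.1 ++ s.2).flatMap (gq t y (p y))).Nodup := by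
    rw [gq_eq h.ty.symm k5 h.ty' n0, ← D2_app, ← D2_app, ← I2_app]
    exact ins_nodup n3 y3
  refine ⟨⟨?_, ?_, hp, hne⟩, ?_, ?_, ?_, ?_⟩
  · rw [happ]; exact n4
  · intro v hv
    rw [happ, hmem] at hv ⊢
    exact h.wf.cl v hv
  · obtain ⟨Y, hY⟩ := List.getLast?_eq_some_iff.mp h.last
    rw [hY, List.flatMap_append, List.flatMap_singleton]
    have : gq t y (p y) f = [f] := by
      unfold gq
      rw [if_neg h.tf.symm, if_neg (fun e => h.yf' (by rw [e, hp])), if_neg h.yf.symm]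
    rw [this]
    simp
  · rw [e2]
    have s1 : NA.sc (D2 t s) = swap t (p y) * NA.sc s := sc_D2 n0 h.tm h.hx h.ty'.symm
    have s2 : NA.sc (D2 (p y) (D2 t s)) = swap (p y) (p t) * NA.sc (D2 t s) := by
      apply sc_D2 n1
      · rw [D2_app, mem_dl]; exact ⟨h.py, h.ty'.symm⟩
      · rw [s1, Perm.mul_apply, h.hy, swap_apply_of_ne_of_ne (hne t) k6]
      · exact k6
    have s3 : NA.sc (I2 t y (D2 (p y) (D2 t s))) = swap t y * NA.sc (D2 (p y) (D2 t s)) := sc_I2 n2 y2 t2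
    rw [sc_I2 n3 t3 y3, s3, s2, s1]
    have id1 : swap (p y) t * (swap t y * (swap (p y) (p t) * swap t (p y))) = swap t (p t) * swap y (p y) := by
      have a1 := h.ty
      have a2 := h.ty'
      have a3 := hne t
      have a4 : p t ≠ y := fun e => a2 (by rw [← e, hp])
      ext v
      simp only [Perm.mul_apply]
      by_cases v1 : v = t
      · subst v1
        rw [swap_apply_left, swap_apply_left, swap_apply_of_ne_of_ne a3 a4, swap_apply_of_ne_of_ne k6 a3,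
          swap_apply_of_ne_of_ne a1 a2, swap_apply_left]
      by_cases v2 : v = p t
      · subst v2
        rw [swap_apply_of_ne_of_ne a3 k6, swap_apply_right, swap_apply_of_ne_of_ne a2.symm k5.symm, swap_apply_left,
          swap_apply_of_ne_of_ne a4 k6, swap_apply_right]
      by_cases v3 : v = y
      · subst v3
        rw [swap_apply_of_ne_of_ne a1.symm k5, swap_apply_of_ne_of_ne k5 a4.symm, swap_apply_right, swap_apply_right,
          swap_apply_left, swap_apply_of_ne_of_ne a2.symm k6.symm]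
      by_cases v4 : v = p y
      · subst v4
        rw [swap_apply_right, swap_apply_of_ne_of_ne a2 a3.symm, swap_apply_left, swap_apply_of_ne_of_ne k5 a1.symm,
          swap_apply_right, swap_apply_of_ne_of_ne a1.symm a4.symm]
      · rw [swap_apply_of_ne_of_ne v1 v4, swap_apply_of_ne_of_ne v4 v2, swap_apply_of_ne_of_ne v1 v3,
          swap_apply_of_ne_of_ne v4 v1, swap_apply_of_ne_of_ne v3 v4, swap_apply_of_ne_of_ne v1 v2]
    have := congrArg (· * NA.sc s) id1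
    simpa only [mul_assoc] using this
  · intro v; exact mem_flatQ h.ty.symm k5 h.ty' n01
  · intro v; exact mem_flatQ h.ty.symm k5 h.ty' n02

/-- three adjacent tokens. -/
theorem inf3 {a b c : Ω} {X : List Ω} (hn : X.Nodup) (h1 : [a, b] <:+: X) (h2 : [b, c] <:+: X) : [a, b, c] <:+: X := by
  obtain ⟨L, R, e1⟩ := h1
  obtain ⟨L', R', e2⟩ := h2
  have e : (L ++ [a]) ++ b :: R = L' ++ b :: (c :: R') := by
    have : (L ++ [a]) ++ b :: R = L ++ [a, b] ++ R := by simp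
    rw [this, e1, ← e2]; simp
  have hn' : ((L ++ [a]) ++ b :: R).Nodup := by
    have : (L ++ [a]) ++ b :: R = L ++ [a, b] ++ R := by simp
    rw [this, e1]; exact hn
  have hb1 : b ∉ L ++ [a] := by
    intro hb
    exact (List.nodup_append.mp hn').2.2 b hb b (List.mem_cons_self) rfl
  have hn'' : (L' ++ b :: (c :: R')).Nodup := e ▸ hn'
  have hb2 : b ∉ L' := by
    intro hb
    exact (List.nodup_append.mp hn'').2.2 b hb b (List.mem_cons_self) rfl
  have e3 : L' = L ++ [a] ∧ b :: R = b :: c :: R' := by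
    rcases List.append_eq_append_iff.mp e with ⟨k, h3, h4⟩ | ⟨k, h3, h4⟩
    · cases k with
      | nil => exact ⟨by rw [h3, List.append_nil], by simpa using h4⟩
      | cons k0 k =>
        simp only [List.cons_append, List.cons.injEq] at h4
        exact absurd (by rw [h3, h4.1]; simp) hb2
    · cases k with
      | nil => exact ⟨by rw [h3, List.append_nil], by simpa using h4.symm⟩
      | cons k0 k =>
        simp only [List.cons_append, List.cons.injEq] at h4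
        exact absurd (by rw [h3, h4.1]; simp) hb1
  refine ⟨L, R', ?_⟩
  rw [← e1]
  simp only [List.cons.injEq, true_and] at e3
  rw [e3.2]
  simp

/-- red, in list form. -/
theorem qred {X Y : List Ω} {f e t y : Ω} (hp : ∀ t, p (p t) = t) (hne : ∀ t, p t ≠ t)
    (nd : ((p f :: (X ++ [p e])) ++ (e :: (Y ++ [f]))).Nodup) (ty : t ≠ y) (ty' : t ≠ p y) (tf : t ≠ f) (tf' : t ≠ p f)
    (yf : y ≠ f) (yf' : y ≠ p f) (i1 : [t, p y, p t] <:+: X)
    (m2 : y ∈ X ∨ y ∈ Y) {z : Ω} (hz : z ∈ Y) (hz' : p z ∈ Y) (hd : y ∈ Y → ∃ d ∈ X, p d ∈ X ∧ d ≠ t ∧ d ≠ p t) :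
    RTn p 6 (p f :: (X ++ [p e]), e :: (Y ++ [f])) ((p f :: (X ++ [p e])).flatMap (gq t y (p y)), (e :: (Y ++ [f])).flatMap (gq t y (p y))) := by
  have hfc := nd
  simp only [List.cons_append, List.nodup_cons, List.mem_cons, List.mem_append, List.not_mem_nil, or_false, not_or,
    List.nodup_append, List.append_assoc, List.nil_append, List.nodup_nil, ne_eq, forall_eq_or_imp, forall_eq] at hfc
  have fc : (∀ v, v ∈ X → v ∉ Y) ∧ f ∉ X ∧ f ∉ Y ∧ p f ∉ X ∧ p f ∉ Y ∧ e ∉ X ∧ e ∉ Y ∧ p e ∉ X ∧ p e ∉ Y ∧ f ≠ e ∧ f ≠ p e := by grind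
  clear hfc
  obtain ⟨f1, f2, f3, f4, f5, f6, f7, f8, f9, f10, f11⟩ := fc
  have a1 : t ∈ X := i1.subset (by simp)
  have a2 : p y ∈ X := i1.subset (by simp)
  have a4 : p t ∈ X := i1.subset (by simp)
  rcases m2 with m2 | m2
  · exact rQAk hp hne (z := z) (by
      unfold LD
      simp only [List.pairwise_cons, List.mem_cons, List.not_mem_nil, or_false, forall_eq_or_imp, forall_eq,
        List.Pairwise.nil, and_true, IsEmpty.forall_iff, implies_true]
      repeat' apply And.intro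
      all_goals grind) i1 m2 hz hz' nd
  · obtain ⟨d, d1, d2, d3, d4⟩ := hd m2
    exact rQAm hp hne (z := z) (d := d) (by
      unfold LD
      simp only [List.pairwise_cons, List.mem_cons, List.not_mem_nil, or_false, forall_eq_or_imp, forall_eq,
        List.Pairwise.nil, and_true, IsEmpty.forall_iff, implies_true]
      repeat' apply And.intro
      all_goals grind) i1 d1 d2 m2 hz hz' nd

/-- **the move with `X1 = Y2`**: six runs in both directions. -/
theorem RHOQ {s : St Ω} {f t y : Ω} (h : MvQ p s f t y) (hc : ColQ p s t y) :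
    RTs p 6 s (s.1.flatMap (gq t y (p y)), s.2.flatMap (gq t y (p y))) := by
  intro e he he'
  obtain ⟨X, Y, E⟩ := env_of h.wf h.last h.fA he he'
  have k : ∀ v, v ∈ s.1 ++ s.2 → e ≠ v := fun v hv h => he (h ▸ hv)
  have k' : ∀ v, v ∈ s.1 ++ s.2 → p e ≠ v := fun v hv h => he' (h ▸ hv)
  refine E.path _ (by simp [gq, k _ h.tm, k _ h.py, k _ h.ym]) (by simp [gq, k' _ h.tm, k' _ h.py, k' _ h.ym]) ?_
  have hp := E.hp
  have ypf : p y ≠ p f := fun e' => h.yf (by rw [← hp y, e', hp])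
  have ypf' : p y ≠ f := fun e' => h.yf' (by rw [← e', hp])
  have tpf : p t ≠ p f := fun e' => h.tf (by rw [← hp t, e', hp])
  have tpf' : p t ≠ f := fun e' => h.tf' (by rw [← e', hp])
  have redX : ∀ d, d ∈ s.1 → p d ∈ s.1 → d ∈ X ∧ p d ∈ X := by
    intro d h1 h2
    refine ⟨E.inX _ h1 ?_, E.inX _ h2 ?_⟩
    · rintro rfl; rw [hp] at h2; exact E.dis _ h2 E.fB
    · intro e'
      have : d = f := by rw [← hp d, e', hp]
      rw [this] at h1; exact E.dis _ h1 E.fB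
  have bluY : ∀ d, d ∈ s.2 → p d ∈ s.2 → d ∈ Y ∧ p d ∈ Y := by
    intro d h1 h2
    refine ⟨E.inY _ h1 ?_, E.inY _ h2 ?_⟩
    · rintro rfl; exact E.dis _ E.fA h2
    · intro e'
      have : d = p f := by rw [← e', hp]
      rw [this] at h1; exact E.dis _ E.fA h1
  have nX : X.Nodup := (List.Sublist.nodup (by
    have : X <+ (p f :: (X ++ [p e])) ++ (e :: (Y ++ [f])) := by
      refine List.Sublist.trans ?_ (List.sublist_append_left _ _)
      exact (List.sublist_append_left X [p e]).cons _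
    exact this) E.nd)
  have nY : Y.Nodup := (List.Sublist.nodup (by
    have : Y <+ (p f :: (X ++ [p e])) ++ (e :: (Y ++ [f])) := by
      refine List.Sublist.trans ?_ (List.sublist_append_right _ _)
      exact (List.sublist_append_left Y [f]).cons _
    exact this) E.nd)
  have my : y ∈ X ∨ y ∈ Y := by
    rcases List.mem_append.mp h.ym with h3 | h3
    · exact Or.inl (E.inX _ h3 h.yf')
    · exact Or.inr (E.inY _ h3 h.yf)
  cases hc with
  | red z h1 h2 hz hz' hd =>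
    have pyA : p y ∈ s.1 := h.hx ▸ E.scA _ h1
    obtain ⟨z1, z2⟩ := bluY z hz hz'
    refine qred hp E.hne E.nd h.ty h.ty' h.tf h.tf' h.yf h.yf' (inf3 nX (E.iA _ _ h1 h.hx h.tf' ypf) (E.iA _ _ pyA h.hy ypf tpf))
      my z1 z2 ?_
    intro hy
    obtain ⟨d, d1, d2, d3, d4⟩ := hd (by rw [E.eB]; exact List.mem_append_left _ hy)
    obtain ⟨q1, q2⟩ := redX d d1 d2
    exact ⟨d, q1, q2, d3, d4⟩
  | blue z h1 h2 hz hz' hd =>
    have pyB : p y ∈ s.2 := h.hx ▸ E.scB _ h1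
    obtain ⟨z1, z2⟩ := redX z hz hz'
    have nd' : ((p (p e) :: (Y ++ [p (p f)])) ++ (p f :: (X ++ [p e]))).Nodup := by
      rw [hp, hp]
      exact (List.perm_append_comm.nodup_iff).1 E.nd
    have hte : t ≠ e := (k _ h.tm).symm
    have hte' : t ≠ p e := (k' _ h.tm).symm
    have hye : y ≠ e := (k _ h.ym).symm
    have hye' : y ≠ p e := (k' _ h.ym).symm
    have := qred (X := Y) (Y := X) (f := p e) (e := p f) hp E.hne nd' h.ty h.ty' hte' (by rw [hp]; exact hte) hye' (by rw [hp]; exact hye)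
      (inf3 nY (E.iB _ _ h1 h.hx h.tf ypf') (E.iB _ _ pyB h.hy ypf' tpf')) (Or.symm my) z1 z2 (by
        intro hy
        obtain ⟨d, d1, d2, d3, d4⟩ := hd (E.rot.mem_iff.mpr (List.mem_cons_of_mem _ hy))
        obtain ⟨q1, q2⟩ := bluY d d1 d2
        exact ⟨d, q1, q2, d3, d4⟩)
    rw [hp, hp] at this
    exact RTn.mir' this

/-- **the move with `X1 = Y2`**, with the result. -/
theorem RHOQ' {s : St Ω} {f t y : Ω} (h : MvQ p s f t y) (hc : ColQ p s t y) :
    ∃ s', RTs p 6 s s' ∧ MvdQ p s f t y s' := ⟨_, RHOQ h hc, mvdQ_of h⟩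

end Pool.Agent.helper32.RH
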