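import Pool.Agent.helper32.RH.RhoTG

/-!
# MP_c8d30a, exponent 12: creation moves, and moves with `X1 = Y2`, in functional form
-/

set_option autoImplicit false

namespace Pool.Agent.helper32.RH

open Equiv List NTH

variable {Ω : Type} [DecidableEq Ω] {p : Ω → Ω}

/-- the two words in the form `p f :: X`, `Y ++ [f]`. -/
structure Env (p : Ω → Ω) (s : St Ω) (f e : Ω) (X Y : List Ω) : Prop where
  hp : ∀ t, p (p t) = t
  hne : ∀ t, p t ≠ t
  rot : s.1 ~r p f :: X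
  eB : s.2 = Y ++ [f]
  dis : ∀ v, v ∈ s.1 → v ∉ s.2
  fA : p f ∈ s.1
  fB : f ∈ s.2
  inX : ∀ v, v ∈ s.1 → v ≠ p f → v ∈ X
  inY : ∀ v, v ∈ s.2 → v ≠ f → v ∈ Y
  iA : ∀ u v, u ∈ s.1 → NA.sc s u = v → u ≠ p f → v ≠ p f → [u, v] <:+: X
  iB : ∀ u v, u ∈ s.2 → NA.sc s u = v → u ≠ f → v ≠ f → [u, v] <:+: Y
  lA : ∀ u, u ∈ s.1 → NA.sc s u = p f → u ≠ p f → ∃ X', X = X' ++ [u]
  lB : ∀ u, u ∈ s.2 → NA.sc s u = f → u ≠ f → ∃ Y', Y = Y' ++ [u]
  scA : ∀ v, v ∈ s.1 → NA.sc s v ∈ s.1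
  scB : ∀ v, v ∈ s.2 → NA.sc s v ∈ s.2
  nd : ((p f :: (X ++ [p e])) ++ (e :: (Y ++ [f]))).Nodup

theorem env_of {s : St Ω} {f e : Ω} (hwf : WF p s) (last : s.2.getLast? = some f) (fA : p f ∈ s.1)
    (he : e ∉ s.1 ++ s.2) (he' : p e ∉ s.1 ++ s.2) : ∃ X Y, Env p s f e X Y := by
  have hp := hwf.inv
  have hne := hwf.ne
  obtain ⟨L, R, hLR⟩ := List.append_of_mem fA
  have hrot : s.1 ~r p f :: (R ++ L) := by
    rw [hLR]
    simpa using List.isRotated_append (l := L) (l' := p f :: R)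
  obtain ⟨Y, hY⟩ := List.getLast?_eq_some_iff.mp last
  have hn0 := hwf.nd
  have hn1 : s.1.Nodup := (List.nodup_append.mp hn0).1
  have hnA : (p f :: (R ++ L)).Nodup := hrot.nodup_iff.mp hn1
  have hnB : (Y ++ [f]).Nodup := hY ▸ (List.nodup_append.mp hn0).2.1
  have hmA : ∀ v, v ∈ s.1 ↔ v ∈ p f :: (R ++ L) := fun v => hrot.mem_iff
  have hdis : ∀ v, v ∈ s.1 → v ∉ s.2 := fun v hv hv' => fix_of_disj hn0 hv' hv
  have fB : f ∈ s.2 := by rw [hY]; simp
  have fA1 : ∀ v, v ∈ s.1 → formPerm (p f :: (R ++ L)) v = NA.sc s v := by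
    intro v hv
    rw [sc_mem1 hn0 hv, List.formPerm_eq_of_isRotated hn1 hrot]
  have fB1 : ∀ v, v ∈ s.2 → formPerm (Y ++ [f]) v = NA.sc s v := by
    intro v hv
    rw [sc_mem2 hn0 hv, hY]
  rw [List.mem_append, not_or] at he he'
  refine ⟨R ++ L, Y, hp, hne, hrot, hY, hdis, fA, fB, ?_, ?_, ?_, ?_, ?_, ?_, ?_, ?_, ?_⟩
  · intro v hv h1
    rcases List.mem_cons.mp ((hmA v).mp hv) with h2 | h2
    · exact absurd h2 h1
    · exact h2
  · intro v hv h1
    rw [hY, List.mem_append, List.mem_singleton] at hv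
    exact hv.resolve_right h1
  · intro u v hu huv h1 h2
    exact infA hnA ((hmA u).mp hu) ((fA1 u hu).trans huv) h1 h2
  · intro u v hu huv h1 h2
    exact infB hnB (hY ▸ hu) ((fB1 u hu).trans huv) h1 h2
  · intro u hu huv h1
    exact lastA hnA ((hmA u).mp hu) ((fA1 u hu).trans huv) h1
  · intro u hu huv h1
    exact lastB hnB (hY ▸ hu) ((fB1 u hu).trans huv) h1
  · intro v hv
    rw [sc_mem1 hn0 hv]
    exact List.formPerm_apply_mem_of_mem hv
  · intro v hv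
    rw [sc_mem2 hn0 hv]
    exact List.formPerm_apply_mem_of_mem hv
  · have q1 : ((p f :: (R ++ L)) ++ (Y ++ [f])).Nodup := by
      rw [← hY, List.nodup_append]
      refine ⟨hnA, (List.nodup_append.mp hn0).2.1, ?_⟩
      intro a ha b hb hab
      exact hdis a ((hmA a).mpr ha) (hab ▸ hb)
    have q2 : ((p f :: ((R ++ L) ++ [p e])) ++ (e :: (Y ++ [f]))).Perm (p e :: e :: ((p f :: (R ++ L)) ++ (Y ++ [f]))) := by
      have q3 : (p f :: ((R ++ L) ++ [p e])) ++ (e :: (Y ++ [f])) = (p f :: (R ++ L)) ++ (p e :: e :: (Y ++ [f])) := by simp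
      rw [q3]
      refine List.perm_middle.trans ?_
      exact (List.perm_middle).cons _
    rw [q2.nodup_iff, List.nodup_cons, List.nodup_cons]
    refine ⟨?_, ?_, q1⟩
    · rw [List.mem_cons, not_or, List.mem_append, not_or, ← hY, ← hmA]
      exact ⟨hne e, he'.1, he'.2⟩
    · rw [List.mem_append, not_or, ← hY, ← hmA]
      exact ⟨he.1, he.2⟩

/-- from the special form to all rotations. -/
theorem Env.path {s : St Ω} {f e : Ω} {X Y : List Ω} (E : Env p s f e X Y) (g : Ω → List Ω) {K : ℕ} (ge : g e = [e])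
    (gpe : g (p e) = [p e])
    (main : RTn p K (p f :: (X ++ [p e]), e :: (Y ++ [f])) ((p f :: (X ++ [p e])).flatMap g, (e :: (Y ++ [f])).flatMap g)) :
    RTn p K (s.1 ++ [p e], e :: s.2) (s.1.flatMap g ++ [p e], e :: s.2.flatMap g) := by
  have hY := E.eB
  have hrot := E.rot
  have e0 : p f :: (X ++ [p e]) = (p f :: X) ++ [p e] := by simp
  have e1 : (p f :: (X ++ [p e])).flatMap g = (p f :: X).flatMap g ++ [p e] := by
    rw [e0, List.flatMap_append, List.flatMap_singleton, gpe]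
  have e2 : (e :: (Y ++ [f])).flatMap g = e :: s.2.flatMap g := by
    rw [List.flatMap_cons, ge, hY]; rfl
  rw [e1, e2, ← hY] at main
  have N1 := main.1.left
  have N2 := main.1.right
  have N1' : N p (s.1 ++ [p e], e :: s.2) := by
    rw [e0] at N1
    exact N_rot hrot.symm N1
  have r1 := rotS (p := p) hrot N1'
  have r2 := rotS (p := p) (flat_rot (g := g) hrot).symm N2
  rw [e0] at main
  have := RTn.tr (RTn.tr r1 main) r2
  simpa using this

theorem MvO.fc {s : St Ω} {f t x y e : Ω} {X Y : List Ω} (h : MvO p s f t x y) (E : Env p s f e X Y) : Fc p X Y f e t x y :=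
  ⟨E.hp, E.hne, E.nd, h.tx, h.tx', h.ty, h.ty', h.xy, h.xy', h.tf, h.tf', h.yf, h.yf'⟩

theorem gr_fresh {s : St Ω} {t X2 Y1 Y2 e : Ω} (h1 : t ∈ s.1 ++ s.2) (h2 : X2 ∈ s.1 ++ s.2) (h3 : Y1 ∈ s.1 ++ s.2)
    (h4 : Y2 ∈ s.1 ++ s.2) (he : e ∉ s.1 ++ s.2) : gr t X2 Y1 Y2 e = [e] := by
  have k : ∀ v, v ∈ s.1 ++ s.2 → e ≠ v := fun v hv h => he (h ▸ hv)
  simp [gr, k _ h1, k _ h2, k _ h3, k _ h4]

/-- the colours of the creation moves: `c` mixed, exactly one of `x`, `y` coloured. -/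
inductive ColC (p : Ω → Ω) (s : St Ω) (t x y : Ω) : Prop
  | a1 (d : Ω) (h1 : t ∈ s.1) (h2 : p t ∈ s.2) (h3 : p x ∈ s.2) (h4 : y ∈ s.2) (hd : d ∈ s.1) (hd' : p d ∈ s.1)
  | a2 (z : Ω) (h1 : t ∈ s.1) (h2 : p t ∈ s.2) (h3 : p x ∈ s.1) (h4 : y ∈ s.1) (hz : z ∈ s.2) (hz' : p z ∈ s.2)
  | b1 (d : Ω) (h1 : t ∈ s.2) (h2 : p t ∈ s.1) (h3 : p x ∈ s.1) (h4 : y ∈ s.1) (hd : d ∈ s.2) (hd' : p d ∈ s.2)
  | b2 (z : Ω) (h1 : t ∈ s.2) (h2 : p t ∈ s.1) (h3 : p x ∈ s.2) (h4 : y ∈ s.2) (hz : z ∈ s.1) (hz' : p z ∈ s.1)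

/-- creation in list form. -/
theorem cA1_N {X Y : List Ω} {f e t x y : Ω} (h : Fc p X Y f e t x y) (i1 : [t, x] <:+: X) (i2 : [p y, p t] <:+: Y)
    (m1 : p x ∈ Y) (m2 : y ∈ Y) {d : Ω} (hd : d ∈ X) (hd' : p d ∈ X) :
    RTn p 6 (p f :: (X ++ [p e]), e :: (Y ++ [f])) ((p f :: (X ++ [p e])).flatMap (gr t (p x) y (p y)), (e :: (Y ++ [f])).flatMap (gr t (p x) y (p y))) := by
  obtain ⟨f1, f2, f3, f4, f5, f6, f7, f8, f9, f10, f11⟩ := h.facts
  obtain ⟨hp, hne, nd, tx, tx', ty, ty', xy, xy', tf, tf', yf, yf'⟩ := h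
  have a1 : t ∈ X := i1.subset (by simp)
  have a2 : x ∈ X := i1.subset (by simp)
  have a3 : p y ∈ Y := i2.subset (by simp)
  have a4 : p t ∈ Y := i2.subset (by simp)
  exact rABmk hp hne (d := d) (by
      unfold LD
      simp only [List.pairwise_cons, List.mem_cons, List.not_mem_nil, or_false, forall_eq_or_imp, forall_eq,
        List.Pairwise.nil, and_true, IsEmpty.forall_iff, implies_true]
      repeat' apply And.intro
      all_goals grind) i1 hd hd' i2 m2 m1 nd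

theorem cA2_N {X Y : List Ω} {f e t x y : Ω} (h : Fc p X Y f e t x y) (i1 : [t, x] <:+: X) (i2 : [p y, p t] <:+: Y)
    (m1 : p x ∈ X) (m2 : y ∈ X) {z : Ω} (hz : z ∈ Y) (hz' : p z ∈ Y) :
    RTn p 6 (p f :: (X ++ [p e]), e :: (Y ++ [f])) ((p f :: (X ++ [p e])).flatMap (gr t (p x) y (p y)), (e :: (Y ++ [f])).flatMap (gr t (p x) y (p y))) := by
  obtain ⟨f1, f2, f3, f4, f5, f6, f7, f8, f9, f10, f11⟩ := h.facts
  obtain ⟨hp, hne, nd, tx, tx', ty, ty', xy, xy', tf, tf', yf, yf'⟩ := h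
  have a1 : t ∈ X := i1.subset (by simp)
  have a2 : x ∈ X := i1.subset (by simp)
  have a3 : p y ∈ Y := i2.subset (by simp)
  have a4 : p t ∈ Y := i2.subset (by simp)
  exact rABkm hp hne (z := z) (by
      unfold LD
      simp only [List.pairwise_cons, List.mem_cons, List.not_mem_nil, or_false, forall_eq_or_imp, forall_eq,
        List.Pairwise.nil, and_true, IsEmpty.forall_iff, implies_true]
      repeat' apply And.intro
      all_goals grind) i1 m1 m2 i2 hz hz' nd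

theorem mirFc {X Y : List Ω} {f e t x y : Ω} (h : Fc p X Y f e t x y) (h1 : t ∈ X ∨ t ∈ Y) (h2 : y ∈ X ∨ y ∈ Y) :
    Fc p Y X (p e) (p f) t x y := by
  obtain ⟨f1, f2, f3, f4, f5, f6, f7, f8, f9, f10, f11⟩ := h.facts
  obtain ⟨hp, hne, nd, tx, tx', ty, ty', xy, xy', tf, tf', yf, yf'⟩ := h
  have nd' : ((p (p e) :: (Y ++ [p (p f)])) ++ (p f :: (X ++ [p e]))).Nodup := by
    rw [hp, hp]
    exact (List.perm_append_comm.nodup_iff).1 nd
  refine ⟨hp, hne, nd', tx, tx', ty, ty', xy, xy', ?_, ?_, ?_, ?_⟩ <;> grind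

theorem cB1_N {X Y : List Ω} {f e t x y : Ω} (h : Fc p X Y f e t x y) (i1 : [t, x] <:+: Y) (i2 : [p y, p t] <:+: X)
    (m1 : p x ∈ X) (m2 : y ∈ X) {d : Ω} (hd : d ∈ Y) (hd' : p d ∈ Y) :
    RTn p 6 (p f :: (X ++ [p e]), e :: (Y ++ [f])) ((p f :: (X ++ [p e])).flatMap (gr t (p x) y (p y)), (e :: (Y ++ [f])).flatMap (gr t (p x) y (p y))) := by
  have hF' := mirFc h (Or.inr (i1.subset (by simp))) (Or.inl m2)
  have := cA1_N hF' i1 i2 m1 m2 hd hd'
  rw [h.hp, h.hp] at this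
  exact RTn.mir' this

theorem cB2_N {X Y : List Ω} {f e t x y : Ω} (h : Fc p X Y f e t x y) (i1 : [t, x] <:+: Y) (i2 : [p y, p t] <:+: X)
    (m1 : p x ∈ Y) (m2 : y ∈ Y) {z : Ω} (hz : z ∈ X) (hz' : p z ∈ X) :
    RTn p 6 (p f :: (X ++ [p e]), e :: (Y ++ [f])) ((p f :: (X ++ [p e])).flatMap (gr t (p x) y (p y)), (e :: (Y ++ [f])).flatMap (gr t (p x) y (p y))) := by
  have hF' := mirFc h (Or.inr (i1.subset (by simp))) (Or.inr m2)
  have := cA2_N hF' i1 i2 m1 m2 hz hz'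
  rw [h.hp, h.hp] at this
  exact RTn.mir' this

/-- creation, `x = p f`. -/
theorem cA1_F {X Y : List Ω} {f e t y : Ω} (h : Fc p (X ++ [t]) Y f e t (p f) y) (i2 : [p y, p t] <:+: Y)
    (m2 : y ∈ Y) {d : Ω} (hd : d ∈ X) (hd' : p d ∈ X) :
    RTn p 6 (p f :: (X ++ [t] ++ [p e]), e :: (Y ++ [f])) ((p f :: (X ++ [t] ++ [p e])).flatMap (gr t f y (p y)), (e :: (Y ++ [f])).flatMap (gr t f y (p y))) := by
  obtain ⟨f1, f2, f3, f4, f5, f6, f7, f8, f9, f10, f11⟩ := h.facts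
  obtain ⟨hp, hne, nd, tx, tx', ty, ty', xy, xy', tf, tf', yf, yf'⟩ := h
  have a3 : p y ∈ Y := i2.subset (by simp)
  have a4 : p t ∈ Y := i2.subset (by simp)
  have b1 : ∀ v, v ∈ X → v ∉ Y := fun v hv => f1 v (List.mem_append_left _ hv)
  have b2 : t ∉ Y := f1 t (by simp)
  simp only [List.mem_append, List.mem_cons, List.not_mem_nil, or_false, not_or] at f2 f4 f6 f8
  have e1 : p f :: (X ++ [t] ++ [p e]) = p f :: (X ++ [t, p e]) := by simp
  have tX : t ∉ X := by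
    intro h
    rw [e1] at nd
    simp only [List.cons_append, List.nodup_cons, List.mem_cons, List.mem_append, List.not_mem_nil, or_false, not_or,
      List.nodup_append, List.append_assoc, List.nil_append, List.nodup_nil, ne_eq, forall_eq_or_imp, forall_eq] at nd
    grind
  rw [e1] at nd ⊢
  have := rABmkf hp hne (t := t) (x := p f) (y := y) (d := d) (e := e) (X := X) (Y := Y) (by
      unfold LD
      simp only [List.pairwise_cons, List.mem_cons, List.not_mem_nil, or_false, forall_eq_or_imp, forall_eq,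
        List.Pairwise.nil, and_true, IsEmpty.forall_iff, implies_true]
      repeat' apply And.intro
      all_goals grind) hd hd' i2 m2 (by rw [hp]; exact nd)
  rw [hp] at this
  exact this

/-- creation, `x = f`. -/
theorem cB1_F {X Y : List Ω} {f e t y : Ω} (h : Fc p X (Y ++ [t]) f e t f y) (i2 : [p y, p t] <:+: X)
    (m2 : y ∈ X) {z : Ω} (hz : z ∈ Y) (hz' : p z ∈ Y) :
    RTn p 6 (p f :: (X ++ [p e]), e :: (Y ++ [t] ++ [f])) ((p f :: (X ++ [p e])).flatMap (gr t (p f) y (p y)), (e :: (Y ++ [t] ++ [f])).flatMap (gr t (p f) y (p y))) := by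
  obtain ⟨f1, f2, f3, f4, f5, f6, f7, f8, f9, f10, f11⟩ := h.facts
  obtain ⟨hp, hne, nd, tx, tx', ty, ty', xy, xy', tf, tf', yf, yf'⟩ := h
  have a3 : p y ∈ X := i2.subset (by simp)
  have a4 : p t ∈ X := i2.subset (by simp)
  have b1 : ∀ v, v ∈ X → v ∉ Y := fun v hv hv' => f1 v hv (List.mem_append_left _ hv')
  have b2 : t ∉ X := fun hv => f1 t hv (by simp)
  simp only [List.mem_append, List.mem_cons, List.not_mem_nil, or_false, not_or] at f3 f5 f7 f9
  have e1 : e :: (Y ++ [t] ++ [f]) = e :: (Y ++ [t, f]) := by simp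
  have tY : t ∉ Y := by
    intro h
    rw [e1] at nd
    simp only [List.cons_append, List.nodup_cons, List.mem_cons, List.mem_append, List.not_mem_nil, or_false, not_or,
      List.nodup_append, List.append_assoc, List.nil_append, List.nodup_nil, ne_eq, forall_eq_or_imp, forall_eq] at nd
    grind
  rw [e1] at nd ⊢
  exact rBAmkf hp hne (t := t) (x := f) (y := y) (z := z) (e := e) (X := X) (Y := Y) (by
      unfold LD
      simp only [List.pairwise_cons, List.mem_cons, List.not_mem_nil, or_false, forall_eq_or_imp, forall_eq,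
        List.Pairwise.nil, and_true, IsEmpty.forall_iff, implies_true]
      repeat' apply And.intro
      all_goals grind) i2 m2 hz hz' nd

/-- **creation**: six runs in both directions. -/
theorem RHOC {s : St Ω} {f t x y : Ω} (h : MvO p s f t x y) (hc : ColC p s t x y) :
    RTs p 6 s (s.1.flatMap (gr t (p x) y (p y)), s.2.flatMap (gr t (p x) y (p y))) := by
  intro e he he'
  have px := h.wf.cl _ h.xm
  obtain ⟨X, Y, E⟩ := env_of h.wf h.last h.fA he he'
  have hF := h.fc E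
  refine E.path _ (gr_fresh h.tm px h.ym h.py he) (gr_fresh h.tm px h.ym h.py he') ?_
  have hp := E.hp
  have ypf : p y ≠ p f := fun e' => h.yf (by rw [← hp y, e', hp])
  have ypf' : p y ≠ f := fun e' => h.yf' (by rw [← e', hp])
  have tpf : p t ≠ p f := fun e' => h.tf (by rw [← hp t, e', hp])
  have tpf' : p t ≠ f := fun e' => h.tf' (by rw [← e', hp])
  have redX : ∀ d, d ∈ s.1 → p d ∈ s.1 → d ∈ X ∧ p d ∈ X := by
    intro d h1 h2
    refine ⟨E.inX _ h1 ?_, E.inX _ h2 ?_⟩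
    · rintro rfl; rw [hp] at h2; exact E.dis _ h2 E.fB
    · intro e'
      have : d = f := by rw [← hp d, e', hp]
      rw [this] at h1; exact E.dis _ h1 E.fB
  have bluY : ∀ d, d ∈ s.2 → p d ∈ s.2 → d ∈ Y ∧ p d ∈ Y := by
    intro d h1 h2
    refine ⟨E.inY _ h1 ?_, E.inY _ h2 ?_⟩
    · rintro rfl; exact E.dis _ E.fA h2
    · intro e'
      have : d = p f := by rw [← e', hp]
      rw [this] at h1; exact E.dis _ E.fA h1
  cases hc with
  | a1 d h1 h2 h3 h4 hd hd' =>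
    have pyB : p y ∈ s.2 := by
      rcases List.mem_append.mp h.py with h5 | h5
      · have := E.scA _ h5; rw [h.hy] at this; exact absurd h2 (E.dis _ this)
      · exact h5
    have i2 := E.iB _ _ pyB h.hy ypf' tpf'
    obtain ⟨d1, d2⟩ := redX d hd hd'
    by_cases hxf : x = p f
    · obtain ⟨X', hX'⟩ := E.lA t h1 (h.hx.trans hxf) h.tf'
      subst hxf
      rw [hX'] at hF d1 d2 ⊢
      rw [hp] at ⊢
      rw [List.mem_append, List.mem_singleton] at d1 d2
      have dt : d ≠ t := by rintro rfl; exact E.dis _ hd' h2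
      have dt' : p d ≠ t := by rintro rfl; rw [hp] at h2; exact E.dis _ hd h2
      exact cA1_F hF i2 (E.inY _ h4 h.yf) (d1.resolve_right dt) (d2.resolve_right dt')
    · have xA : x ∈ s.1 := h.hx ▸ E.scA _ h1
      refine cA1_N hF (E.iA _ _ h1 h.hx h.tf' hxf) i2 (E.inY _ h3 ?_) (E.inY _ h4 h.yf) d1 d2
      intro e'; exact hxf (by rw [← e', hp])
  | a2 z h1 h2 h3 h4 hz hz' =>
    have pyB : p y ∈ s.2 := by
      rcases List.mem_append.mp h.py with h5 | h5
      · have := E.scA _ h5; rw [h.hy] at this; exact absurd h2 (E.dis _ this)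
      · exact h5
    have xA : x ∈ s.1 := h.hx ▸ E.scA _ h1
    obtain ⟨q1, q2⟩ := redX x xA h3
    obtain ⟨z1, z2⟩ := bluY z hz hz'
    have hxf : x ≠ p f := by rintro rfl; rw [hp] at h3; exact E.dis _ h3 E.fB
    exact cA2_N hF (E.iA _ _ h1 h.hx h.tf' hxf) (E.iB _ _ pyB h.hy ypf' tpf') q2 (E.inX _ h4 h.yf') z1 z2
  | b1 d h1 h2 h3 h4 hd hd' =>
    have pyA : p y ∈ s.1 := by
      rcases List.mem_append.mp h.py with h5 | h5
      · exact h5
      · have := E.scB _ h5; rw [h.hy] at this; exact absurd this (E.dis _ h2)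
    have i2 := E.iA _ _ pyA h.hy ypf tpf
    obtain ⟨d1, d2⟩ := bluY d hd hd'
    by_cases hxf : x = f
    · obtain ⟨Y', hY'⟩ := E.lB t h1 (h.hx.trans hxf) h.tf
      subst hxf
      rw [hY'] at hF d1 d2 ⊢
      rw [List.mem_append, List.mem_singleton] at d1 d2
      have dt : d ≠ t := by rintro rfl; exact E.dis _ h2 hd'
      have dt' : p d ≠ t := by rintro rfl; rw [hp] at h2; exact E.dis _ h2 hd
      exact cB1_F hF i2 (E.inX _ h4 h.yf') (d1.resolve_right dt) (d2.resolve_right dt')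
    · have xB : x ∈ s.2 := h.hx ▸ E.scB _ h1
      refine cB1_N hF (E.iB _ _ h1 h.hx h.tf hxf) i2 (E.inX _ h3 ?_) (E.inX _ h4 h.yf') d1 d2
      intro e'; exact hxf (by rw [← hp x, e', hp])
  | b2 z h1 h2 h3 h4 hz hz' =>
    have pyA : p y ∈ s.1 := by
      rcases List.mem_append.mp h.py with h5 | h5
      · exact h5
      · have := E.scB _ h5; rw [h.hy] at this; exact absurd this (E.dis _ h2)
    have xB : x ∈ s.2 := h.hx ▸ E.scB _ h1
    obtain ⟨q1, q2⟩ := bluY x xB h3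
    obtain ⟨z1, z2⟩ := redX z hz hz'
    have hxf : x ≠ f := by rintro rfl; exact E.dis _ E.fA h3
    exact cB2_N hF (E.iB _ _ h1 h.hx h.tf hxf) (E.iA _ _ pyA h.hy ypf tpf) q2 (E.inY _ h4 h.yf) z1 z2

/-- **creation**, with the result. -/
theorem RHOC' {s : St Ω} {f t x y : Ω} (h : MvO p s f t x y) (hc : ColC p s t x y) :
    ∃ s', RTs p 6 s s' ∧ Mvd p s f t x y s' := ⟨_, RHOC h hc, mvd_of h⟩

end Pool.Agent.helper32.RH
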