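import Pool.Agent.helper32.RH.RhoTM
import Pool.Agent.helper32.RH.RhoQ

/-!
# MP_c8d30a, exponent 12: the moves with three mixed letters, in functional form
-/

set_option autoImplicit false

namespace Pool.Agent.helper32.RH

open Equiv List NTH

variable {Ω : Type} [DecidableEq Ω] {p : Ω → Ω}

/-- the colours: all three letters mixed. -/
inductive ColM (p : Ω → Ω) (s : St Ω) (t x y : Ω) : Prop
  | a (d z : Ω) (h1 : t ∈ s.1) (h2 : p t ∈ s.2) (h3 : p x ∈ s.2) (h4 : y ∈ s.1) (hd : d ∈ s.1) (hd' : p d ∈ s.1)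
      (hz : z ∈ s.2) (hz' : p z ∈ s.2)
  | b (d z : Ω) (h1 : t ∈ s.2) (h2 : p t ∈ s.1) (h3 : p x ∈ s.1) (h4 : y ∈ s.2) (hd : d ∈ s.1) (hd' : p d ∈ s.1)
      (hz : z ∈ s.2) (hz' : p z ∈ s.2)

theorem mA_N {X Y : List Ω} {f e t x y : Ω} (h : Fc p X Y f e t x y) (i1 : [t, x] <:+: X) (i2 : [p y, p t] <:+: Y)
    (m1 : p x ∈ Y) (m2 : y ∈ X) {d z : Ω} (hd : d ∈ X) (hd' : p d ∈ X) (hz : z ∈ Y) (hz' : p z ∈ Y) :
    RTn p 6 (p f :: (X ++ [p e]), e :: (Y ++ [f])) ((p f :: (X ++ [p e])).flatMap (gr t (p x) y (p y)), (e :: (Y ++ [f])).flatMap (gr t (p x) y (p y))) := by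
  obtain ⟨f1, f2, f3, f4, f5, f6, f7, f8, f9, f10, f11⟩ := h.facts
  obtain ⟨hp, hne, nd, tx, tx', ty, ty', xy, xy', tf, tf', yf, yf'⟩ := h
  have a1 : t ∈ X := i1.subset (by simp)
  have a2 : x ∈ X := i1.subset (by simp)
  have a3 : p y ∈ Y := i2.subset (by simp)
  have a4 : p t ∈ Y := i2.subset (by simp)
  exact rABmm hp hne (d := d) (z := z) (by
      unfold LD
      simp only [List.pairwise_cons, List.mem_cons, List.not_mem_nil, or_false, forall_eq_or_imp, forall_eq,
        List.Pairwise.nil, and_true, IsEmpty.forall_iff, implies_true]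
      repeat' apply And.intro
      all_goals grind) i1 m2 hd hd' i2 m1 hz hz' nd

theorem mB_N {X Y : List Ω} {f e t x y : Ω} (h : Fc p X Y f e t x y) (i1 : [t, x] <:+: Y) (i2 : [p y, p t] <:+: X)
    (m1 : p x ∈ X) (m2 : y ∈ Y) {d z : Ω} (hd : d ∈ X) (hd' : p d ∈ X) (hz : z ∈ Y) (hz' : p z ∈ Y) :
    RTn p 6 (p f :: (X ++ [p e]), e :: (Y ++ [f])) ((p f :: (X ++ [p e])).flatMap (gr t (p x) y (p y)), (e :: (Y ++ [f])).flatMap (gr t (p x) y (p y))) := by
  have hF' := mirFc h (Or.inr (i1.subset (by simp))) (Or.inr m2)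
  have := mA_N hF' i1 i2 m1 m2 hz hz' hd hd'
  rw [h.hp, h.hp] at this
  exact RTn.mir' this

theorem mA_F {X Y : List Ω} {f e t y : Ω} (h : Fc p (X ++ [t]) Y f e t (p f) y) (i2 : [p y, p t] <:+: Y)
    (m2 : y ∈ X) {d z : Ω} (hd : d ∈ X) (hd' : p d ∈ X) (hz : z ∈ Y) (hz' : p z ∈ Y) :
    RTn p 6 (p f :: (X ++ [t] ++ [p e]), e :: (Y ++ [f])) ((p f :: (X ++ [t] ++ [p e])).flatMap (gr t f y (p y)), (e :: (Y ++ [f])).flatMap (gr t f y (p y))) := by
  obtain ⟨f1, f2, f3, f4, f5, f6, f7, f8, f9, f10, f11⟩ := h.facts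
  obtain ⟨hp, hne, nd, tx, tx', ty, ty', xy, xy', tf, tf', yf, yf'⟩ := h
  have a3 : p y ∈ Y := i2.subset (by simp)
  have a4 : p t ∈ Y := i2.subset (by simp)
  have b1 : ∀ v, v ∈ X → v ∉ Y := fun v hv => f1 v (List.mem_append_left _ hv)
  have b2 : t ∉ Y := f1 t (by simp)
  simp only [List.mem_append, List.mem_cons, List.not_mem_nil, or_false, not_or] at f2 f4 f6 f8
  have e1 : p f :: (X ++ [t] ++ [p e]) = p f :: (X ++ [t, p e]) := by simp
  have tX : t ∉ X := by
    intro h
    rw [e1] at nd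
    simp only [List.cons_append, List.nodup_cons, List.mem_cons, List.mem_append, List.not_mem_nil, or_false, not_or,
      List.nodup_append, List.append_assoc, List.nil_append, List.nodup_nil, ne_eq, forall_eq_or_imp, forall_eq] at nd
    grind
  rw [e1] at nd ⊢
  have := rABmmf hp hne (t := t) (x := p f) (y := y) (d := d) (z := z) (e := e) (X := X) (Y := Y) (by
      unfold LD
      simp only [List.pairwise_cons, List.mem_cons, List.not_mem_nil, or_false, forall_eq_or_imp, forall_eq,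
        List.Pairwise.nil, and_true, IsEmpty.forall_iff, implies_true]
      repeat' apply And.intro
      all_goals grind) m2 hd hd' i2 hz hz' (by rw [hp]; exact nd)
  rw [hp] at this
  exact this

theorem mB_F {X Y : List Ω} {f e t y : Ω} (h : Fc p X (Y ++ [t]) f e t f y) (i2 : [p y, p t] <:+: X)
    (m2 : y ∈ Y) {d z : Ω} (hd : d ∈ X) (hd' : p d ∈ X) (hz : z ∈ Y) (hz' : p z ∈ Y) :
    RTn p 6 (p f :: (X ++ [p e]), e :: (Y ++ [t] ++ [f])) ((p f :: (X ++ [p e])).flatMap (gr t (p f) y (p y)), (e :: (Y ++ [t] ++ [f])).flatMap (gr t (p f) y (p y))) := by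
  obtain ⟨f1, f2, f3, f4, f5, f6, f7, f8, f9, f10, f11⟩ := h.facts
  obtain ⟨hp, hne, nd, tx, tx', ty, ty', xy, xy', tf, tf', yf, yf'⟩ := h
  have a3 : p y ∈ X := i2.subset (by simp)
  have a4 : p t ∈ X := i2.subset (by simp)
  have b1 : ∀ v, v ∈ X → v ∉ Y := fun v hv hv' => f1 v hv (List.mem_append_left _ hv')
  have b2 : t ∉ X := fun hv => f1 t hv (by simp)
  simp only [List.mem_append, List.mem_cons, List.not_mem_nil, or_false, not_or] at f3 f5 f7 f9
  have e1 : e :: (Y ++ [t] ++ [f]) = e :: (Y ++ [t, f]) := by simp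
  have tY : t ∉ Y := by
    intro h
    rw [e1] at nd
    simp only [List.cons_append, List.nodup_cons, List.mem_cons, List.mem_append, List.not_mem_nil, or_false, not_or,
      List.nodup_append, List.append_assoc, List.nil_append, List.nodup_nil, ne_eq, forall_eq_or_imp, forall_eq] at nd
    grind
  rw [e1] at nd ⊢
  exact rBAmmf hp hne (t := t) (x := f) (y := y) (d := d) (z := z) (e := e) (X := X) (Y := Y) (by
      unfold LD
      simp only [List.pairwise_cons, List.mem_cons, List.not_mem_nil, or_false, forall_eq_or_imp, forall_eq,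
        List.Pairwise.nil, and_true, IsEmpty.forall_iff, implies_true]
      repeat' apply And.intro
      all_goals grind) i2 hd hd' m2 hz hz' nd

/-- **the move with three mixed letters**. -/
theorem RHOM {s : St Ω} {f t x y : Ω} (h : MvO p s f t x y) (hc : ColM p s t x y) :
    RTs p 6 s (s.1.flatMap (gr t (p x) y (p y)), s.2.flatMap (gr t (p x) y (p y))) := by
  intro e he he'
  have px := h.wf.cl _ h.xm
  obtain ⟨X, Y, E⟩ := env_of h.wf h.last h.fA he he'
  have hF := h.fc E
  refine E.path _ (gr_fresh h.tm px h.ym h.py he) (gr_fresh h.tm px h.ym h.py he') ?_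
  have hp := E.hp
  have ypf : p y ≠ p f := fun e' => h.yf (by rw [← hp y, e', hp])
  have ypf' : p y ≠ f := fun e' => h.yf' (by rw [← e', hp])
  have tpf : p t ≠ p f := fun e' => h.tf (by rw [← hp t, e', hp])
  have tpf' : p t ≠ f := fun e' => h.tf' (by rw [← e', hp])
  have redX : ∀ d, d ∈ s.1 → p d ∈ s.1 → d ∈ X ∧ p d ∈ X := by
    intro d h1 h2
    refine ⟨E.inX _ h1 ?_, E.inX _ h2 ?_⟩
    · rintro rfl; rw [hp] at h2; exact E.dis _ h2 E.fB
    · intro e'
      have : d = f := by rw [← hp d, e', hp]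
      rw [this] at h1; exact E.dis _ h1 E.fB
  have bluY : ∀ d, d ∈ s.2 → p d ∈ s.2 → d ∈ Y ∧ p d ∈ Y := by
    intro d h1 h2
    refine ⟨E.inY _ h1 ?_, E.inY _ h2 ?_⟩
    · rintro rfl; exact E.dis _ E.fA h2
    · intro e'
      have : d = p f := by rw [← e', hp]
      rw [this] at h1; exact E.dis _ E.fA h1
  cases hc with
  | a d z h1 h2 h3 h4 hd hd' hz hz' =>
    have pyB : p y ∈ s.2 := by
      rcases List.mem_append.mp h.py with h5 | h5
      · have := E.scA _ h5; rw [h.hy] at this; exact absurd h2 (E.dis _ this)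
      · exact h5
    have i2 := E.iB _ _ pyB h.hy ypf' tpf'
    obtain ⟨d1, d2⟩ := redX d hd hd'
    obtain ⟨z1, z2⟩ := bluY z hz hz'
    have yX := E.inX _ h4 h.yf'
    by_cases hxf : x = p f
    · obtain ⟨X', hX'⟩ := E.lA t h1 (h.hx.trans hxf) h.tf'
      subst hxf
      rw [hX'] at hF d1 d2 yX ⊢
      rw [hp] at ⊢
      rw [List.mem_append, List.mem_singleton] at d1 d2 yX
      have dt : d ≠ t := by rintro rfl; exact E.dis _ hd' h2
      have dt' : p d ≠ t := by rintro rfl; rw [hp] at h2; exact E.dis _ hd h2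
      exact mA_F hF i2 (yX.resolve_right h.ty.symm) (d1.resolve_right dt) (d2.resolve_right dt') z1 z2
    · refine mA_N hF (E.iA _ _ h1 h.hx h.tf' hxf) i2 (E.inY _ h3 ?_) yX d1 d2 z1 z2
      intro e'; exact hxf (by rw [← e', hp])
  | b d z h1 h2 h3 h4 hd hd' hz hz' =>
    have pyA : p y ∈ s.1 := by
      rcases List.mem_append.mp h.py with h5 | h5
      · exact h5
      · have := E.scB _ h5; rw [h.hy] at this; exact absurd this (E.dis _ h2)
    have i2 := E.iA _ _ pyA h.hy ypf tpf
    obtain ⟨d1, d2⟩ := redX d hd hd'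
    obtain ⟨z1, z2⟩ := bluY z hz hz'
    have yY := E.inY _ h4 h.yf
    by_cases hxf : x = f
    · obtain ⟨Y', hY'⟩ := E.lB t h1 (h.hx.trans hxf) h.tf
      subst hxf
      rw [hY'] at hF z1 z2 yY ⊢
      rw [List.mem_append, List.mem_singleton] at z1 z2 yY
      have dt : z ≠ t := by rintro rfl; exact E.dis _ h2 hz'
      have dt' : p z ≠ t := by rintro rfl; rw [hp] at h2; exact E.dis _ h2 hz
      exact mB_F hF i2 (yY.resolve_right h.ty.symm) d1 d2 (z1.resolve_right dt) (z2.resolve_right dt')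
    · refine mB_N hF (E.iB _ _ h1 h.hx h.tf hxf) i2 (E.inX _ h3 ?_) yY d1 d2 z1 z2
      intro e'; exact hxf (by rw [← hp x, e', hp])

/-- **the move with three mixed letters**, with the result; no token changes its side. -/
theorem RHOM' {s : St Ω} {f t x y : Ω} (h : MvO p s f t x y) (hc : ColM p s t x y) :
    ∃ s', RTs p 6 s s' ∧ Mvd p s f t x y s' ∧ (∀ v, v ∈ s'.1 ↔ v ∈ s.1) ∧ (∀ v, v ∈ s'.2 ↔ v ∈ s.2) := by
  have h' := mvd_of h
  have n0 := h.wf.nd
  have dis : ∀ v, v ∈ s.1 → v ∉ s.2 := fun v hv hv' => fix_of_disj n0 hv' hv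
  have scA : ∀ v, v ∈ s.1 → NA.sc s v ∈ s.1 := by
    intro v hv; rw [sc_mem1 n0 hv]; exact List.formPerm_apply_mem_of_mem hv
  have scB : ∀ v, v ∈ s.2 → NA.sc s v ∈ s.2 := by
    intro v hv; rw [sc_mem2 n0 hv]; exact List.formPerm_apply_mem_of_mem hv
  refine ⟨_, RHOM h hc, h', ?_, ?_⟩
  · intro v
    rw [h'.m1]
    cases hc with
    | a d z h1 h2 h3 h4 hd hd' hz hz' =>
      have pyB : p y ∈ s.2 := by
        rcases List.mem_append.mp h.py with h5 | h5
        · have := scA _ h5; rw [h.hy] at this; exact absurd h2 (dis _ this)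
        · exact h5
      by_cases e1 : v = t
      · subst e1; simp [h1, h4]
      by_cases e2 : v = p y
      · subst e2
        have b1 : p y ∉ s.1 := fun h' => dis _ h' pyB
        have b2 : p x ∉ s.1 := fun h' => dis _ h' h3
        simp [b1, b2, e1]
      · simp [e1, e2]
    | b d z h1 h2 h3 h4 hd hd' hz hz' =>
      have pyA : p y ∈ s.1 := by
        rcases List.mem_append.mp h.py with h5 | h5
        · exact h5
        · have := scB _ h5; rw [h.hy] at this; exact absurd this (dis _ h2)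
      by_cases e1 : v = t
      · subst e1
        have b1 : v ∉ s.1 := fun h' => dis _ h' h1
        have b2 : y ∉ s.1 := fun h' => dis _ h' h4
        simp [b1, b2, h.ty']
      by_cases e2 : v = p y
      · subst e2; simp [pyA, h3]
      · simp [e1, e2]
  · intro v
    rw [h'.m2]
    cases hc with
    | a d z h1 h2 h3 h4 hd hd' hz hz' =>
      have pyB : p y ∈ s.2 := by
        rcases List.mem_append.mp h.py with h5 | h5
        · have := scA _ h5; rw [h.hy] at this; exact absurd h2 (dis _ this)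
        · exact h5
      by_cases e1 : v = t
      · subst e1
        have b1 : v ∉ s.2 := dis _ h1
        have b2 : y ∉ s.2 := dis _ h4
        simp [b1, b2, h.ty']
      by_cases e2 : v = p y
      · subst e2; simp [pyB, h3]
      · simp [e1, e2]
    | b d z h1 h2 h3 h4 hd hd' hz hz' =>
      have pyA : p y ∈ s.1 := by
        rcases List.mem_append.mp h.py with h5 | h5
        · exact h5
        · have := scB _ h5; rw [h.hy] at this; exact absurd this (dis _ h2)
      by_cases e1 : v = t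
      · subst e1; simp [h1, h4]
      by_cases e2 : v = p y
      · subst e2
        have b1 : p y ∉ s.2 := dis _ pyA
        have b2 : p x ∉ s.2 := dis _ h3
        simp [b1, b2, e1]
      · simp [e1, e2]

end Pool.Agent.helper32.RH
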