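import Pool.Agent.helper55.NT.Tok
import Pool.Agent.helper14.NTN.Defs

/-!
# MP_c8d30a, exponent 12: symbolic paths in the run model

`NTok.run ms S = some (S', c)` (helper55's symbolic machine, tokens and blocks) gives a path of at
most `c` runs between the meanings of `S` and `S'`.
-/

set_option autoImplicit false

namespace Pool.Agent.helper32.RH

open NTH NTok

universe u
variable {Ω : Type u} {p : Ω → Ω}

theorem SN_N (τ : ℕ → Bool → Ω) (σ : ℕ → List Ω) (hτ : ∀ i c, p (τ i c) = τ i (!c)) (S : SSt)
    (h : SN S = true) : N p (semS τ σ S) := SN_sound τ σ hτ S h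

theorem sL_rn (τ : ℕ → Bool → Ω) (σ : ℕ → List Ω) (hτ : ∀ i c, p (τ i c) = τ i (!c)) (S S' : SSt)
    (c : ℕ) (h : sL S = some (S', c)) (h1 : SN S = true) (h2 : SN S' = true) :
    Rn p (N p) c (semS τ σ S) (semS τ σ S') := by
  obtain ⟨U, V⟩ := S
  cases U with
  | nil => simp [sL] at h
  | cons u U =>
    cases V with
    | nil => cases u <;> simp [sL] at h
    | cons s V =>
      cases u with
      | bk j => simp [sL] at h
      | tk i d =>
        simp only [sL] at h
        cases h3 : splitAt (.tk i (!d)) U with
        | some r =>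
          obtain ⟨A, B⟩ := r
          rw [h3] at h
          simp only [Option.some.injEq, Prod.mk.injEq] at h
          obtain ⟨rfl, rfl⟩ := h
          have h4 := splitAt_spec _ _ _ _ h3
          subst h4
          have hN2 := SN_N τ σ hτ _ h2
          have h5 := Rn.blockL (p := p) (τ i d) (sem τ σ A) (sem τ σ B) (sem1 τ σ s) (sem τ σ V) hN2.2
          have h6 : semS τ σ (Sy.tk i d :: (A ++ Sy.tk i (!d) :: B), s :: V) =
              (τ i d :: (sem τ σ A ++ p (τ i d) :: sem τ σ B), sem1 τ σ s ++ sem τ σ V) := by
            simp only [semS, sem_cons, sem_append, sem1, hτ]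
            simp
          have h7 : semS τ σ (Sy.tk i d :: (A ++ s :: Sy.tk i (!d) :: B), V) =
              (τ i d :: (sem τ σ A ++ (sem1 τ σ s ++ p (τ i d) :: sem τ σ B)), sem τ σ V) := by
            simp only [semS, sem_cons, sem_append, hτ]
            simp [sem1]
          rw [h6, h7]
          exact h5
        | none =>
          rw [h3] at h
          simp only at h
          cases h4 : splitAt (.tk i (!d)) V with
          | none => rw [h4] at h; simp at h
          | some r =>
            obtain ⟨A, B⟩ := r
            rw [h4] at h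
            simp only [Option.some.injEq, Prod.mk.injEq] at h
            obtain ⟨rfl, rfl⟩ := h
            have h5 := splitAt_spec _ _ _ _ h4
            subst h5
            have h6 : semS τ σ (Sy.tk i d :: U, s :: (A ++ Sy.tk i (!d) :: B)) =
                (τ i d :: sem τ σ U, sem1 τ σ s ++ (sem τ σ A ++ p (τ i d) :: sem τ σ B)) := by
              simp only [semS, sem_cons, sem_append, hτ]
              simp [sem1]
            have h7 : semS τ σ (Sy.tk i d :: U, A ++ s :: Sy.tk i (!d) :: B) =
                (τ i d :: sem τ σ U, sem τ σ A ++ (sem1 τ σ s ++ p (τ i d) :: sem τ σ B)) := by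
              simp only [semS, sem_cons, sem_append, hτ]
              simp [sem1]
            have hN := SN_N τ σ hτ _ h1
            rw [h6] at hN
            rw [h6, h7]
            exact (rotL (p := p) (τ i d) (sem1 τ σ s) (sem τ σ A) (sem τ σ B) (sem τ σ U) hN).toRn

theorem sR_rn (τ : ℕ → Bool → Ω) (σ : ℕ → List Ω) (hτ : ∀ i c, p (τ i c) = τ i (!c)) (S S' : SSt)
    (c : ℕ) (h : sR S = some (S', c)) (h1 : SN S = true) (h2 : SN S' = true) :
    Rn p (N p) c (semS τ σ S) (semS τ σ S') := by
  unfold sR at h
  simp only [Option.map_eq_some_iff, Prod.mk.injEq, Prod.exists] at h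
  obtain ⟨A, B, k, h3, rfl, rfl⟩ := h
  have h4 : SN (S.2, S.1) = true := by
    unfold SN at h1 ⊢
    rw [Bool.and_comm]
    exact h1
  have h5 : SN (A, B) = true := by
    unfold SN at h2 ⊢
    rw [Bool.and_comm]
    exact h2
  exact (sL_rn τ σ hτ _ _ _ h3 h4 h5).mir

theorem run_rn (τ : ℕ → Bool → Ω) (σ : ℕ → List Ω) (hτ : ∀ i c, p (τ i c) = τ i (!c))
    (ms : List Bool) (S S' : SSt) (c : ℕ) (h : run ms S = some (S', c)) :
    Rn p (N p) c (semS τ σ S) (semS τ σ S') := by
  induction ms generalizing S c with
  | nil =>
    unfold run at h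
    split_ifs at h with h1
    simp only [Option.some.injEq, Prod.mk.injEq] at h
    obtain ⟨rfl, rfl⟩ := h
    exact Rn.refl _ _ (SN_N τ σ hτ _ h1)
  | cons b ms ih =>
    unfold run at h
    split_ifs at h with h1 h2
    · cases h3 : sL S with
      | none => simp [h3] at h
      | some r =>
        obtain ⟨S1, c1⟩ := r
        rw [h3] at h
        obtain ⟨⟨S2, k⟩, h4, h7⟩ := Option.map_eq_some_iff.mp h
        simp only [Prod.mk.injEq] at h7
        obtain ⟨rfl, rfl⟩ := h7
        have h5 := ih S1 k h4
        have h6 : SN S1 = true := by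
          cases ms with
          | nil => unfold run at h4; split_ifs at h4 with h7; exact h7
          | cons b' ms' => unfold run at h4; by_contra h7; simp [h7] at h4
        exact (sL_rn τ σ hτ _ _ _ h3 h1 h6).trans h5
    · cases h3 : sR S with
      | none => simp [h3] at h
      | some r =>
        obtain ⟨S1, c1⟩ := r
        rw [h3] at h
        obtain ⟨⟨S2, k⟩, h4, h7⟩ := Option.map_eq_some_iff.mp h
        simp only [Prod.mk.injEq] at h7
        obtain ⟨rfl, rfl⟩ := h7
        have h5 := ih S1 k h4
        have h6 : SN S1 = true := by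
          cases ms with
          | nil => unfold run at h4; split_ifs at h4 with h7; exact h7
          | cons b' ms' => unfold run at h4; by_contra h7; simp [h7] at h4
        exact (sR_rn τ σ hτ _ _ _ h3 h1 h6).trans h5

end Pool.Agent.helper32.RH
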