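import Pool.Agent.helper32.RH.RhoQ
import Pool.Agent.helper55.NA.Br

/-!
# MP_c8d30a, exponent 12: lifting of round trips of substates

`fil q s` = the substate of the kept letters (`q t = true`).
-/

set_option autoImplicit false

namespace Pool.Agent.helper32.RH

open Equiv List NTH

variable {Ω : Type} [DecidableEq Ω] {p : Ω → Ω}

/-- a word is a prefix of deleted tokens and the kept tokens with their cargo. -/
theorem cargo_split (q : Ω → Bool) : ∀ W : List Ω, W.Nodup → ∃ (pre : List Ω) (k : Ω → List Ω),
    W = pre ++ cw k (W.filter q) ∧ (∀ z ∈ pre, q z = false) ∧ (∀ t, ∀ z ∈ k t, q z = false) ∧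
    (∀ f, W.getLast? = some f → q f = true → k f = []) := by
  intro W
  induction W with
  | nil => intro _; exact ⟨[], fun _ => [], rfl, by simp, by simp, by simp⟩
  | cons t W ih =>
    intro hn
    obtain ⟨hn1, hn2⟩ := List.nodup_cons.mp hn
    obtain ⟨pre, k, h1, h2, h3, h4⟩ := ih hn2
    have hlast : ∀ f, (t :: W).getLast? = some f → W ≠ [] → W.getLast? = some f := by
      intro f hf hW
      obtain ⟨a, W', rfl⟩ := List.exists_cons_of_ne_nil hW
      simpa [List.getLast?_cons_cons] using hf
    by_cases hq : q t = true
    · refine ⟨[], fun v => if v = t then pre else k v, ?_, by simp, ?_, ?_⟩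
      · rw [List.filter_cons_of_pos hq, List.nil_append, cw_cons, if_pos rfl]
        congr 1
        have : cw (fun v => if v = t then pre else k v) (W.filter q) = cw k (W.filter q) := by
          unfold cw
          apply List.flatMap_congr
          intro v hv
          have : v ≠ t := by rintro rfl; exact hn1 (List.mem_filter.mp hv).1
          simp [this]
        rw [this]
        exact h1
      · intro v z hz
        by_cases hv : v = t
        · simp only [hv, if_true] at hz; exact h2 z hz
        · simp only [hv, if_false] at hz; exact h3 v z hz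
      · intro f hf hqf
        by_cases hW : W = []
        · subst hW
          simp only [List.getLast?_singleton, Option.some.injEq] at hf
          subst hf
          simp only [if_true]
          have h5 : pre = [] := by
            have := h1
            simp only [List.filter_nil] at this
            have e : cw k ([] : List Ω) = [] := rfl
            rw [e, List.append_nil] at this
            exact this.symm
          exact h5
        · have hf' := hlast f hf hW
          have hft : f ≠ t := by
            rintro rfl
            exact hn1 (List.mem_of_getLast? hf')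
          simp only [hft, if_false]
          exact h4 f hf' hqf
    · rw [Bool.not_eq_true] at hq
      refine ⟨t :: pre, k, ?_, ?_, h3, ?_⟩
      · rw [List.filter_cons_of_neg (by simp [hq]), List.cons_append, ← h1]
      · intro z hz
        rcases List.mem_cons.mp hz with rfl | hz
        · exact hq
        · exact h2 z hz
      · intro f hf hqf
        by_cases hW : W = []
        · subst hW
          simp only [List.getLast?_singleton, Option.some.injEq] at hf
          subst hf
          rw [hq] at hqf
          exact absurd hqf (by simp)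
        · exact h4 f (hlast f hf hW) hqf

theorem cw_filter {q : Ω → Bool} {k : Ω → List Ω} (hk : ∀ t, ∀ z ∈ k t, q z = false) {W : List Ω} (hW : ∀ t ∈ W, q t = true) :
    (cw k W).filter q = W := by
  induction W with
  | nil => rfl
  | cons t W ih =>
    rw [cw_cons, List.filter_cons_of_pos (hW t List.mem_cons_self), List.filter_append, ih (fun t ht => hW t (List.mem_cons_of_mem _ ht))]
    have : (k t).filter q = [] := by
      rw [List.filter_eq_nil_iff]
      intro z hz
      rw [hk t z hz]
      simp
    rw [this, List.nil_append]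

theorem cw_perm {k : Ω → List Ω} {V W : List Ω} (h : V.Perm W) : (cw k V).Perm (cw k W) := h.flatMap_right _

theorem cw_congr {k k' : Ω → List Ω} {W : List Ω} (h : ∀ t ∈ W, k t = k' t) : cw k W = cw k' W := by
  unfold cw
  apply List.flatMap_congr
  intro t ht
  rw [h t ht]

theorem cw_last {k : Ω → List Ω} {f : Ω} {W : List Ω} (h : W.getLast? = some f) (hf : k f = []) (pre : List Ω) :
    (pre ++ cw k W).getLast? = some f := by
  obtain ⟨Y, hY⟩ := List.getLast?_eq_some_iff.mp h
  rw [hY, cw_append, cw_cons, hf]
  simp [cw]

/-- **lifting**. -/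
theorem lift_fil {q : Ω → Bool} {K : ℕ} {s u : St Ω} (hw : WF p s) (hk : ∃ t ∈ s.1, q t = true)
    (h : RTs p K (NA.fil q s) u) (hu : (u.1 ++ u.2).Perm ((NA.fil q s).1 ++ (NA.fil q s).2)) :
    ∃ s', RTs p K s s' ∧ NA.fil q s' = u ∧ (s'.1 ++ s'.2).Perm (s.1 ++ s.2) ∧
      (∀ f, s.2.getLast? = some f → u.2.getLast? = some f → s'.2.getLast? = some f) := by
  classical
  obtain ⟨t0, ht0, hqt0⟩ := hk
  obtain ⟨L, R, hLR⟩ := List.append_of_mem ht0
  set A1 := t0 :: (R ++ L) with hA1
  have hrot : s.1 ~r A1 := by
    rw [hLR]
    simpa using List.isRotated_append (l := L) (l' := t0 :: R)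
  have hn0 := hw.nd
  have hnA : A1.Nodup := hrot.nodup_iff.mp (List.nodup_append.mp hn0).1
  have hnB : s.2.Nodup := (List.nodup_append.mp hn0).2.1
  have hdis : ∀ v, v ∈ s.1 → v ∉ s.2 := fun v hv hv' => fix_of_disj hn0 hv' hv
  obtain ⟨preA, kA, a1, a2, a3, a4⟩ := cargo_split q A1 hnA
  obtain ⟨preB, kB, b1, b2, b3, b4⟩ := cargo_split q s.2 hnB
  have hpreA : preA = [] := by
    cases preA with
    | nil => rfl
    | cons z pre =>
      exfalso
      have h1 := a1
      rw [hA1, List.cons_append, List.cons.injEq] at h1
      have h2 := a2 z List.mem_cons_self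
      rw [← h1.1, hqt0] at h2
      exact absurd h2 (by simp)
  subst hpreA
  rw [List.nil_append] at a1
  -- the common cargo
  let k : Ω → List Ω := fun v => if v ∈ s.1 then kA v else kB v
  have kq : ∀ t, ∀ z ∈ k t, q z = false := by
    intro t z hz
    simp only [k] at hz
    split_ifs at hz
    · exact a3 t z hz
    · exact b3 t z hz
  have eA : A1 = cw k (A1.filter q) := by
    have : cw k (A1.filter q) = cw kA (A1.filter q) := cw_congr (fun t ht => by
      have : t ∈ s.1 := hrot.mem_iff.mpr (List.mem_filter.mp ht).1
      simp [k, this])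
    rw [this]; exact a1
  have eB : s.2 = preB ++ cw k (s.2.filter q) := by
    have : cw k (s.2.filter q) = cw kB (s.2.filter q) := cw_congr (fun t ht => by
      have : t ∉ s.1 := fun h' => hdis _ h' (List.mem_filter.mp ht).1
      simp [k, this])
    rw [this]; exact b1
  have huq : ∀ v, v ∈ u.1 ++ u.2 → q v = true ∧ v ∈ s.1 ++ s.2 := by
    intro v hv
    have := hu.mem_iff.mp hv
    simp only [NA.fil, List.mem_append, List.mem_filter] at this ⊢
    rcases this with h1 | h1
    · exact ⟨h1.2, Or.inl h1.1⟩
    · exact ⟨h1.2, Or.inr h1.1⟩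
  have frot : (A1.filter q) ~r (NA.fil q s).1 := by
    obtain ⟨L', R', e1, e2⟩ := rot_split hrot.symm
    rw [e1]
    show _ ~r s.1.filter q
    rw [e2, List.filter_append, List.filter_append]
    exact List.isRotated_append
  refine ⟨(cw k u.1, preB ++ cw k u.2), ?_, ?_, ?_, ?_⟩
  · intro e he he'
    have hfe : e ∉ (NA.fil q s).1 ++ (NA.fil q s).2 := by
      intro h1
      simp only [NA.fil, List.mem_append, List.mem_filter] at h1
      apply he
      rw [List.mem_append]
      rcases h1 with h1 | h1
      · exact Or.inl h1.1
      · exact Or.inr h1.1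
    have hfe' : p e ∉ (NA.fil q s).1 ++ (NA.fil q s).2 := by
      intro h1
      simp only [NA.fil, List.mem_append, List.mem_filter] at h1
      apply he'
      rw [List.mem_append]
      rcases h1 with h1 | h1
      · exact Or.inl h1.1
      · exact Or.inr h1.1
    have hpath := h e hfe hfe'
    -- rotate the substate
    have Nf := hpath.1.left
    have r0 := rotS (p := p) frot.symm Nf
    have r1 : RTn p K (A1.filter q ++ [p e], e :: (NA.fil q s).2) (u.1 ++ [p e], e :: u.2) := by
      have := RTn.tr (⟨r0.2, r0.1⟩ : RTn p 0 _ _) hpath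
      simpa using this
    let k' : Ω → List Ω := fun v => if v = e then preB else if v = p e then [] else k v
    have hee : p e ≠ e := hw.ne e
    have r2 := lift_RTn k' r1
    have ne1 : ∀ v, v ∈ s.1 ++ s.2 → v ≠ e ∧ v ≠ p e := fun v hv => ⟨fun h' => he (h' ▸ hv), fun h' => he' (h' ▸ hv)⟩
    have c1 : ∀ V : List Ω, (∀ v ∈ V, v ∈ s.1 ++ s.2) → cw k' V = cw k V := by
      intro V hV
      apply cw_congr
      intro t ht
      obtain ⟨h1, h2⟩ := ne1 t (hV t ht)
      simp [k', h1, h2]
    have c2 : ∀ V : List Ω, (∀ v ∈ V, v ∈ s.1 ++ s.2) → cw k' (V ++ [p e]) = cw k V ++ [p e] := by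
      intro V hV
      rw [cw_append, c1 V hV]
      congr 1
      simp [cw, k', hee]
    have c3 : ∀ V : List Ω, (∀ v ∈ V, v ∈ s.1 ++ s.2) → cw k' (e :: V) = e :: (preB ++ cw k V) := by
      intro V hV
      rw [cw_cons, c1 V hV]
      simp [k']
    have mA : ∀ v ∈ A1.filter q, v ∈ s.1 ++ s.2 := fun v hv =>
      List.mem_append_left _ (hrot.mem_iff.mpr (List.mem_filter.mp hv).1)
    have mB : ∀ v ∈ (NA.fil q s).2, v ∈ s.1 ++ s.2 := fun v hv => List.mem_append_right _ (List.mem_filter.mp hv).1
    have mU1 : ∀ v ∈ u.1, v ∈ s.1 ++ s.2 := fun v hv => (huq v (List.mem_append_left _ hv)).2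
    have mU2 : ∀ v ∈ u.2, v ∈ s.1 ++ s.2 := fun v hv => (huq v (List.mem_append_right _ hv)).2
    simp only [cs] at r2
    rw [c2 _ mA, c3 _ mB, c2 _ mU1, c3 _ mU2, ← eA] at r2
    have e3 : preB ++ cw k (NA.fil q s).2 = s.2 := eB.symm
    rw [e3] at r2
    have r3 := rotS (p := p) hrot.symm r2.1.left
    have := RTn.tr (⟨r3.2, r3.1⟩ : RTn p 0 _ _) r2
    simpa using this
  · have m1 : ∀ t ∈ u.1, q t = true := fun t ht => (huq t (List.mem_append_left _ ht)).1
    have m2 : ∀ t ∈ u.2, q t = true := fun t ht => (huq t (List.mem_append_right _ ht)).1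
    have e1 : (cw k u.1).filter q = u.1 := cw_filter kq m1
    have e2 : (preB ++ cw k u.2).filter q = u.2 := by
      rw [List.filter_append, cw_filter kq m2]
      have : preB.filter q = [] := by
        rw [List.filter_eq_nil_iff]
        intro z hz
        rw [b2 z hz]; simp
      rw [this, List.nil_append]
    show ((cw k u.1).filter q, (preB ++ cw k u.2).filter q) = u
    rw [e1, e2]
  · have h1 : (cw k u.1 ++ (preB ++ cw k u.2)).Perm (preB ++ cw k (u.1 ++ u.2)) := by
      rw [cw_append, ← List.append_assoc, ← List.append_assoc]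
      exact List.perm_append_comm.append_right _
    have h2 : (s.1 ++ s.2).Perm (preB ++ cw k (A1.filter q ++ s.2.filter q)) := by
      have : (s.1 ++ s.2).Perm (A1 ++ s.2) := hrot.perm.append_right _
      refine this.trans ?_
      rw [cw_append, ← List.append_assoc]
      nth_rewrite 1 [eA]
      nth_rewrite 1 [eB]
      rw [← List.append_assoc]
      exact List.perm_append_comm.append_right _
    refine h1.trans (List.Perm.trans ?_ h2.symm)
    apply List.Perm.append_left
    apply cw_perm
    refine hu.trans ?_
    exact frot.symm.perm.append_right _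
  · intro f hf1 hf2
    have hqf : q f = true := (huq f (List.mem_append_right _ (List.mem_of_getLast? hf2))).1
    have hfB : f ∈ s.2 := List.mem_of_getLast? hf1
    have hfA : f ∉ s.1 := fun h' => hdis _ h' hfB
    have : k f = [] := by
      simp only [k, hfA, if_false]
      exact b4 f hf1 hqf
    exact cw_last hf2 this _

end Pool.Agent.helper32.RH
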