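import Pool.Agent.helper14.NTN.Defs

/-!
# MP_c8d30a, exponent 12: a fast symbolic machine for the run model

Atoms are numbers: `t < 64` is a token, its partner is `t ^^^ 1`; a number `≥ 64` is a block.
A route is a list of numbers `k1, k2, ..`: the front of the first word wins `k1` times, then the
front of the second word wins `k2` times, and so on.
-/

set_option autoImplicit false

namespace Pool.Agent.helper32.RH

open NTH

universe u
variable {Ω : Type u} {p : Ω → Ω}

/-- cut a word at an atom. -/
def cut (t : ℕ) : List ℕ → Option (List ℕ × List ℕ)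
  | [] => none
  | a :: w => match Nat.beq a t with
    | true => some ([], w)
    | false => match cut t w with
      | some r => some (a :: r.1, r.2)
      | none => none

/-- the first `k` atoms and the rest. -/
def spl : ℕ → List ℕ → List ℕ × List ℕ
  | 0, w => ([], w)
  | _ + 1, [] => ([], [])
  | k + 1, a :: w => (a :: (spl k w).1, (spl k w).2)

/-- membership. -/
def mb (t : ℕ) : List ℕ → Bool
  | [] => false
  | a :: w => match Nat.beq a t with
    | true => true
    | false => mb t w

/-- is there a pair of tokens? -/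
def pr (V : List ℕ) : List ℕ → Bool
  | [] => false
  | a :: w => match Nat.blt a 64 with
    | true => match mb (a ^^^ 1) V with
      | true => true
      | false => pr V w
    | false => pr V w

/-- the front of the first word wins `k` times. -/
def stp (k : ℕ) (U V : List ℕ) : Option (List ℕ × List ℕ × ℕ) :=
  match U with
  | [] => none
  | x :: U => match Nat.blt x 64 with
    | false => none
    | true => match cut (x ^^^ 1) U with
      | some r => match pr (spl k V).2 (spl k V).2 with
        | true => some (x :: (r.1 ++ ((spl k V).1 ++ (x ^^^ 1) :: r.2)), (spl k V).2, 1)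
        | false => none
      | none => match cut (x ^^^ 1) V with
        | some r => some (x :: U, (spl k r.1).2 ++ ((spl k r.1).1 ++ (x ^^^ 1) :: r.2), 0)
        | none => none

/-- a route. -/
def go : List ℕ → Bool → List ℕ → List ℕ → ℕ → Option (List ℕ × List ℕ × ℕ)
  | [], _, U, V, c => some (U, V, c)
  | k :: ks, true, U, V, c => match stp k U V with
    | some r => go ks false r.1 r.2.1 (r.2.2 + c)
    | none => none
  | k :: ks, false, U, V, c => match stp k V U with
    | some r => go ks true r.2.1 r.1 (r.2.2 + c)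
    | none => none

/-- equality of words. -/
def eqw : List ℕ → List ℕ → Bool
  | [], [] => true
  | a :: v, b :: w => match Nat.beq a b with
    | true => eqw v w
    | false => false
  | _, _ => false

theorem eqw_eq : ∀ (v w : List ℕ), eqw v w = true → v = w
  | [], [], _ => rfl
  | [], _ :: _, h => by simp [eqw] at h
  | _ :: _, [], h => by simp [eqw] at h
  | a :: v, b :: w, h => by
    unfold eqw at h
    cases hb : Nat.beq a b with
    | true =>
      rw [hb] at h
      rw [Nat.eq_of_beq_eq_true hb, eqw_eq v w h]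
    | false =>
      rw [hb] at h
      exact absurd h (by simp)

theorem cut_spec (t : ℕ) : ∀ (w A B : List ℕ), cut t w = some (A, B) → w = A ++ t :: B
  | [], A, B, h => by simp [cut] at h
  | a :: w, A, B, h => by
    unfold cut at h
    cases hb : Nat.beq a t with
    | true =>
      rw [hb] at h
      simp only [Option.some.injEq, Prod.mk.injEq] at h
      rw [← h.1, ← h.2, Nat.eq_of_beq_eq_true hb]
      rfl
    | false =>
      rw [hb] at h
      cases hc : cut t w with
      | none => rw [hc] at h; simp at h
      | some r =>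
        rw [hc] at h
        simp only [Option.some.injEq, Prod.mk.injEq] at h
        rw [cut_spec t w r.1 r.2 hc, ← h.1, ← h.2]
        rfl

theorem spl_spec : ∀ (k : ℕ) (w : List ℕ), w = (spl k w).1 ++ (spl k w).2
  | 0, w => rfl
  | _ + 1, [] => rfl
  | k + 1, a :: w => by
    show a :: w = a :: ((spl k w).1 ++ (spl k w).2)
    rw [← spl_spec k w]

theorem mb_spec (t : ℕ) : ∀ (w : List ℕ), mb t w = true → t ∈ w
  | [], h => by simp [mb] at h
  | a :: w, h => by
    unfold mb at h
    cases hb : Nat.beq a t with
    | true => rw [Nat.eq_of_beq_eq_true hb]; exact List.mem_cons_self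
    | false =>
      rw [hb] at h
      exact List.mem_cons_of_mem _ (mb_spec t w h)

theorem pr_spec (V : List ℕ) : ∀ (w : List ℕ), pr V w = true → ∃ t ∈ w, t < 64 ∧ t ^^^ 1 ∈ V
  | [], h => by simp [pr] at h
  | a :: w, h => by
    unfold pr at h
    cases hb : Nat.blt a 64 with
    | false =>
      rw [hb] at h
      obtain ⟨t, h1, h2⟩ := pr_spec V w h
      exact ⟨t, List.mem_cons_of_mem _ h1, h2⟩
    | true =>
      rw [hb] at h
      cases hm : mb (a ^^^ 1) V with
      | true => exact ⟨a, List.mem_cons_self, by simpa [Nat.blt_eq] using hb, mb_spec _ _ hm⟩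
      | false =>
        rw [hm] at h
        obtain ⟨t, h1, h2⟩ := pr_spec V w h
        exact ⟨t, List.mem_cons_of_mem _ h1, h2⟩

/-- the meaning of an atom. -/
def at1 (τ : ℕ → Ω) (σ : ℕ → List Ω) (a : ℕ) : List Ω := if a < 64 then [τ a] else σ a

/-- the meaning of a word. -/
def vl (τ : ℕ → Ω) (σ : ℕ → List Ω) (w : List ℕ) : List Ω := w.flatMap (at1 τ σ)

theorem vl_append (τ : ℕ → Ω) (σ : ℕ → List Ω) (v w : List ℕ) : vl τ σ (v ++ w) = vl τ σ v ++ vl τ σ w := by
  simp [vl]

theorem vl_cons (τ : ℕ → Ω) (σ : ℕ → List Ω) (a : ℕ) (w : List ℕ) : vl τ σ (a :: w) = at1 τ σ a ++ vl τ σ w := by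
  simp [vl]

theorem vl_tok (τ : ℕ → Ω) (σ : ℕ → List Ω) {a : ℕ} (h : a < 64) (w : List ℕ) : vl τ σ (a :: w) = τ a :: vl τ σ w := by
  simp [vl, at1, h]

theorem mem_vl (τ : ℕ → Ω) (σ : ℕ → List Ω) {a : ℕ} (h : a < 64) {w : List ℕ} (hm : a ∈ w) : τ a ∈ vl τ σ w := by
  unfold vl
  rw [List.mem_flatMap]
  exact ⟨a, hm, by simp [at1, h]⟩

theorem xor_lt {t : ℕ} (h : t < 64) : t ^^^ 1 < 64 := Nat.xor_lt_two_pow (n := 6) (by simpa using h) (by norm_num)

theorem pr_pair (τ : ℕ → Ω) (σ : ℕ → List Ω) (hτ : ∀ t, t < 64 → τ (t ^^^ 1) = p (τ t)) {V : List ℕ}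
    (h : pr V V = true) : ∃ q ∈ vl τ σ V, p q ∈ vl τ σ V := by
  obtain ⟨t, h1, h2, h3⟩ := pr_spec V V h
  refine ⟨τ t, mem_vl τ σ h2 h1, ?_⟩
  rw [← hτ t h2]
  exact mem_vl τ σ (xor_lt h2) h3

theorem stp_sound (τ : ℕ → Ω) (σ : ℕ → List Ω) (hτ : ∀ t, t < 64 → τ (t ^^^ 1) = p (τ t)) {k : ℕ}
    {U V U' V' : List ℕ} {c : ℕ} (h : stp k U V = some (U', V', c)) (hN : N p (vl τ σ U, vl τ σ V)) :
    Rn p (N p) c (vl τ σ U, vl τ σ V) (vl τ σ U', vl τ σ V') := by
  cases U with
  | nil => simp [stp] at h
  | cons x U =>
    simp only [stp] at h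
    cases hb : Nat.blt x 64 with
    | false => rw [hb] at h; simp at h
    | true =>
      rw [hb] at h
      have hx : x < 64 := by simpa [Nat.blt_eq] using hb
      have hx' := xor_lt hx
      simp only at h
      cases hc : cut (x ^^^ 1) U with
      | some r =>
        rw [hc] at h
        simp only at h
        cases hp : pr (spl k V).2 (spl k V).2 with
        | false => rw [hp] at h; simp at h
        | true =>
          rw [hp] at h
          simp only [Option.some.injEq, Prod.mk.injEq] at h
          obtain ⟨rfl, rfl, rfl⟩ := h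
          have h1 := cut_spec _ _ _ _ hc
          have h2 := spl_spec k V
          have h3 := Rn.blockL (p := p) (τ x) (vl τ σ r.1) (vl τ σ r.2) (vl τ σ (spl k V).1)
            (vl τ σ (spl k V).2) (pr_pair τ σ hτ hp)
          have h4 : vl τ σ (x :: U) = τ x :: (vl τ σ r.1 ++ p (τ x) :: vl τ σ r.2) := by
            rw [vl_tok _ _ hx, h1, vl_append, vl_tok _ _ hx', hτ x hx]
          have h5 : vl τ σ V = vl τ σ (spl k V).1 ++ vl τ σ (spl k V).2 := by
            rw [← vl_append, ← h2]
          have h6 : vl τ σ (x :: (r.1 ++ ((spl k V).1 ++ (x ^^^ 1) :: r.2))) =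
              τ x :: (vl τ σ r.1 ++ (vl τ σ (spl k V).1 ++ p (τ x) :: vl τ σ r.2)) := by
            rw [vl_tok _ _ hx, vl_append, vl_append, vl_tok _ _ hx', hτ x hx]
          rw [h4, h5, h6]
          exact h3
      | none =>
        rw [hc] at h
        simp only at h
        cases hc2 : cut (x ^^^ 1) V with
        | none => rw [hc2] at h; simp at h
        | some r =>
          rw [hc2] at h
          simp only [Option.some.injEq, Prod.mk.injEq] at h
          obtain ⟨rfl, rfl, rfl⟩ := h
          have h1 := cut_spec _ _ _ _ hc2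
          have h2 := spl_spec k r.1
          have h5 : vl τ σ V = vl τ σ (spl k r.1).1 ++ (vl τ σ (spl k r.1).2 ++ p (τ x) :: vl τ σ r.2) := by
            rw [← hτ x hx, ← vl_tok _ _ hx', ← List.append_assoc, ← vl_append, ← h2, ← vl_append, ← h1]
          have h6 : vl τ σ ((spl k r.1).2 ++ ((spl k r.1).1 ++ (x ^^^ 1) :: r.2)) =
              vl τ σ (spl k r.1).2 ++ (vl τ σ (spl k r.1).1 ++ p (τ x) :: vl τ σ r.2) := by
            rw [vl_append, vl_append, vl_tok _ _ hx', hτ x hx]
          rw [vl_tok _ _ hx, h5] at hN ⊢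
          rw [h6]
          exact (rotL (p := p) (τ x) _ _ _ _ hN).toRn

theorem go_sound (τ : ℕ → Ω) (σ : ℕ → List Ω) (hτ : ∀ t, t < 64 → τ (t ^^^ 1) = p (τ t)) :
    ∀ (ks : List ℕ) (b : Bool) (U V : List ℕ) (c : ℕ) (U' V' : List ℕ) (c' : ℕ),
    go ks b U V c = some (U', V', c') → N p (vl τ σ U, vl τ σ V) →
    ∃ d, c' = d + c ∧ Rn p (N p) d (vl τ σ U, vl τ σ V) (vl τ σ U', vl τ σ V')
  | [], b, U, V, c, U', V', c', h, hN => by
    simp only [go, Option.some.injEq, Prod.mk.injEq] at h
    obtain ⟨rfl, rfl, rfl⟩ := h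
    exact ⟨0, by omega, Rn.refl _ _ hN⟩
  | k :: ks, true, U, V, c, U', V', c', h, hN => by
    simp only [go] at h
    cases hs : stp k U V with
    | none => rw [hs] at h; simp at h
    | some r =>
      rw [hs] at h
      have h1 := stp_sound (p := p) τ σ hτ (U' := r.1) (V' := r.2.1) (c := r.2.2) hs hN
      obtain ⟨d, h2, h3⟩ := go_sound τ σ hτ ks false r.1 r.2.1 (r.2.2 + c) U' V' c' h h1.right
      exact ⟨r.2.2 + d, by omega, h1.trans h3⟩
  | k :: ks, false, U, V, c, U', V', c', h, hN => by
    simp only [go] at h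
    cases hs : stp k V U with
    | none => rw [hs] at h; simp at h
    | some r =>
      rw [hs] at h
      have h1 := (stp_sound (p := p) τ σ hτ (U' := r.1) (V' := r.2.1) (c := r.2.2) hs hN.mir).mir
      obtain ⟨d, h2, h3⟩ := go_sound τ σ hτ ks true r.2.1 r.1 (r.2.2 + c) U' V' c' h h1.right
      exact ⟨r.2.2 + d, by omega, h1.trans h3⟩

/-- a checked route of at most `K` runs. -/
def ok (K : ℕ) (ks : List ℕ) (U V U' V' : List ℕ) : Bool :=
  match pr U U with
  | false => false
  | true => match pr V V with
    | false => false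
    | true => match go ks true U V 0 with
      | none => false
      | some r => match eqw r.1 U' with
        | false => false
        | true => match eqw r.2.1 V' with
          | false => false
          | true => Nat.ble r.2.2 K

theorem ok_sound {K : ℕ} {ks : List ℕ} {U V U' V' : List ℕ} (h : ok K ks U V U' V' = true)
    (τ : ℕ → Ω) (σ : ℕ → List Ω) (hτ : ∀ t, t < 64 → τ (t ^^^ 1) = p (τ t)) :
    Rn p (N p) K (vl τ σ U, vl τ σ V) (vl τ σ U', vl τ σ V') := by
  unfold ok at h
  cases h1 : pr U U with
  | false => rw [h1] at h; simp at h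
  | true =>
    rw [h1] at h
    simp only at h
    cases h2 : pr V V with
    | false => rw [h2] at h; simp at h
    | true =>
      rw [h2] at h
      simp only at h
      cases h3 : go ks true U V 0 with
      | none => rw [h3] at h; simp at h
      | some r =>
        rw [h3] at h
        simp only at h
        cases h4 : eqw r.1 U' with
        | false => rw [h4] at h; simp at h
        | true =>
          rw [h4] at h
          simp only at h
          cases h5 : eqw r.2.1 V' with
          | false => rw [h5] at h; simp at h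
          | true =>
            rw [h5] at h
            simp only at h
            have h6 : r.2.2 ≤ K := Nat.le_of_ble_eq_true h
            obtain ⟨d, h7, h8⟩ := go_sound (p := p) τ σ hτ ks true U V 0 r.1 r.2.1 r.2.2 h3
              ⟨pr_pair τ σ hτ h1, pr_pair τ σ hτ h2⟩
            rw [eqw_eq _ _ h4, eqw_eq _ _ h5] at h8
            exact h8.mono (by omega)

end Pool.Agent.helper32.RH
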