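import Pool.Agent.helper32.RH.Path

/-!
# MP_c8d30a, exponent 12: RHO, the move of six runs
-/

set_option autoImplicit false

namespace Pool.Agent.helper32.RH

open Equiv List NTH

variable {Ω : Type} [DecidableEq Ω] {p : Ω → Ω}

theorem rot_split {A A' : List Ω} (h : A ~r A') : ∃ L R, A = L ++ R ∧ A' = R ++ L := by
  obtain ⟨n, rfl⟩ := h
  refine ⟨A.take (n % A.length), A.drop (n % A.length), (List.take_append_drop _ _).symm, ?_⟩
  rw [← List.rotate_mod]
  by_cases hV : A = []
  · subst hV; simp
  · exact List.rotate_eq_drop_append_take (Nat.le_of_lt (Nat.mod_lt _ (List.length_pos_iff.mpr hV)))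

theorem N_rot {A A' B : List Ω} {e : Ω} (h : A ~r A') (hN : N p (A ++ [p e], e :: B)) : N p (A' ++ [p e], e :: B) := by
  refine hN.congr ?_ (fun _ => Iff.rfl)
  intro v
  rw [List.mem_append, List.mem_append, h.mem_iff]

/-- rotation of the first word is free. -/
theorem rotS {A A' B : List Ω} {e : Ω} (h : A ~r A') (hN : N p (A ++ [p e], e :: B)) :
    RTn p 0 (A ++ [p e], e :: B) (A' ++ [p e], e :: B) := by
  have key : ∀ A1 A2 : List Ω, N p (A1 ++ A2 ++ [p e], e :: B) →
      Rn p (N p) 0 (A1 ++ A2 ++ [p e], e :: B) (A2 ++ A1 ++ [p e], e :: B) := by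
    intro A1 A2 hr
    have := rotR (p := p) e A1 A2 [] B (by simpa using hr)
    have h2 := this.toRn
    simpa using h2
  have hN' := N_rot h hN
  obtain ⟨L, R, rfl, rfl⟩ := rot_split h
  exact ⟨key L R hN, key R L hN'⟩

theorem RTn.tr {a b : ℕ} {s t v : St Ω} (h : RTn p a s t) (h' : RTn p b t v) : RTn p (a + b) s v :=
  ⟨h.1.trans h'.1, (h'.2.trans h.2).mono (by omega)⟩

/-- **RHO**: a move costs at most six runs, in both directions. -/
theorem RHO {s : St Ω} {f t x y : Ω} (h : MvO p s f t x y) (hc : Col p s t x y) :
    RTs p 6 s (s.1.flatMap (gr t (p x) y (p y)), s.2.flatMap (gr t (p x) y (p y))) := by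
  intro e he he'
  set g := gr t (p x) y (p y) with hg
  have hp := h.wf.inv
  have hne := h.wf.ne
  obtain ⟨L, R, hLR⟩ := List.append_of_mem h.fA
  set X := R ++ L with hXd
  have hrot : s.1 ~r p f :: X := by
    rw [hLR]
    simpa using List.isRotated_append (l := L) (l' := p f :: R)
  obtain ⟨Y, hY⟩ := List.getLast?_eq_some_iff.mp h.last
  have hn0 := h.wf.nd
  have hn1 : s.1.Nodup := (List.nodup_append.mp hn0).1
  have hnA : (p f :: X).Nodup := hrot.nodup_iff.mp hn1
  have hnB : (Y ++ [f]).Nodup := hY ▸ (List.nodup_append.mp hn0).2.1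
  have hmA : ∀ v, v ∈ s.1 ↔ v ∈ p f :: X := fun v => hrot.mem_iff
  have hdis : ∀ v, v ∈ s.1 → v ∉ s.2 := fun v hv hv' => fix_of_disj hn0 hv' hv
  have fB : f ∈ s.2 := by rw [hY]; simp
  have px := h.wf.cl _ h.xm
  have py := h.py
  have ym := h.ym
  -- successors
  have fA1 : ∀ v, v ∈ s.1 → formPerm (p f :: X) v = NA.sc s v := by
    intro v hv
    rw [sc_mem1 hn0 hv, List.formPerm_eq_of_isRotated hn1 hrot]
  have fB1 : ∀ v, v ∈ s.2 → formPerm (Y ++ [f]) v = NA.sc s v := by
    intro v hv
    rw [sc_mem2 hn0 hv, hY]
  have scA : ∀ v, v ∈ s.1 → NA.sc s v ∈ s.1 := by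
    intro v hv
    rw [sc_mem1 hn0 hv]
    exact List.formPerm_apply_mem_of_mem hv
  have scB : ∀ v, v ∈ s.2 → NA.sc s v ∈ s.2 := by
    intro v hv
    rw [sc_mem2 hn0 hv]
    exact List.formPerm_apply_mem_of_mem hv
  have inX : ∀ v, v ∈ s.1 → v ≠ p f → v ∈ X := by
    intro v hv h1
    rcases List.mem_cons.mp ((hmA v).mp hv) with h2 | h2
    · exact absurd h2 h1
    · exact h2
  have inY : ∀ v, v ∈ s.2 → v ≠ f → v ∈ Y := by
    intro v hv h1
    rw [hY, List.mem_append, List.mem_singleton] at hv
    exact hv.resolve_right h1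
  -- nodup
  rw [List.mem_append, not_or] at he he'
  have nd : ((p f :: (X ++ [p e])) ++ (e :: (Y ++ [f]))).Nodup := by
    have q1 : ((p f :: X) ++ (Y ++ [f])).Nodup := by
      rw [← hY, List.nodup_append]
      refine ⟨hnA, (List.nodup_append.mp hn0).2.1, ?_⟩
      intro a ha b hb hab
      exact hdis a ((hmA a).mpr ha) (hab ▸ hb)
    have q2 : ((p f :: (X ++ [p e])) ++ (e :: (Y ++ [f]))).Perm (p e :: e :: ((p f :: X) ++ (Y ++ [f]))) := by
      have q3 : (p f :: (X ++ [p e])) ++ (e :: (Y ++ [f])) = (p f :: X) ++ (p e :: e :: (Y ++ [f])) := by simp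
      rw [q3]
      refine List.perm_middle.trans ?_
      exact (List.perm_middle).cons _
    rw [q2.nodup_iff, List.nodup_cons, List.nodup_cons]
    refine ⟨?_, ?_, q1⟩
    · rw [List.mem_cons, not_or, List.mem_append, not_or, ← hY, ← hmA]
      exact ⟨hne e, he'.1, he'.2⟩
    · rw [List.mem_append, not_or, ← hY, ← hmA]
      exact ⟨he.1, he.2⟩
  have hF : Fc p X Y f e t x y := ⟨hp, hne, nd, h.tx, h.tx', h.ty, h.ty', h.xy, h.xy', h.tf, h.tf', h.yf, h.yf'⟩
  -- the marker is fixed
  have ge : g e = [e] := by
    have h1 : e ≠ t := fun h' => by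
      rcases List.mem_append.mp h.tm with h2 | h2 <;> rw [h'] at he
      · exact he.1 h2
      · exact he.2 h2
    have h2 : e ≠ p y := fun h' => by
      rcases List.mem_append.mp py with h2 | h2 <;> rw [h'] at he
      · exact he.1 h2
      · exact he.2 h2
    have h3 : e ≠ p x := fun h' => by
      rcases List.mem_append.mp px with h2 | h2 <;> rw [h'] at he
      · exact he.1 h2
      · exact he.2 h2
    have h4 : e ≠ y := fun h' => by
      rcases List.mem_append.mp ym with h2 | h2 <;> rw [h'] at he
      · exact he.1 h2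
      · exact he.2 h2
    simp [hg, gr, h1, h2, h3, h4]
  have gpe : g (p e) = [p e] := by
    have h1 : p e ≠ t := fun h' => by
      rcases List.mem_append.mp h.tm with h2 | h2 <;> rw [h'] at he'
      · exact he'.1 h2
      · exact he'.2 h2
    have h2 : p e ≠ p y := fun h' => by
      rcases List.mem_append.mp py with h2 | h2 <;> rw [h'] at he'
      · exact he'.1 h2
      · exact he'.2 h2
    have h3 : p e ≠ p x := fun h' => by
      rcases List.mem_append.mp px with h2 | h2 <;> rw [h'] at he'
      · exact he'.1 h2
      · exact he'.2 h2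
    have h4 : p e ≠ y := fun h' => by
      rcases List.mem_append.mp ym with h2 | h2 <;> rw [h'] at he'
      · exact he'.1 h2
      · exact he'.2 h2
    simp [hg, gr, h1, h2, h3, h4]
  -- the main step
  have main : RTn p 6 (p f :: (X ++ [p e]), e :: (Y ++ [f])) ((p f :: (X ++ [p e])).flatMap g, (e :: (Y ++ [f])).flatMap g) := by
    have mpx : p x ∈ s.1 ∨ p x ∈ s.2 := List.mem_append.mp px
    have my : y ∈ s.1 ∨ y ∈ s.2 := List.mem_append.mp ym
    have iA : ∀ u v, u ∈ s.1 → NA.sc s u = v → u ≠ p f → v ≠ p f → [u, v] <:+: X := by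
      intro u v hu huv h1 h2
      exact infA hnA ((hmA u).mp hu) ((fA1 u hu).trans huv) h1 h2
    have iB : ∀ u v, u ∈ s.2 → NA.sc s u = v → u ≠ f → v ≠ f → [u, v] <:+: Y := by
      intro u v hu huv h1 h2
      exact infB hnB (hY ▸ hu) ((fB1 u hu).trans huv) h1 h2
    have ypf : p y ≠ p f := fun e' => h.yf (by rw [← hp y, e', hp])
    have ypf' : p y ≠ f := fun e' => h.yf' (by rw [← e', hp])
    have tpf : p t ≠ p f := fun e' => h.tf (by rw [← hp t, e', hp])
    have tpf' : p t ≠ f := fun e' => h.tf' (by rw [← e', hp])
    cases hc with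
    | red z h1 h2 hz hz' hd =>
      have pyA : p y ∈ s.1 := by
        rcases List.mem_append.mp py with h3 | h3
        · exact h3
        · have := scB _ h3; rw [h.hy] at this; exact absurd this (hdis _ h2)
      have xA : x ∈ s.1 := h.hx ▸ scA _ h1
      have zY : z ∈ Y := inY z hz (by rintro rfl; exact hdis _ h.fA hz')
      have zY' : p z ∈ Y := inY _ hz' (by
        intro e'
        have : z = p f := by rw [← e', hp]
        rw [this] at hz; exact hdis _ h.fA hz)
      have i2 : [p y, p t] <:+: X := iA _ _ pyA h.hy ypf tpf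
      by_cases hxf : x = p f
      · obtain ⟨X', hX'⟩ := lastA hnA ((hmA t).mp h1) (((fA1 t h1).trans h.hx).trans hxf) h.tf'
        subst hxf
        have hgf : g = gr t f y (p y) := by rw [hg, hp]
        rw [hgf]
        rw [hX'] at hF i2 ⊢
        have i3 := inf_dropLast i2 (hne t)
        refine red_F hF i3 ?_ zY zY' ?_
        · rcases my with h3 | h3
          · left
            have := inX y h3 h.yf'
            rw [hX', List.mem_append, List.mem_singleton] at this
            exact this.resolve_right h.ty.symm
          · right; exact inY y h3 h.yf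
        · intro hy
          have h3 : y ∈ s.2 := by rw [hY]; exact List.mem_append_left _ hy
          obtain ⟨d, d1, d2, d3, d4⟩ := hd (by rw [hp]; exact fB) h3
          have dne : d ≠ p f := by rintro rfl; rw [hp] at d2; exact hdis _ d2 fB
          have dne' : p d ≠ p f := by
            intro e'
            have : d = f := by rw [← hp d, e', hp]
            rw [this] at d1; exact hdis _ d1 fB
          have q1 := inX d d1 dne
          have q2 := inX _ d2 dne'
          rw [hX', List.mem_append, List.mem_singleton] at q1 q2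
          exact ⟨d, q1.resolve_right d3, q2.resolve_right (fun e' => d4 (by rw [← e', hp])), d3, d4⟩
      · refine red_N hF (iA _ _ h1 h.hx h.tf' hxf) i2 ?_ ?_ zY zY' ?_
        · rcases mpx with h3 | h3
          · left; refine inX _ h3 ?_
            intro e'
            have : x = f := by rw [← hp x, e', hp]
            rw [this] at xA; exact hdis _ xA fB
          · right; exact inY _ h3 (fun e' => hxf (by rw [← e', hp]))
        · rcases my with h3 | h3
          · left; exact inX _ h3 h.yf'
          · right; exact inY _ h3 h.yf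
        · intro hpx hy
          obtain ⟨d, d1, d2, d3, d4⟩ := hd (by rw [hY]; exact List.mem_append_left _ hpx) (by rw [hY]; exact List.mem_append_left _ hy)
          have dne : d ≠ p f := by rintro rfl; rw [hp] at d2; exact hdis _ d2 fB
          have dne' : p d ≠ p f := by
            intro e'
            have : d = f := by rw [← hp d, e', hp]
            rw [this] at d1; exact hdis _ d1 fB
          exact ⟨d, inX d d1 dne, inX _ d2 dne', d3, d4⟩
    | blue z h1 h2 hz hz' hd =>
      have pyB : p y ∈ s.2 := by
        rcases List.mem_append.mp py with h3 | h3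
        · have := scA _ h3; rw [h.hy] at this; exact absurd h2 (hdis _ this)
        · exact h3
      have xB : x ∈ s.2 := h.hx ▸ scB _ h1
      have zX : z ∈ X := inX z hz (by rintro rfl; rw [hp] at hz'; exact hdis _ hz' fB)
      have zX' : p z ∈ X := inX _ hz' (by
        intro e'
        have : z = f := by rw [← hp z, e', hp]
        rw [this] at hz; exact hdis _ hz fB)
      have i2 : [p y, p t] <:+: Y := iB _ _ pyB h.hy ypf' tpf'
      by_cases hxf : x = f
      · obtain ⟨Y', hY'⟩ := lastB hnB (hY ▸ h1) (((fB1 t h1).trans h.hx).trans hxf) h.tf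
        subst hxf
        rw [hY'] at hF i2 ⊢
        have i3 := inf_dropLast i2 (hne t)
        refine blue_F hF i3 ?_ zX zX' ?_
        · rcases my with h3 | h3
          · left; exact inX y h3 h.yf'
          · right
            have := inY y h3 h.yf
            rw [hY', List.mem_append, List.mem_singleton] at this
            exact this.resolve_right h.ty.symm
        · intro hy
          have h3 : y ∈ s.1 := (hmA y).mpr (List.mem_cons_of_mem _ hy)
          obtain ⟨d, d1, d2, d3, d4⟩ := hd h.fA h3
          have dne : d ≠ x := by rintro rfl; exact hdis _ h.fA d2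
          have dne' : p d ≠ x := by
            intro e'
            have : d = p x := by rw [← e', hp]
            rw [this] at d1; exact hdis _ h.fA d1
          have q1 := inY d d1 dne
          have q2 := inY _ d2 dne'
          rw [hY', List.mem_append, List.mem_singleton] at q1 q2
          exact ⟨d, q1.resolve_right d3, q2.resolve_right (fun e' => d4 (by rw [← e', hp])), d3, d4⟩
      · refine blue_N hF (iB _ _ h1 h.hx h.tf hxf) i2 ?_ ?_ zX zX' ?_
        · rcases mpx with h3 | h3
          · left; exact inX _ h3 (fun e' => hxf (by rw [← hp x, e', hp]))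
          · right; refine inY _ h3 ?_
            intro e'
            have : x = p f := by rw [← e', hp]
            rw [this] at xB; exact hdis _ h.fA xB
        · rcases my with h3 | h3
          · left; exact inX _ h3 h.yf'
          · right; exact inY _ h3 h.yf
        · intro hpx hy
          obtain ⟨d, d1, d2, d3, d4⟩ := hd ((hmA _).mpr (List.mem_cons_of_mem _ hpx)) ((hmA _).mpr (List.mem_cons_of_mem _ hy))
          have dne : d ≠ f := by rintro rfl; exact hdis _ h.fA d2
          have dne' : p d ≠ f := by
            intro e'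
            have : d = p f := by rw [← e', hp]
            rw [this] at d1; exact hdis _ h.fA d1
          exact ⟨d, inY d d1 dne, inY _ d2 dne', d3, d4⟩
    | hA h1 h2 h3 h4 =>
      have pyB : p y ∈ s.2 := by
        rcases List.mem_append.mp py with h5 | h5
        · have := scA _ h5; rw [h.hy] at this; exact absurd h2 (hdis _ this)
        · exact h5
      have xA : x ∈ s.1 := h.hx ▸ scA _ h1
      have hxf : x ≠ p f := by rintro rfl; rw [hp] at h3; exact hdis _ h3 fB
      have hxf' : p x ≠ p f := by
        intro e'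
        have : x = f := by rw [← hp x, e', hp]
        rw [this] at xA; exact hdis _ xA fB
      exact hA_N hF (iA _ _ h1 h.hx h.tf' hxf) (iB _ _ pyB h.hy ypf' tpf') (inX _ h3 hxf') (inY _ h4 h.yf)
    | hB h1 h2 h3 h4 =>
      have pyA : p y ∈ s.1 := by
        rcases List.mem_append.mp py with h5 | h5
        · exact h5
        · have := scB _ h5; rw [h.hy] at this; exact absurd this (hdis _ h2)
      have xB : x ∈ s.2 := h.hx ▸ scB _ h1
      have hxf : x ≠ f := by rintro rfl; exact hdis _ h.fA h3
      have hxf' : p x ≠ f := by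
        intro e'
        have : x = p f := by rw [← e', hp]
        rw [this] at xB; exact hdis _ h.fA xB
      exact hB_N hF (iB _ _ h1 h.hx h.tf hxf) (iA _ _ pyA h.hy ypf tpf) (inY _ h3 hxf') (inX _ h4 h.yf')
  -- rotate
  have e1 : (p f :: (X ++ [p e])).flatMap g = (p f :: X).flatMap g ++ [p e] := by
    have : p f :: (X ++ [p e]) = (p f :: X) ++ [p e] := by simp
    rw [this, List.flatMap_append, List.flatMap_singleton, gpe]
  have e2 : (e :: (Y ++ [f])).flatMap g = e :: s.2.flatMap g := by
    rw [List.flatMap_cons, ge, hY]; rfl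
  rw [e1, e2, ← hY] at main
  have N1 := main.1.left
  have N2 := main.1.right
  have N1' : N p (s.1 ++ [p e], e :: s.2) := by
    have : p f :: (X ++ [p e]) = (p f :: X) ++ [p e] := by simp
    rw [this] at N1
    exact N_rot hrot.symm N1
  have r1 := rotS (p := p) hrot N1'
  have r2 := rotS (p := p) (flat_rot (g := g) hrot).symm N2
  have : p f :: (X ++ [p e]) = (p f :: X) ++ [p e] := by simp
  rw [this] at main
  have := RTn.tr (RTn.tr r1 main) r2
  simpa using this

/-- **RHO**, with the result. -/
theorem RHO' {s : St Ω} {f t x y : Ω} (h : MvO p s f t x y) (hc : Col p s t x y) :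
    ∃ s', RTs p 6 s s' ∧ Mvd p s f t x y s' := ⟨_, RHO h hc, mvd_of h⟩

end Pool.Agent.helper32.RH
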