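import Pool.Agent.helper32.RH.Rho

/-!
# MP_c8d30a, exponent 12: the cost of the move
-/

set_option autoImplicit false

namespace Pool.Agent.helper32.RH

open Equiv List NTH

variable {Ω : Type} [DecidableEq Ω] {p : Ω → Ω}

theorem infA {h t x : Ω} {X : List Ω} (hn : (h :: X).Nodup) (ht : t ∈ h :: X) (hx : formPerm (h :: X) t = x)
    (h1 : t ≠ h) (h2 : x ≠ h) : [t, x] <:+: X := by
  rcases succ_cases hn ht hx with ⟨h3, _⟩ | ⟨L, R, e⟩
  · exact absurd h3 h2
  · cases L with
    | nil =>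
      simp only [List.nil_append, List.cons.injEq] at e
      exact absurd e.1.symm h1
    | cons a L =>
      simp only [List.cons_append, List.cons.injEq] at e
      exact ⟨L, R, by rw [e.2]; simp⟩

theorem lastA {h t : Ω} {X : List Ω} (hn : (h :: X).Nodup) (ht : t ∈ h :: X) (hx : formPerm (h :: X) t = h)
    (h1 : t ≠ h) : ∃ X', X = X' ++ [t] := by
  rcases succ_cases hn ht hx with ⟨_, L, e⟩ | ⟨L, R, e⟩
  · cases L with
    | nil =>
      simp only [List.nil_append, List.cons.injEq] at e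
      exact absurd e.1.symm h1
    | cons a L =>
      simp only [List.cons_append, List.cons.injEq] at e
      exact ⟨L, e.2⟩
  · exfalso
    cases L with
    | nil =>
      simp only [List.nil_append, List.cons.injEq] at e
      exact h1 e.1.symm
    | cons a L =>
      simp only [List.cons_append, List.cons.injEq] at e
      have := (List.nodup_cons.mp hn).1
      rw [e.2] at this
      simp at this

theorem infB {f t x : Ω} {Y : List Ω} (hn : (Y ++ [f]).Nodup) (ht : t ∈ Y ++ [f]) (hx : formPerm (Y ++ [f]) t = x)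
    (h1 : t ≠ f) (h2 : x ≠ f) : [t, x] <:+: Y := by
  cases hY : Y ++ [f] with
  | nil => simp at hY
  | cons b Z =>
    rw [hY] at hn ht hx
    rcases succ_cases hn ht hx with ⟨_, L, e⟩ | ⟨L, R, e⟩
    · exfalso
      rw [← hY] at e
      have := List.append_inj_right' e rfl
      simp at this
      exact h1 this.symm
    · rw [← hY] at e
      rcases List.eq_nil_or_concat R with rfl | ⟨R', c, rfl⟩
      · exfalso
        have e' : Y ++ [f] = (L ++ [t]) ++ [x] := by rw [e]; simp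
        have := List.append_inj_right' e' rfl
        simp at this
        exact h2 this.symm
      · have e' : Y ++ [f] = (L ++ t :: x :: R') ++ [c] := by rw [e]; simp
        have := List.append_inj_left' e' rfl
        exact ⟨L, R', by rw [this]; simp⟩

theorem lastB {f t : Ω} {Y : List Ω} (hn : (Y ++ [f]).Nodup) (ht : t ∈ Y ++ [f]) (hx : formPerm (Y ++ [f]) t = f)
    (h1 : t ≠ f) : ∃ Y', Y = Y' ++ [t] := by
  cases hY : Y ++ [f] with
  | nil => simp at hY
  | cons b Z =>
    rw [hY] at hn ht hx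
    rcases succ_cases hn ht hx with ⟨_, L, e⟩ | ⟨L, R, e⟩
    · exfalso
      rw [← hY] at e
      have := List.append_inj_right' e rfl
      simp at this
      exact h1 this.symm
    · rw [← hY] at e hn
      rcases List.eq_nil_or_concat R with rfl | ⟨R', c, rfl⟩
      · have e' : Y ++ [f] = (L ++ [t]) ++ [f] := by rw [e]; simp
        exact ⟨L, List.append_inj_left' e' rfl⟩
      · exfalso
        have e' : Y ++ [f] = (L ++ t :: f :: R') ++ [c] := by rw [e]; simp
        have h3 := List.append_inj_left' e' rfl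
        have h4 := (List.nodup_append.mp hn).2.2 f (by rw [h3]; simp) f (by simp)
        exact h4 rfl

theorem inf_dropLast {a b t : Ω} {X : List Ω} (h : [a, b] <:+: X ++ [t]) (hb : b ≠ t) : [a, b] <:+: X := by
  obtain ⟨L, R, e⟩ := h
  rcases List.eq_nil_or_concat R with rfl | ⟨R', c, rfl⟩
  · exfalso
    have e' : (L ++ [a]) ++ [b] = X ++ [t] := by rw [← e]; simp
    have := List.append_inj_right' e' rfl
    simp at this
    exact hb this
  · have e' : (L ++ [a, b] ++ R') ++ [c] = X ++ [t] := by rw [← e]; simp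
    exact ⟨L, R', List.append_inj_left' e' rfl⟩

theorem RTn.mir' {K : ℕ} {s t : St Ω} (h : RTn p K s t) : RTn p K (mir s) (mir t) := ⟨h.1.mir, h.2.mir⟩

/-- rotation of the first word is free. -/
theorem rts_rot {A A' B : List Ω} (h : A ~r A') (hr : ∃ r ∈ A, p r ∈ A) (hb : ∃ b ∈ B, p b ∈ B) : RTs p 0 (A, B) (A', B) := by
  have key : ∀ A1 A2 : List Ω, (∃ r ∈ A1 ++ A2, p r ∈ A1 ++ A2) → ∀ e,
      Rn p (N p) 0 (A1 ++ A2 ++ [p e], e :: B) (A2 ++ A1 ++ [p e], e :: B) := by
    intro A1 A2 hr e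
    obtain ⟨r, hr1, hr2⟩ := hr
    obtain ⟨b, hb1, hb2⟩ := hb
    have := rotR (p := p) e A1 A2 [] B ⟨⟨r, by
      simp only [List.mem_append] at hr1 ⊢; tauto, by
      simp only [List.mem_append] at hr2 ⊢; tauto⟩, ⟨b, List.mem_cons_of_mem _ hb1, List.mem_cons_of_mem _ hb2⟩⟩
    have h2 := this.toRn
    simpa using h2
  obtain ⟨L, R, e1, e2⟩ : ∃ L R, A = L ++ R ∧ A' = R ++ L := by
    obtain ⟨n, rfl⟩ := h
    refine ⟨A.take (n % A.length), A.drop (n % A.length), (List.take_append_drop _ _).symm, ?_⟩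
    rw [← List.rotate_mod]
    by_cases hV : A = []
    · subst hV; simp
    · exact List.rotate_eq_drop_append_take (Nat.le_of_lt (Nat.mod_lt _ (List.length_pos_iff.mpr hV)))
  subst e1 e2
  intro e _ _
  refine ⟨key L R hr e, key R L ?_ e⟩
  obtain ⟨r, hr1, hr2⟩ := hr
  exact ⟨r, by simp only [List.mem_append] at hr1 ⊢; tauto, by simp only [List.mem_append] at hr2 ⊢; tauto⟩

theorem flat_rot {g : Ω → List Ω} {V W : List Ω} (h : V ~r W) : V.flatMap g ~r W.flatMap g := by
  obtain ⟨n, rfl⟩ := h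
  obtain ⟨L, R, rfl, e2⟩ : ∃ L R, V = L ++ R ∧ V.rotate n = R ++ L := by
    refine ⟨V.take (n % V.length), V.drop (n % V.length), (List.take_append_drop _ _).symm, ?_⟩
    rw [← List.rotate_mod]
    by_cases hV : V = []
    · subst hV; simp
    · exact List.rotate_eq_drop_append_take (Nat.le_of_lt (Nat.mod_lt _ (List.length_pos_iff.mpr hV)))
  rw [e2, List.flatMap_append, List.flatMap_append]
  exact List.isRotated_append

/-- the colours: `c` coloured (and, if `x`, `y` are mixed, one more letter of its colour), or the step H. -/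
inductive Col (p : Ω → Ω) (s : St Ω) (t x y : Ω) : Prop
  | red (z : Ω) (h1 : t ∈ s.1) (h2 : p t ∈ s.1) (hz : z ∈ s.2) (hz' : p z ∈ s.2)
      (hd : p x ∈ s.2 → y ∈ s.2 → ∃ d ∈ s.1, p d ∈ s.1 ∧ d ≠ t ∧ d ≠ p t)
  | blue (z : Ω) (h1 : t ∈ s.2) (h2 : p t ∈ s.2) (hz : z ∈ s.1) (hz' : p z ∈ s.1)
      (hd : p x ∈ s.1 → y ∈ s.1 → ∃ d ∈ s.2, p d ∈ s.2 ∧ d ≠ t ∧ d ≠ p t)
  | hA (h1 : t ∈ s.1) (h2 : p t ∈ s.2) (h3 : p x ∈ s.1) (h4 : y ∈ s.2)
  | hB (h1 : t ∈ s.2) (h2 : p t ∈ s.1) (h3 : p x ∈ s.2) (h4 : y ∈ s.1)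

/-- the common facts. -/
structure Fc (p : Ω → Ω) (X Y : List Ω) (f e t x y : Ω) : Prop where
  hp : ∀ t, p (p t) = t
  hne : ∀ t, p t ≠ t
  nd : ((p f :: (X ++ [p e])) ++ (e :: (Y ++ [f]))).Nodup
  tx : t ≠ x
  tx' : t ≠ p x
  ty : t ≠ y
  ty' : t ≠ p y
  xy : x ≠ y
  xy' : x ≠ p y
  tf : t ≠ f
  tf' : t ≠ p f
  yf : y ≠ f
  yf' : y ≠ p f

theorem Fc.facts {X Y : List Ω} {f e t x y : Ω} (h : Fc p X Y f e t x y) :
    (∀ v, v ∈ X → v ∉ Y) ∧ f ∉ X ∧ f ∉ Y ∧ p f ∉ X ∧ p f ∉ Y ∧ e ∉ X ∧ e ∉ Y ∧ p e ∉ X ∧ p e ∉ Y ∧ f ≠ e ∧ f ≠ p e := by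
  have := h.nd
  simp only [List.cons_append, List.nodup_cons, List.mem_cons, List.mem_append, List.not_mem_nil, or_false, not_or,
    List.nodup_append, List.append_assoc, List.nil_append, List.nodup_nil, ne_eq, forall_eq_or_imp, forall_eq] at this
  grind

/-- red, `x` not the letter of `f`. -/
theorem red_N {X Y : List Ω} {f e t x y : Ω} (h : Fc p X Y f e t x y) (i1 : [t, x] <:+: X) (i2 : [p y, p t] <:+: X)
    (m1 : p x ∈ X ∨ p x ∈ Y) (m2 : y ∈ X ∨ y ∈ Y) {z : Ω} (hz : z ∈ Y) (hz' : p z ∈ Y)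
    (hd : p x ∈ Y → y ∈ Y → ∃ d ∈ X, p d ∈ X ∧ d ≠ t ∧ d ≠ p t) :
    RTn p 6 (p f :: (X ++ [p e]), e :: (Y ++ [f])) ((p f :: (X ++ [p e])).flatMap (gr t (p x) y (p y)), (e :: (Y ++ [f])).flatMap (gr t (p x) y (p y))) := by
  obtain ⟨f1, f2, f3, f4, f5, f6, f7, f8, f9, f10, f11⟩ := h.facts
  obtain ⟨hp, hne, nd, tx, tx', ty, ty', xy, xy', tf, tf', yf, yf'⟩ := h
  have a1 : t ∈ X := i1.subset (by simp)
  have a2 : x ∈ X := i1.subset (by simp)
  have a3 : p y ∈ X := i2.subset (by simp)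
  have a4 : p t ∈ X := i2.subset (by simp)
  rcases m1 with m1 | m1 <;> rcases m2 with m2 | m2
  · exact rAAkk hp hne (z := z) (by
      unfold LD
      simp only [List.pairwise_cons, List.mem_cons, List.not_mem_nil, or_false, forall_eq_or_imp, forall_eq,
        List.Pairwise.nil, and_true, IsEmpty.forall_iff, implies_true]
      repeat' apply And.intro
      all_goals grind) i1 i2 m1 m2 hz hz' nd
  · exact rAAkm hp hne (z := z) (by
      unfold LD
      simp only [List.pairwise_cons, List.mem_cons, List.not_mem_nil, or_false, forall_eq_or_imp, forall_eq,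
        List.Pairwise.nil, and_true, IsEmpty.forall_iff, implies_true]
      repeat' apply And.intro
      all_goals grind) i1 i2 m1 m2 hz hz' nd
  · exact rAAmk hp hne (z := z) (by
      unfold LD
      simp only [List.pairwise_cons, List.mem_cons, List.not_mem_nil, or_false, forall_eq_or_imp, forall_eq,
        List.Pairwise.nil, and_true, IsEmpty.forall_iff, implies_true]
      repeat' apply And.intro
      all_goals grind) i1 i2 m2 m1 hz hz' nd
  · obtain ⟨d, d1, d2, d3, d4⟩ := hd m1 m2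
    exact rAAmm hp hne (z := z) (d := d) (by
      unfold LD
      simp only [List.pairwise_cons, List.mem_cons, List.not_mem_nil, or_false, forall_eq_or_imp, forall_eq,
        List.Pairwise.nil, and_true, IsEmpty.forall_iff, implies_true]
      repeat' apply And.intro
      all_goals grind) i1 i2 d1 d2 m1 m2 hz hz' nd

/-- red, `x = p f`. -/
theorem red_F {X Y : List Ω} {f e t y : Ω} (h : Fc p (X ++ [t]) Y f e t (p f) y) (i2 : [p y, p t] <:+: X)
    (m2 : y ∈ X ∨ y ∈ Y) {z : Ω} (hz : z ∈ Y) (hz' : p z ∈ Y)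
    (hd : y ∈ Y → ∃ d ∈ X, p d ∈ X ∧ d ≠ t ∧ d ≠ p t) :
    RTn p 6 (p f :: (X ++ [t] ++ [p e]), e :: (Y ++ [f])) ((p f :: (X ++ [t] ++ [p e])).flatMap (gr t f y (p y)), (e :: (Y ++ [f])).flatMap (gr t f y (p y))) := by
  obtain ⟨f1, f2, f3, f4, f5, f6, f7, f8, f9, f10, f11⟩ := h.facts
  obtain ⟨hp, hne, nd, tx, tx', ty, ty', xy, xy', tf, tf', yf, yf'⟩ := h
  have a3 : p y ∈ X := i2.subset (by simp)
  have a4 : p t ∈ X := i2.subset (by simp)
  have b1 : ∀ v, v ∈ X → v ∉ Y := fun v hv => f1 v (List.mem_append_left _ hv)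
  have b2 : t ∉ Y := f1 t (by simp)
  simp only [List.mem_append, List.mem_cons, List.not_mem_nil, or_false, not_or] at f2 f4 f6 f8
  have e1 : p f :: (X ++ [t] ++ [p e]) = p f :: (X ++ [t, p e]) := by simp
  have e2 : f = p (p f) := (hp f).symm
  have tX : t ∉ X := by
    intro h
    rw [e1] at nd
    simp only [List.cons_append, List.nodup_cons, List.mem_cons, List.mem_append, List.not_mem_nil, or_false, not_or,
      List.nodup_append, List.append_assoc, List.nil_append, List.nodup_nil, ne_eq, forall_eq_or_imp, forall_eq] at nd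
    grind
  rw [e1] at nd ⊢
  rcases m2 with m2 | m2
  · have := rAAmkf hp hne (t := t) (x := p f) (y := y) (z := z) (e := e) (X := X) (Y := Y) (by
      unfold LD
      simp only [List.pairwise_cons, List.mem_cons, List.not_mem_nil, or_false, forall_eq_or_imp, forall_eq,
        List.Pairwise.nil, and_true, IsEmpty.forall_iff, implies_true]
      repeat' apply And.intro
      all_goals grind) i2 m2 hz hz' (by rw [hp]; exact nd)
    rw [hp] at this
    exact this
  · obtain ⟨d, d1, d2, d3, d4⟩ := hd m2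
    have := rAAmmf hp hne (t := t) (x := p f) (y := y) (z := z) (d := d) (e := e) (X := X) (Y := Y) (by
      unfold LD
      simp only [List.pairwise_cons, List.mem_cons, List.not_mem_nil, or_false, forall_eq_or_imp, forall_eq,
        List.Pairwise.nil, and_true, IsEmpty.forall_iff, implies_true]
      repeat' apply And.intro
      all_goals grind) i2 d1 d2 m2 hz hz' (by rw [hp]; exact nd)
    rw [hp] at this
    exact this

/-- blue, `x = f`. -/
theorem blue_F {X Y : List Ω} {f e t y : Ω} (h : Fc p X (Y ++ [t]) f e t f y) (i2 : [p y, p t] <:+: Y)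
    (m2 : y ∈ X ∨ y ∈ Y) {z : Ω} (hz : z ∈ X) (hz' : p z ∈ X)
    (hd : y ∈ X → ∃ d ∈ Y, p d ∈ Y ∧ d ≠ t ∧ d ≠ p t) :
    RTn p 6 (p f :: (X ++ [p e]), e :: (Y ++ [t] ++ [f])) ((p f :: (X ++ [p e])).flatMap (gr t (p f) y (p y)), (e :: (Y ++ [t] ++ [f])).flatMap (gr t (p f) y (p y))) := by
  obtain ⟨f1, f2, f3, f4, f5, f6, f7, f8, f9, f10, f11⟩ := h.facts
  obtain ⟨hp, hne, nd, tx, tx', ty, ty', xy, xy', tf, tf', yf, yf'⟩ := h
  have a3 : p y ∈ Y := i2.subset (by simp)
  have a4 : p t ∈ Y := i2.subset (by simp)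
  have b1 : ∀ v, v ∈ X → v ∉ Y := fun v hv hv' => f1 v hv (List.mem_append_left _ hv')
  have b2 : t ∉ X := fun hv => f1 t hv (by simp)
  simp only [List.mem_append, List.mem_cons, List.not_mem_nil, or_false, not_or] at f3 f5 f7 f9
  have e1 : e :: (Y ++ [t] ++ [f]) = e :: (Y ++ [t, f]) := by simp
  have tY : t ∉ Y := by
    intro h
    rw [e1] at nd
    simp only [List.cons_append, List.nodup_cons, List.mem_cons, List.mem_append, List.not_mem_nil, or_false, not_or,
      List.nodup_append, List.append_assoc, List.nil_append, List.nodup_nil, ne_eq, forall_eq_or_imp, forall_eq] at nd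
    grind
  rw [e1] at nd ⊢
  rcases m2 with m2 | m2
  · obtain ⟨d, d1, d2, d3, d4⟩ := hd m2
    exact rBBmmf hp hne (t := t) (x := f) (y := y) (z := d) (d := z) (e := e) (X := X) (Y := Y) (by
      unfold LD
      simp only [List.pairwise_cons, List.mem_cons, List.not_mem_nil, or_false, forall_eq_or_imp, forall_eq,
        List.Pairwise.nil, and_true, IsEmpty.forall_iff, implies_true]
      repeat' apply And.intro
      all_goals grind) m2 hz hz' i2 d1 d2 nd
  · exact rBBmkf hp hne (t := t) (x := f) (y := y) (d := z) (e := e) (X := X) (Y := Y) (by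
      unfold LD
      simp only [List.pairwise_cons, List.mem_cons, List.not_mem_nil, or_false, forall_eq_or_imp, forall_eq,
        List.Pairwise.nil, and_true, IsEmpty.forall_iff, implies_true]
      repeat' apply And.intro
      all_goals grind) hz hz' i2 m2 nd

/-- blue, `x` not the letter of `f`. -/
theorem blue_N {X Y : List Ω} {f e t x y : Ω} (h : Fc p X Y f e t x y) (i1 : [t, x] <:+: Y) (i2 : [p y, p t] <:+: Y)
    (m1 : p x ∈ X ∨ p x ∈ Y) (m2 : y ∈ X ∨ y ∈ Y) {z : Ω} (hz : z ∈ X) (hz' : p z ∈ X)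
    (hd : p x ∈ X → y ∈ X → ∃ d ∈ Y, p d ∈ Y ∧ d ≠ t ∧ d ≠ p t) :
    RTn p 6 (p f :: (X ++ [p e]), e :: (Y ++ [f])) ((p f :: (X ++ [p e])).flatMap (gr t (p x) y (p y)), (e :: (Y ++ [f])).flatMap (gr t (p x) y (p y))) := by
  have hF := h.facts
  obtain ⟨f1, f2, f3, f4, f5, f6, f7, f8, f9, f10, f11⟩ := hF
  obtain ⟨hp, hne, nd, tx, tx', ty, ty', xy, xy', tf, tf', yf, yf'⟩ := h
  have a1 : t ∈ Y := i1.subset (by simp)
  have a2 : x ∈ Y := i1.subset (by simp)
  have a3 : p y ∈ Y := i2.subset (by simp)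
  have a4 : p t ∈ Y := i2.subset (by simp)
  have nd' : ((p (p e) :: (Y ++ [p (p f)])) ++ (p f :: (X ++ [p e]))).Nodup := by
    rw [hp, hp]
    exact (List.perm_append_comm.nodup_iff).1 nd
  have hF' : Fc p Y X (p e) (p f) t x y := by
    refine ⟨hp, hne, nd', tx, tx', ty, ty', xy, xy', ?_, ?_, ?_, ?_⟩
    · rintro rfl; exact f9 a1
    · rintro rfl; rw [hp] at a1; exact f7 a1
    · rintro rfl; rw [hp] at a3; exact f7 a3
    · rintro rfl; rw [hp] at a3; exact f9 a3
  have := red_N hF' i1 i2 (Or.symm m1) (Or.symm m2) hz hz' hd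
  rw [hp, hp] at this
  exact RTn.mir' this

/-- the step H. -/
theorem hA_N {X Y : List Ω} {f e t x y : Ω} (h : Fc p X Y f e t x y) (i1 : [t, x] <:+: X) (i2 : [p y, p t] <:+: Y)
    (m1 : p x ∈ X) (m2 : y ∈ Y) :
    RTn p 6 (p f :: (X ++ [p e]), e :: (Y ++ [f])) ((p f :: (X ++ [p e])).flatMap (gr t (p x) y (p y)), (e :: (Y ++ [f])).flatMap (gr t (p x) y (p y))) := by
  obtain ⟨f1, f2, f3, f4, f5, f6, f7, f8, f9, f10, f11⟩ := h.facts
  obtain ⟨hp, hne, nd, tx, tx', ty, ty', xy, xy', tf, tf', yf, yf'⟩ := h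
  have a1 : t ∈ X := i1.subset (by simp)
  have a2 : x ∈ X := i1.subset (by simp)
  have a3 : p y ∈ Y := i2.subset (by simp)
  have a4 : p t ∈ Y := i2.subset (by simp)
  exact rABkk hp hne (by
      unfold LD
      simp only [List.pairwise_cons, List.mem_cons, List.not_mem_nil, or_false, forall_eq_or_imp, forall_eq,
        List.Pairwise.nil, and_true, IsEmpty.forall_iff, implies_true]
      repeat' apply And.intro
      all_goals grind) i1 m1 i2 m2 nd

/-- the step H, mirrored. -/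
theorem hB_N {X Y : List Ω} {f e t x y : Ω} (h : Fc p X Y f e t x y) (i1 : [t, x] <:+: Y) (i2 : [p y, p t] <:+: X)
    (m1 : p x ∈ Y) (m2 : y ∈ X) :
    RTn p 6 (p f :: (X ++ [p e]), e :: (Y ++ [f])) ((p f :: (X ++ [p e])).flatMap (gr t (p x) y (p y)), (e :: (Y ++ [f])).flatMap (gr t (p x) y (p y))) := by
  obtain ⟨f1, f2, f3, f4, f5, f6, f7, f8, f9, f10, f11⟩ := h.facts
  obtain ⟨hp, hne, nd, tx, tx', ty, ty', xy, xy', tf, tf', yf, yf'⟩ := h
  have a1 : t ∈ Y := i1.subset (by simp)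
  have a3 : p y ∈ X := i2.subset (by simp)
  have nd' : ((p (p e) :: (Y ++ [p (p f)])) ++ (p f :: (X ++ [p e]))).Nodup := by
    rw [hp, hp]
    exact (List.perm_append_comm.nodup_iff).1 nd
  have hF' : Fc p Y X (p e) (p f) t x y := by
    refine ⟨hp, hne, nd', tx, tx', ty, ty', xy, xy', ?_, ?_, ?_, ?_⟩
    · rintro rfl; exact f9 a1
    · rintro rfl; rw [hp] at a1; exact f7 a1
    · rintro rfl; exact f8 m2
    · rintro rfl; rw [hp] at m2; exact f6 m2
  have := hA_N hF' i1 i2 m1 m2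
  rw [hp, hp] at this
  exact RTn.mir' this

end Pool.Agent.helper32.RH
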