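import Pool.Agent.helper32.RH.RhoT
import Pool.Agent.helper36.NA.Defs

/-!
# MP_c8d30a, exponent 12: successors after the move
-/

set_option autoImplicit false

namespace Pool.Agent.helper32.RH

open Equiv List NTH

variable {Ω : Type} [DecidableEq Ω] {p : Ω → Ω}

/-- delete. -/
def dl (a : Ω) (W : List Ω) : List Ω := W.filter (fun v => decide (v ≠ a))

/-- insert `y` before `z`. -/
def ins (y z : Ω) (W : List Ω) : List Ω := W.flatMap (fun v => if v = z then [y, z] else [v])

theorem mem_dl {a v : Ω} {W : List Ω} : v ∈ dl a W ↔ v ∈ W ∧ v ≠ a := by simp [dl]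

theorem mem_ins {y z v : Ω} {W : List Ω} : v ∈ ins y z W ↔ v ∈ W ∨ (v = y ∧ z ∈ W) := by
  unfold ins
  rw [List.mem_flatMap]
  constructor
  · rintro ⟨w, h1, h2⟩
    split_ifs at h2 with h3
    · simp only [List.mem_cons, List.not_mem_nil, or_false] at h2
      rcases h2 with h2 | h2
      · exact Or.inr ⟨h2, h3 ▸ h1⟩
      · exact Or.inl (h2 ▸ h3 ▸ h1)
    · simp only [List.mem_cons, List.not_mem_nil, or_false] at h2
      exact Or.inl (h2 ▸ h1)
  · rintro (h | ⟨rfl, h⟩)
    · refine ⟨v, h, ?_⟩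
      split_ifs with h3
      · rw [h3]; simp
      · simp
    · exact ⟨z, h, by simp⟩

theorem ins_append (y z : Ω) (V W : List Ω) : ins y z (V ++ W) = ins y z V ++ ins y z W := by simp [ins]

theorem dl_append (a : Ω) (V W : List Ω) : dl a (V ++ W) = dl a V ++ dl a W := by simp [dl]

theorem ins_id {y z : Ω} {W : List Ω} (h : z ∉ W) : ins y z W = W := by
  induction W with
  | nil => rfl
  | cons a W ih =>
    have h1 : a ≠ z := fun e => h (e ▸ List.mem_cons_self)
    have h2 := ih (fun e => h (List.mem_cons_of_mem _ e))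
    unfold ins at h2 ⊢
    rw [List.flatMap_cons, h2]
    simp [h1]

theorem dl_id {a : Ω} {W : List Ω} (h : a ∉ W) : dl a W = W := by
  unfold dl
  rw [List.filter_eq_self]
  intro b hb
  simp only [ne_eq, decide_eq_true_eq]
  rintro rfl
  exact h hb

theorem ins_nodup {y z : Ω} {W : List Ω} (h : W.Nodup) (hy : y ∉ W) : (ins y z W).Nodup := by
  by_cases hz : z ∈ W
  · obtain ⟨L, R, rfl⟩ := List.append_of_mem hz
    have h1 : z ∉ L ∧ z ∉ R := by
      have := List.nodup_middle.mp h
      simp only [List.nodup_cons, List.mem_append, not_or] at this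
      exact this.1
    rw [ins_append, ins_id h1.1]
    have : ins y z (z :: R) = y :: z :: R := by
      have e : ins y z R = R := ins_id h1.2
      unfold ins at e ⊢
      rw [List.flatMap_cons, e]
      simp
    rw [this, List.nodup_middle]
    exact List.nodup_cons.mpr ⟨hy, h⟩
  · rw [ins_id hz]; exact h

theorem dl_nodup {a : Ω} {W : List Ω} (h : W.Nodup) : (dl a W).Nodup := h.filter _

theorem ins_rot {y z : Ω} {V W : List Ω} (h : V ~r W) : ins y z V ~r ins y z W := by
  obtain ⟨n, rfl⟩ := h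
  obtain ⟨L, R, rfl, e2⟩ : ∃ L R, V = L ++ R ∧ V.rotate n = R ++ L := by
    refine ⟨V.take (n % V.length), V.drop (n % V.length), (List.take_append_drop _ _).symm, ?_⟩
    rw [← List.rotate_mod]
    by_cases hV : V = []
    · subst hV; simp
    · exact List.rotate_eq_drop_append_take (Nat.le_of_lt (Nat.mod_lt _ (List.length_pos_iff.mpr hV)))
  rw [e2, ins_append, ins_append]
  exact List.isRotated_append

theorem dl_rot {a : Ω} {V W : List Ω} (h : V ~r W) : dl a V ~r dl a W := by
  obtain ⟨n, rfl⟩ := h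
  obtain ⟨L, R, rfl, e2⟩ : ∃ L R, V = L ++ R ∧ V.rotate n = R ++ L := by
    refine ⟨V.take (n % V.length), V.drop (n % V.length), (List.take_append_drop _ _).symm, ?_⟩
    rw [← List.rotate_mod]
    by_cases hV : V = []
    · subst hV; simp
    · exact List.rotate_eq_drop_append_take (Nat.le_of_lt (Nat.mod_lt _ (List.length_pos_iff.mpr hV)))
  rw [e2, dl_append, dl_append]
  exact List.isRotated_append

theorem rot_front {z : Ω} {W : List Ω} (h : z ∈ W) : ∃ L, W ~r z :: L := by
  obtain ⟨L, R, rfl⟩ := List.append_of_mem h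
  exact ⟨R ++ L, by simpa using List.isRotated_append (l := L) (l' := z :: R)⟩

theorem fp_ins {y z : Ω} {W : List Ω} (h : W.Nodup) (hz : z ∈ W) (hy : y ∉ W) :
    formPerm (ins y z W) = swap y z * formPerm W := by
  obtain ⟨L, hL⟩ := rot_front hz
  have hn : (z :: L).Nodup := hL.nodup_iff.mp h
  have h1 : ins y z (z :: L) = y :: z :: L := by
    have e : ins y z L = L := ins_id (List.nodup_cons.mp hn).1
    unfold ins at e ⊢
    rw [List.flatMap_cons, e]
    simp
  rw [List.formPerm_eq_of_isRotated (ins_nodup h hy) (ins_rot hL), h1, List.formPerm_cons_cons,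
    List.formPerm_eq_of_isRotated h hL]

theorem fp_dl {a z : Ω} {W : List Ω} (h : W.Nodup) (ha : a ∈ W) (hz : formPerm W a = z) (hne : z ≠ a) :
    formPerm (dl a W) = swap a z * formPerm W := by
  obtain ⟨L, hL⟩ := rot_front ha
  have hn : (a :: L).Nodup := hL.nodup_iff.mp h
  cases L with
  | nil =>
    exfalso
    rw [List.formPerm_eq_of_isRotated h hL] at hz
    simp at hz
    exact hne hz.symm
  | cons b L =>
    have h2 : formPerm W = swap a b * formPerm (b :: L) := by
      rw [List.formPerm_eq_of_isRotated h hL, List.formPerm_cons_cons]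
    have h3 : b = z := by
      rw [← hz, h2, Perm.mul_apply, List.formPerm_apply_of_notMem (List.nodup_cons.mp hn).1, swap_apply_left]
    have h1 : dl a (a :: b :: L) = b :: L := by
      have e : dl a (b :: L) = b :: L := dl_id (List.nodup_cons.mp hn).1
      unfold dl at e ⊢
      rw [List.filter_cons_of_neg (by simp), e]
    rw [List.formPerm_eq_of_isRotated (dl_nodup h) (dl_rot hL), h1, h2, ← h3, ← mul_assoc, swap_mul_self, one_mul]

/-- both words. -/
def D2 (a : Ω) (s : St Ω) : St Ω := (dl a s.1, dl a s.2)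

/-- both words. -/
def I2 (y z : Ω) (s : St Ω) : St Ω := (ins y z s.1, ins y z s.2)

theorem fix_of_disj {s : St Ω} (h : (s.1 ++ s.2).Nodup) {v : Ω} (hv : v ∈ s.2) : v ∉ s.1 :=
  fun h' => (List.nodup_append.mp h).2.2 v h' v hv rfl

theorem sc_I2 {y z : Ω} {s : St Ω} (h : (s.1 ++ s.2).Nodup) (hz : z ∈ s.1 ++ s.2) (hy : y ∉ s.1 ++ s.2) :
    NA.sc (I2 y z s) = swap y z * NA.sc s := by
  have hn1 := (List.nodup_append.mp h).1
  have hn2 := (List.nodup_append.mp h).2.1
  rw [List.mem_append, not_or] at hy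
  unfold NA.sc I2
  by_cases hz1 : z ∈ s.1
  · have hz2 : z ∉ s.2 := fun h' => fix_of_disj h h' hz1
    simp only [fp_ins hn1 hz1 hy.1, ins_id hz2, mul_assoc]
  · have hz2 : z ∈ s.2 := by
      rcases List.mem_append.mp hz with h' | h'
      · exact absurd h' hz1
      · exact h'
    simp only [fp_ins hn2 hz2 hy.2, ins_id hz1]
    rw [← mul_assoc, ← mul_assoc, Equiv.mul_swap_eq_swap_mul, List.formPerm_apply_of_notMem hz1,
      List.formPerm_apply_of_notMem hy.1]

theorem sc_mem1 {s : St Ω} (h : (s.1 ++ s.2).Nodup) {a : Ω} (ha : a ∈ s.1) :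
    NA.sc s a = formPerm s.1 a := by
  unfold NA.sc
  rw [Perm.mul_apply, List.formPerm_apply_of_notMem (fun h' => fix_of_disj h h' ha)]

theorem sc_mem2 {s : St Ω} (h : (s.1 ++ s.2).Nodup) {a : Ω} (ha : a ∈ s.2) :
    NA.sc s a = formPerm s.2 a := by
  unfold NA.sc
  rw [Perm.mul_apply, List.formPerm_apply_of_notMem]
  exact fix_of_disj h (List.formPerm_apply_mem_of_mem ha)

theorem sc_D2 {a z : Ω} {s : St Ω} (h : (s.1 ++ s.2).Nodup) (ha : a ∈ s.1 ++ s.2) (hz : NA.sc s a = z) (hne : z ≠ a) :
    NA.sc (D2 a s) = swap a z * NA.sc s := by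
  have hn1 := (List.nodup_append.mp h).1
  have hn2 := (List.nodup_append.mp h).2.1
  by_cases h1 : a ∈ s.1
  · have h2 : a ∉ s.2 := fun h' => fix_of_disj h h' h1
    have h3 : formPerm s.1 a = z := by rw [← sc_mem1 h h1, hz]
    unfold NA.sc D2
    simp only [fp_dl hn1 h1 h3 hne, dl_id h2, mul_assoc]
  · have h2 : a ∈ s.2 := by
      rcases List.mem_append.mp ha with h' | h'
      · exact absurd h' h1
      · exact h'
    have h3 : formPerm s.2 a = z := by rw [← sc_mem2 h h2, hz]
    have h4 : z ∈ s.2 := by rw [← h3]; exact List.formPerm_apply_mem_of_mem h2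
    have h5 : z ∉ s.1 := fix_of_disj h h4
    unfold NA.sc D2
    simp only [fp_dl hn2 h2 h3 hne, dl_id h1]
    rw [← mul_assoc, ← mul_assoc, Equiv.mul_swap_eq_swap_mul, List.formPerm_apply_of_notMem h1,
      List.formPerm_apply_of_notMem h5]

/-- the image under the move, as deletions and insertions. -/
theorem gr_eq {t X2 Y1 Y2 : Ω} (h1 : t ≠ X2) (h2 : Y1 ≠ X2) (h3 : Y2 ≠ X2) (h4 : Y1 ≠ t) (h5 : Y1 ≠ Y2) (W : List Ω) :
    W.flatMap (gr t X2 Y1 Y2) = ins Y2 X2 (ins t Y1 (dl Y2 (dl t W))) := by
  induction W with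
  | nil => rfl
  | cons a W ih =>
    rw [List.flatMap_cons, ih]
    have hc : ∀ a : Ω, ∀ W : List Ω, dl a W = W.flatMap (fun v => if v = a then [] else [v]) := by
      intro a W
      induction W with
      | nil => rfl
      | cons b W ih =>
        rw [List.flatMap_cons, ← ih]
        unfold dl
        by_cases hb : b = a
        · rw [List.filter_cons_of_neg (by simp [hb]), if_pos hb, List.nil_append]
        · rw [List.filter_cons_of_pos (by simp [hb]), if_neg hb]; rfl
    have e : ∀ W : List Ω, dl t (a :: W) = dl t [a] ++ dl t W := fun W => by rw [← dl_append]; rfl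
    rw [e, dl_append, ins_append, ins_append]
    congr 1
    by_cases ht : a = t
    · subst ht
      simp [gr, dl, ins]
    by_cases hy : a = Y2
    · subst hy
      simp [gr, dl, ins]
    by_cases hx : a = X2
    · subst hx
      simp [gr, dl, ins, ht, hy, h2.symm]
    by_cases hy1 : a = Y1
    · subst hy1
      simp [gr, dl, ins, ht, hy, hx, h1]
    · simp [gr, dl, ins, ht, hy, hx, hy1]

end Pool.Agent.helper32.RH
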