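import Pool.Agent.helper14.NTN.PartF
import Pool.Agent.helper32.RH.Fix3

/-!
# MP_c8d30a: Q1 literally from Part I and Part II
-/

set_option autoImplicit false

namespace Pool.Agent.helper32.RH

open NTH
open Pool.Agent.helper36.WE (Eqn Quadratic size PathLen)

theorem fix3 : NTH.FIX3 11 := by
  intro Ω _ p f s hw hi hl hr hf hD
  obtain ⟨s', h1, _, h2, h3⟩ := Pool.Agent.helper32.RH.FIX3 hw hi hl hr hf hD
  exact ⟨s', h1, h2, h3⟩

/-- **Q1 literally** from the two parts. -/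
theorem Q1_of_parts {c K C1 C2 : ℕ} (h1 : PartI K C1) (h2 : PartII c K C2) (hc : 1200 ≤ c) (hK : 1 ≤ K) :
    ∃ C : ℕ, ∀ (X A : Type) [DecidableEq X] [DecidableEq A] (E v₁ v₂ : Eqn X A), Quadratic E →
      Pool.Agent.helper36.WE.Reach E v₁ → Pool.Agent.helper36.WE.Reach v₁ v₂ →
        ∃ n, n ≤ C * size E ^ 12 ∧ PathLen n v₁ v₂ :=
  NTH.Q1_of_fix3 fix3 h1 h2 hc hK

end Pool.Agent.helper32.RH
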