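import Pool.Agent.helper32.RH.Data
import Pool.Agent.helper3.NTH.Hub

/-!
# MP_c8d30a, exponent 12: from tables to lists
-/

set_option autoImplicit false

namespace Pool.Agent.helper32.RH

open NTH

universe u
variable {Ω : Type u} {p : Ω → Ω}

/-- the tokens of the atoms, from representatives of the letters. -/
def tk (p : Ω → Ω) (a : ℕ → Ω) (n : ℕ) : Ω := if n % 2 = 0 then a (n / 2) else p (a (n / 2))

theorem xor_facts : ∀ n : ℕ, n < 64 → (n ^^^ 1) % 2 = 1 - n % 2 ∧ (n ^^^ 1) / 2 = n / 2 := by decide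

theorem tk_xor (hp : ∀ t, p (p t) = t) (a : ℕ → Ω) (n : ℕ) (hn : n < 64) : tk p a (n ^^^ 1) = p (tk p a n) := by
  obtain ⟨h1, h2⟩ := xor_facts n hn
  unfold tk
  rw [h1, h2]
  rcases Nat.mod_two_eq_zero_or_one n with h | h
  · rw [h]; simp
  · rw [h]; simp [hp]

/-- different letters. -/
def LD (p : Ω → Ω) (l : List Ω) : Prop := l.Pairwise (fun u v => u ≠ v ∧ u ≠ p v)

theorem tk_inj (hp : ∀ t, p (p t) = t) (hne : ∀ t, p t ≠ t) (a : ℕ → Ω) (S : List ℕ) (hS : LD p (S.map a)) {m n : ℕ}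
    (hm : m / 2 ∈ S) (hn : n / 2 ∈ S) (h : tk p a m = tk p a n) : m = n := by
  have key : m / 2 = n / 2 := by
    by_contra hmn
    unfold LD at hS
    rw [List.pairwise_map] at hS
    haveI : Std.Symm (fun i j => a i ≠ a j ∧ a i ≠ p (a j)) := ⟨fun i j h => ⟨fun e => h.1 e.symm, fun e => h.2 (by rw [e, hp])⟩⟩
    obtain ⟨h1, h2⟩ := List.Pairwise.forall hS hm hn hmn
    unfold tk at h
    split_ifs at h
    · exact h1 h
    · exact h2 h
    · exact h2 (by rw [← h, hp])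
    · exact h1 (by rw [← hp (a (m / 2)), h, hp])
  have h3 : m % 2 = n % 2 := by
    unfold tk at h
    rw [key] at h
    rcases Nat.mod_two_eq_zero_or_one m with h1 | h1 <;> rcases Nat.mod_two_eq_zero_or_one n with h2 | h2 <;>
      rw [h1, h2] at h ⊢
    · simp at h
      exact absurd h.symm (hne _)
    · simp at h
      exact absurd h (hne _)
  omega

/-- the explicit atoms. -/
def TD.at (T : TD) : List ℕ := (T.P1 ++ T.us.flatten ++ T.S1) ++ (T.P2 ++ T.vs.flatten ++ T.S2)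

/-- the conditions on a table. -/
def TD.good (T : TD) (S : List ℕ) : Prop :=
  T.at.Nodup ∧ (∀ m ∈ T.at, m < 64 ∧ m / 2 ∈ S) ∧ (∀ u ∈ T.us, u ≠ []) ∧ (∀ u ∈ T.vs, u ≠ []) ∧
    (∀ m ∈ [0, 3, 4, 5], m ∈ T.at)

instance (T : TD) (S : List ℕ) : Decidable (T.good S) := by unfold TD.good; infer_instance

theorem mem_wn {u : List ℕ} {m : ℕ} (hm : m ∈ u) : ∀ {us : List (List ℕ)} (o : ℕ), u ∈ us → m ∈ wn o us := by
  intro us
  induction us with
  | nil => intro o h; simp at h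
  | cons v us ih =>
    intro o h
    rw [wn]
    rcases List.mem_cons.mp h with rfl | h
    · exact List.mem_cons_of_mem _ (List.mem_append_left _ hm)
    · exact List.mem_cons_of_mem _ (List.mem_append_right _ (ih (o + 1) h))

/-- **from a table to lists**. -/
theorem TD.rho {T : TD} {K : ℕ} {rts : List (ℕ × ℕ)} (h : T.chk K rts = true) (S : List ℕ) (hw : T.good S)
    (hp : ∀ t, p (p t) = t) (hne : ∀ t, p t ≠ t) (a : ℕ → Ω) (hS : LD p (S.map a)) (X Y : List Ω)
    (hX : ∀ u ∈ T.us, u.map (tk p a) <:+: X) (hY : ∀ u ∈ T.vs, u.map (tk p a) <:+: Y)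
    (hnd : ((T.P1.map (tk p a) ++ (X ++ T.S1.map (tk p a))) ++ (T.P2.map (tk p a) ++ (Y ++ T.S2.map (tk p a)))).Nodup) :
    (Rn p (N p) K (T.P1.map (tk p a) ++ (X ++ T.S1.map (tk p a)), T.P2.map (tk p a) ++ (Y ++ T.S2.map (tk p a)))
      ((T.P1.map (tk p a) ++ (X ++ T.S1.map (tk p a))).flatMap (gr (tk p a 0) (tk p a 3) (tk p a 4) (tk p a 5)),
        (T.P2.map (tk p a) ++ (Y ++ T.S2.map (tk p a))).flatMap (gr (tk p a 0) (tk p a 3) (tk p a 4) (tk p a 5)))) ∧
    (Rn p (N p) K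
      ((T.P1.map (tk p a) ++ (X ++ T.S1.map (tk p a))).flatMap (gr (tk p a 0) (tk p a 3) (tk p a 4) (tk p a 5)),
        (T.P2.map (tk p a) ++ (Y ++ T.S2.map (tk p a))).flatMap (gr (tk p a 0) (tk p a 3) (tk p a 4) (tk p a 5)))
      (T.P1.map (tk p a) ++ (X ++ T.S1.map (tk p a)), T.P2.map (tk p a) ++ (Y ++ T.S2.map (tk p a)))) := by
  obtain ⟨g1, g2, g3, g4, g5⟩ := hw
  set τ := tk p a with hτd
  have hτ : ∀ t, t < 64 → τ (t ^^^ 1) = p (τ t) := fun t ht => tk_xor hp a t ht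
  have hmap : (T.at.map τ).Nodup := List.Nodup.map_on (fun m hm n hn e =>
    tk_inj hp hne a S hS (g2 m hm).2 (g2 n hn).2 e) g1
  have hus : ∀ u ∈ T.us, ∀ m ∈ u, m ∈ T.at := by
    intro u hu m hm
    unfold TD.at
    simp only [List.mem_append, List.mem_flatten]
    exact Or.inl (Or.inl (Or.inr ⟨u, hu, hm⟩))
  have hvs : ∀ u ∈ T.vs, ∀ m ∈ u, m ∈ T.at := by
    intro u hu m hm
    unfold TD.at
    simp only [List.mem_append, List.mem_flatten]
    exact Or.inr (Or.inl (Or.inr ⟨u, hu, hm⟩))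
  have hP1 : ∀ m ∈ T.P1, m ∈ T.at := by
    intro m hm; unfold TD.at; simp only [List.mem_append]; exact Or.inl (Or.inl (Or.inl hm))
  have hS1 : ∀ m ∈ T.S1, m ∈ T.at := by
    intro m hm; unfold TD.at; simp only [List.mem_append]; exact Or.inl (Or.inr hm)
  have hP2 : ∀ m ∈ T.P2, m ∈ T.at := by
    intro m hm; unfold TD.at; simp only [List.mem_append]; exact Or.inr (Or.inl (Or.inl hm))
  have hS2 : ∀ m ∈ T.S2, m ∈ T.at := by
    intro m hm; unfold TD.at; simp only [List.mem_append]; exact Or.inr (Or.inr hm)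
  have hpw : ∀ L : List (List ℕ), (L.flatten.map τ).Nodup → (L.map (List.map τ)).Pairwise (fun u v => ∀ t ∈ v, t ∉ u) := by
    intro L hL
    rw [List.map_flatten, List.nodup_flatten] at hL
    refine List.Pairwise.imp ?_ hL.2
    intro u v h t ht1 ht2
    exact h ht2 ht1
  have hmu : (T.us.flatten.map τ).Nodup := by
    refine List.Nodup.sublist ?_ hmap
    apply List.Sublist.map
    unfold TD.at
    refine List.Sublist.trans ?_ (List.sublist_append_left _ _)
    refine List.Sublist.trans ?_ (List.sublist_append_left _ _)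
    exact List.sublist_append_right _ _
  have hmv : (T.vs.flatten.map τ).Nodup := by
    refine List.Nodup.sublist ?_ hmap
    apply List.Sublist.map
    unfold TD.at
    refine List.Sublist.trans ?_ (List.sublist_append_right _ _)
    refine List.Sublist.trans ?_ (List.sublist_append_left _ _)
    exact List.sublist_append_right _ _
  obtain ⟨us', h1, vs', h2, σ, h3, h4⟩ := splitter' τ T.us T.vs X Y (fun u hu m hm => (g2 m (hus u hu m hm)).1)
    (fun u hu m hm => (g2 m (hvs u hu m hm)).1) g3 g4 (hpw _ hmu) (hpw _ hmv) hX hY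
  obtain ⟨k1, k2, h5, h6⟩ := TD.chk_ok h h1 h2
  have eU : T.P1.map τ ++ (X ++ T.S1.map τ) = vl τ σ (T.U us') := by
    unfold TD.U
    rw [vl_append, vl_append, vl_units τ σ (fun m hm => (g2 m (hP1 m hm)).1), vl_units τ σ (fun m hm => (g2 m (hS1 m hm)).1), h3]
  have eV : T.P2.map τ ++ (Y ++ T.S2.map τ) = vl τ σ (T.V vs') := by
    unfold TD.V
    rw [vl_append, vl_append, vl_units τ σ (fun m hm => (g2 m (hP2 m hm)).1), vl_units τ σ (fun m hm => (g2 m (hS2 m hm)).1), h4]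
  rw [eU, eV] at hnd ⊢
  rw [← vl_append] at hnd
  have hin : ∀ m ∈ T.at, m ∈ T.U us' ++ T.V vs' := by
    intro m hm
    unfold TD.at at hm
    unfold TD.U TD.V
    simp only [List.mem_append, List.mem_flatten] at hm ⊢
    rcases hm with ((hm | ⟨u, hu, hm⟩) | hm) | ((hm | ⟨u, hu, hm⟩) | hm)
    · exact Or.inl (Or.inl hm)
    · exact Or.inl (Or.inr (Or.inl (mem_wn hm 0 ((List.mem_permutations'.mp h1).mem_iff.mpr hu))))
    · exact Or.inl (Or.inr (Or.inr hm))
    · exact Or.inr (Or.inl hm)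
    · exact Or.inr (Or.inr (Or.inl (mem_wn hm _ ((List.mem_permutations'.mp h2).mem_iff.mpr hu))))
    · exact Or.inr (Or.inr (Or.inr hm))
  have m0 := hin 0 (g5 0 (by simp))
  have m3 := hin 3 (g5 3 (by simp))
  have m4 := hin 4 (g5 4 (by simp))
  have m5 := hin 5 (g5 5 (by simp))
  rw [vl_fl τ σ hnd m0 m3 m4 m5 (fun m hm => List.mem_append_left _ hm),
    vl_fl τ σ hnd m0 m3 m4 m5 (fun m hm => List.mem_append_right _ hm)]
  exact ⟨ok_sound h5 τ σ hτ, ok_sound h6 τ σ hτ⟩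

end Pool.Agent.helper32.RH
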