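import Pool.Agent.helper32.RH.RhoL

/-!
# MP_c8d30a, exponent 12: the move in list form

`t` directly before `x`, `p y` directly before `p t`; `t` goes before `y`, `p y` goes before `p x`.
-/

set_option autoImplicit false

namespace Pool.Agent.helper32.RH

open NTH

universe u
variable {Ω : Type u} {p : Ω → Ω}

theorem inf1 {d : Ω} {X : List Ω} (h : d ∈ X) : [d] <:+: X := by
  obtain ⟨l, r, rfl⟩ := List.append_of_mem h
  exact ⟨l, r, by simp⟩

theorem rAAmm (hp : ∀ t, p (p t) = t) (hne : ∀ t, p t ≠ t) {t x y d z f e : Ω} {X Y : List Ω}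
    (hL : LD p [t, x, y, d, z, f, e]) (h1 : [t, x] <:+: X) (h2 : [p y, p t] <:+: X) (h3 : d ∈ X) (h4 : p d ∈ X) (h5 : p x ∈ Y) (h6 : y ∈ Y) (h7 : z ∈ Y) (h8 : p z ∈ Y)
    (hnd : ((p f :: (X ++ [p e])) ++ (e :: (Y ++ [f]))).Nodup) :
    RTn p 6 (p f :: (X ++ [p e]), e :: (Y ++ [f])) ((p f :: (X ++ [p e])).flatMap (gr t (p x) y (p y)), (e :: (Y ++ [f])).flatMap (gr t (p x) y (p y))) := by
  have h := TD.rho c_AAmm [0, 1, 2, 3, 4, 5, 6] (by decide +kernel) hp hne (fun n => [t, x, y, d, z, f, e].getD n t) hL X Y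
    (by
      intro u hu
      simp only [T_AAmm, List.mem_cons, List.not_mem_nil, or_false] at hu
      rcases hu with rfl | rfl | rfl | rfl
      · exact h1
      · exact h2
      · exact inf1 h3
      · exact inf1 h4
      )
    (by
      intro u hu
      simp only [T_AAmm, List.mem_cons, List.not_mem_nil, or_false] at hu
      rcases hu with rfl | rfl | rfl | rfl
      · exact inf1 h5
      · exact inf1 h6
      · exact inf1 h7
      · exact inf1 h8
      )
    hnd
  exact h

theorem rAAmk (hp : ∀ t, p (p t) = t) (hne : ∀ t, p t ≠ t) {t x y z f e : Ω} {X Y : List Ω}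
    (hL : LD p [t, x, y, z, f, e]) (h1 : [t, x] <:+: X) (h2 : [p y, p t] <:+: X) (h3 : y ∈ X) (h4 : p x ∈ Y) (h5 : z ∈ Y) (h6 : p z ∈ Y)
    (hnd : ((p f :: (X ++ [p e])) ++ (e :: (Y ++ [f]))).Nodup) :
    RTn p 6 (p f :: (X ++ [p e]), e :: (Y ++ [f])) ((p f :: (X ++ [p e])).flatMap (gr t (p x) y (p y)), (e :: (Y ++ [f])).flatMap (gr t (p x) y (p y))) := by
  have h := TD.rho c_AAmk [0, 1, 2, 4, 5, 6] (by decide +kernel) hp hne (fun n => [t, x, y, z, z, f, e].getD n t) hL X Y
    (by
      intro u hu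
      simp only [T_AAmk, List.mem_cons, List.not_mem_nil, or_false] at hu
      rcases hu with rfl | rfl | rfl
      · exact h1
      · exact h2
      · exact inf1 h3
      )
    (by
      intro u hu
      simp only [T_AAmk, List.mem_cons, List.not_mem_nil, or_false] at hu
      rcases hu with rfl | rfl | rfl
      · exact inf1 h4
      · exact inf1 h5
      · exact inf1 h6
      )
    hnd
  exact h

theorem rAAkm (hp : ∀ t, p (p t) = t) (hne : ∀ t, p t ≠ t) {t x y z f e : Ω} {X Y : List Ω}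
    (hL : LD p [t, x, y, z, f, e]) (h1 : [t, x] <:+: X) (h2 : [p y, p t] <:+: X) (h3 : p x ∈ X) (h4 : y ∈ Y) (h5 : z ∈ Y) (h6 : p z ∈ Y)
    (hnd : ((p f :: (X ++ [p e])) ++ (e :: (Y ++ [f]))).Nodup) :
    RTn p 6 (p f :: (X ++ [p e]), e :: (Y ++ [f])) ((p f :: (X ++ [p e])).flatMap (gr t (p x) y (p y)), (e :: (Y ++ [f])).flatMap (gr t (p x) y (p y))) := by
  have h := TD.rho c_AAkm [0, 1, 2, 4, 5, 6] (by decide +kernel) hp hne (fun n => [t, x, y, z, z, f, e].getD n t) hL X Y
    (by
      intro u hu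
      simp only [T_AAkm, List.mem_cons, List.not_mem_nil, or_false] at hu
      rcases hu with rfl | rfl | rfl
      · exact h1
      · exact h2
      · exact inf1 h3
      )
    (by
      intro u hu
      simp only [T_AAkm, List.mem_cons, List.not_mem_nil, or_false] at hu
      rcases hu with rfl | rfl | rfl
      · exact inf1 h4
      · exact inf1 h5
      · exact inf1 h6
      )
    hnd
  exact h

theorem rAAkk (hp : ∀ t, p (p t) = t) (hne : ∀ t, p t ≠ t) {t x y z f e : Ω} {X Y : List Ω}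
    (hL : LD p [t, x, y, z, f, e]) (h1 : [t, x] <:+: X) (h2 : [p y, p t] <:+: X) (h3 : p x ∈ X) (h4 : y ∈ X) (h5 : z ∈ Y) (h6 : p z ∈ Y)
    (hnd : ((p f :: (X ++ [p e])) ++ (e :: (Y ++ [f]))).Nodup) :
    RTn p 6 (p f :: (X ++ [p e]), e :: (Y ++ [f])) ((p f :: (X ++ [p e])).flatMap (gr t (p x) y (p y)), (e :: (Y ++ [f])).flatMap (gr t (p x) y (p y))) := by
  have h := TD.rho c_AAkk [0, 1, 2, 4, 5, 6] (by decide +kernel) hp hne (fun n => [t, x, y, z, z, f, e].getD n t) hL X Y
    (by
      intro u hu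
      simp only [T_AAkk, List.mem_cons, List.not_mem_nil, or_false] at hu
      rcases hu with rfl | rfl | rfl | rfl
      · exact h1
      · exact h2
      · exact inf1 h3
      · exact inf1 h4
      )
    (by
      intro u hu
      simp only [T_AAkk, List.mem_cons, List.not_mem_nil, or_false] at hu
      rcases hu with rfl | rfl
      · exact inf1 h5
      · exact inf1 h6
      )
    hnd
  exact h

theorem rABkk (hp : ∀ t, p (p t) = t) (hne : ∀ t, p t ≠ t) {t x y f e : Ω} {X Y : List Ω}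
    (hL : LD p [t, x, y, f, e]) (h1 : [t, x] <:+: X) (h2 : p x ∈ X) (h3 : [p y, p t] <:+: Y) (h4 : y ∈ Y)
    (hnd : ((p f :: (X ++ [p e])) ++ (e :: (Y ++ [f]))).Nodup) :
    RTn p 6 (p f :: (X ++ [p e]), e :: (Y ++ [f])) ((p f :: (X ++ [p e])).flatMap (gr t (p x) y (p y)), (e :: (Y ++ [f])).flatMap (gr t (p x) y (p y))) := by
  have h := TD.rho c_ABkk [0, 1, 2, 5, 6] (by decide +kernel) hp hne (fun n => [t, x, y, t, t, f, e].getD n t) hL X Y
    (by
      intro u hu
      simp only [T_ABkk, List.mem_cons, List.not_mem_nil, or_false] at hu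
      rcases hu with rfl | rfl
      · exact h1
      · exact inf1 h2
      )
    (by
      intro u hu
      simp only [T_ABkk, List.mem_cons, List.not_mem_nil, or_false] at hu
      rcases hu with rfl | rfl
      · exact h3
      · exact inf1 h4
      )
    hnd
  exact h

theorem rAAmmf (hp : ∀ t, p (p t) = t) (hne : ∀ t, p t ≠ t) {t x y d z e : Ω} {X Y : List Ω}
    (hL : LD p [t, x, y, d, z, e]) (h1 : [p y, p t] <:+: X) (h2 : d ∈ X) (h3 : p d ∈ X) (h4 : y ∈ Y) (h5 : z ∈ Y) (h6 : p z ∈ Y)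
    (hnd : ((x :: (X ++ [t, p e])) ++ (e :: (Y ++ [p x]))).Nodup) :
    RTn p 6 (x :: (X ++ [t, p e]), e :: (Y ++ [p x])) ((x :: (X ++ [t, p e])).flatMap (gr t (p x) y (p y)), (e :: (Y ++ [p x])).flatMap (gr t (p x) y (p y))) := by
  have h := TD.rho c_AAmmf [0, 1, 2, 3, 4, 6] (by decide +kernel) hp hne (fun n => [t, x, y, d, z, t, e].getD n t) hL X Y
    (by
      intro u hu
      simp only [T_AAmmf, List.mem_cons, List.not_mem_nil, or_false] at hu
      rcases hu with rfl | rfl | rfl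
      · exact h1
      · exact inf1 h2
      · exact inf1 h3
      )
    (by
      intro u hu
      simp only [T_AAmmf, List.mem_cons, List.not_mem_nil, or_false] at hu
      rcases hu with rfl | rfl | rfl
      · exact inf1 h4
      · exact inf1 h5
      · exact inf1 h6
      )
    hnd
  exact h

theorem rAAmkf (hp : ∀ t, p (p t) = t) (hne : ∀ t, p t ≠ t) {t x y z e : Ω} {X Y : List Ω}
    (hL : LD p [t, x, y, z, e]) (h1 : [p y, p t] <:+: X) (h2 : y ∈ X) (h3 : z ∈ Y) (h4 : p z ∈ Y)
    (hnd : ((x :: (X ++ [t, p e])) ++ (e :: (Y ++ [p x]))).Nodup) :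
    RTn p 6 (x :: (X ++ [t, p e]), e :: (Y ++ [p x])) ((x :: (X ++ [t, p e])).flatMap (gr t (p x) y (p y)), (e :: (Y ++ [p x])).flatMap (gr t (p x) y (p y))) := by
  have h := TD.rho c_AAmkf [0, 1, 2, 4, 6] (by decide +kernel) hp hne (fun n => [t, x, y, z, z, t, e].getD n t) hL X Y
    (by
      intro u hu
      simp only [T_AAmkf, List.mem_cons, List.not_mem_nil, or_false] at hu
      rcases hu with rfl | rfl
      · exact h1
      · exact inf1 h2
      )
    (by
      intro u hu
      simp only [T_AAmkf, List.mem_cons, List.not_mem_nil, or_false] at hu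
      rcases hu with rfl | rfl
      · exact inf1 h3
      · exact inf1 h4
      )
    hnd
  exact h

theorem rBBmmf (hp : ∀ t, p (p t) = t) (hne : ∀ t, p t ≠ t) {t x y d z e : Ω} {X Y : List Ω}
    (hL : LD p [t, x, y, d, z, e]) (h1 : y ∈ X) (h2 : d ∈ X) (h3 : p d ∈ X) (h4 : [p y, p t] <:+: Y) (h5 : z ∈ Y) (h6 : p z ∈ Y)
    (hnd : ((p x :: (X ++ [p e])) ++ (e :: (Y ++ [t, x]))).Nodup) :
    RTn p 6 (p x :: (X ++ [p e]), e :: (Y ++ [t, x])) ((p x :: (X ++ [p e])).flatMap (gr t (p x) y (p y)), (e :: (Y ++ [t, x])).flatMap (gr t (p x) y (p y))) := by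
  have h := TD.rho c_BBmmf [0, 1, 2, 3, 4, 6] (by decide +kernel) hp hne (fun n => [t, x, y, d, z, t, e].getD n t) hL X Y
    (by
      intro u hu
      simp only [T_BBmmf, List.mem_cons, List.not_mem_nil, or_false] at hu
      rcases hu with rfl | rfl | rfl
      · exact inf1 h1
      · exact inf1 h2
      · exact inf1 h3
      )
    (by
      intro u hu
      simp only [T_BBmmf, List.mem_cons, List.not_mem_nil, or_false] at hu
      rcases hu with rfl | rfl | rfl
      · exact h4
      · exact inf1 h5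
      · exact inf1 h6
      )
    hnd
  exact h

theorem rBBmkf (hp : ∀ t, p (p t) = t) (hne : ∀ t, p t ≠ t) {t x y d e : Ω} {X Y : List Ω}
    (hL : LD p [t, x, y, d, e]) (h1 : d ∈ X) (h2 : p d ∈ X) (h3 : [p y, p t] <:+: Y) (h4 : y ∈ Y)
    (hnd : ((p x :: (X ++ [p e])) ++ (e :: (Y ++ [t, x]))).Nodup) :
    RTn p 6 (p x :: (X ++ [p e]), e :: (Y ++ [t, x])) ((p x :: (X ++ [p e])).flatMap (gr t (p x) y (p y)), (e :: (Y ++ [t, x])).flatMap (gr t (p x) y (p y))) := by
  have h := TD.rho c_BBmkf [0, 1, 2, 3, 6] (by decide +kernel) hp hne (fun n => [t, x, y, d, t, t, e].getD n t) hL X Y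
    (by
      intro u hu
      simp only [T_BBmkf, List.mem_cons, List.not_mem_nil, or_false] at hu
      rcases hu with rfl | rfl
      · exact inf1 h1
      · exact inf1 h2
      )
    (by
      intro u hu
      simp only [T_BBmkf, List.mem_cons, List.not_mem_nil, or_false] at hu
      rcases hu with rfl | rfl
      · exact h3
      · exact inf1 h4
      )
    hnd
  exact h

end Pool.Agent.helper32.RH
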