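import Pool.Agent.helper32.RH.DataG

/-!
# MP_c8d30a, exponent 12: creation, and the case X1 = Y2, in list form
-/

set_option autoImplicit false

namespace Pool.Agent.helper32.RH

open NTH

universe u
variable {Ω : Type u} {p : Ω → Ω}

/-- the move in the case `X1 = Y2`. -/
noncomputable def gq (c1 Y1 Y2 : Ω) (t : Ω) : List Ω := by
  classical
  exact if t = c1 then [] else if t = Y2 then [] else if t = Y1 then [Y2, c1, Y1] else [t]

theorem grG_R (τ : ℕ → Ω) : grG τ [(0, []), (5, []), (3, [5, 3]), (4, [0, 4])] = gr (τ 0) (τ 3) (τ 4) (τ 5) := by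
  funext v
  simp only [grG, gr, List.map_cons, List.map_nil]

theorem grG_Q (τ : ℕ → Ω) : grG τ [(0, []), (5, []), (4, [5, 0, 4])] = gq (τ 0) (τ 4) (τ 5) := by
  funext v
  simp only [grG, gq, List.map_cons, List.map_nil]

theorem rABmk (hp : ∀ t, p (p t) = t) (hne : ∀ t, p t ≠ t) {t x y d f e : Ω} {X Y : List Ω}
    (hL : LD p [t, x, y, d, f, e]) (h1 : [t, x] <:+: X) (h2 : d ∈ X) (h3 : p d ∈ X) (h4 : [p y, p t] <:+: Y) (h5 : y ∈ Y) (h6 : p x ∈ Y)
    (hnd : ((p f :: (X ++ [p e])) ++ (e :: (Y ++ [f]))).Nodup) :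
    RTn p 6 (p f :: (X ++ [p e]), e :: (Y ++ [f])) ((p f :: (X ++ [p e])).flatMap (gr t (p x) y (p y)), (e :: (Y ++ [f])).flatMap (gr t (p x) y (p y))) := by
  have h := TG.rho c_ABmk [0, 1, 2, 3, 5, 6] (by decide +kernel) hp hne (fun n => [t, x, y, d, t, f, e].getD n t) hL X Y
    (by
      intro u hu
      simp only [T_ABmk, List.mem_cons, List.not_mem_nil, or_false] at hu
      rcases hu with rfl | rfl | rfl
      · exact h1
      · exact inf1 h2
      · exact inf1 h3
      )
    (by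
      intro u hu
      simp only [T_ABmk, List.mem_cons, List.not_mem_nil, or_false] at hu
      rcases hu with rfl | rfl | rfl
      · exact h4
      · exact inf1 h5
      · exact inf1 h6
      )
    hnd
  simp only [T_ABmk] at h
  rw [grG_R] at h
  exact h

theorem rABkm (hp : ∀ t, p (p t) = t) (hne : ∀ t, p t ≠ t) {t x y z f e : Ω} {X Y : List Ω}
    (hL : LD p [t, x, y, z, f, e]) (h1 : [t, x] <:+: X) (h2 : p x ∈ X) (h3 : y ∈ X) (h4 : [p y, p t] <:+: Y) (h5 : z ∈ Y) (h6 : p z ∈ Y)
    (hnd : ((p f :: (X ++ [p e])) ++ (e :: (Y ++ [f]))).Nodup) :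
    RTn p 6 (p f :: (X ++ [p e]), e :: (Y ++ [f])) ((p f :: (X ++ [p e])).flatMap (gr t (p x) y (p y)), (e :: (Y ++ [f])).flatMap (gr t (p x) y (p y))) := by
  have h := TG.rho c_ABkm [0, 1, 2, 4, 5, 6] (by decide +kernel) hp hne (fun n => [t, x, y, t, z, f, e].getD n t) hL X Y
    (by
      intro u hu
      simp only [T_ABkm, List.mem_cons, List.not_mem_nil, or_false] at hu
      rcases hu with rfl | rfl | rfl
      · exact h1
      · exact inf1 h2
      · exact inf1 h3
      )
    (by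
      intro u hu
      simp only [T_ABkm, List.mem_cons, List.not_mem_nil, or_false] at hu
      rcases hu with rfl | rfl | rfl
      · exact h4
      · exact inf1 h5
      · exact inf1 h6
      )
    hnd
  simp only [T_ABkm] at h
  rw [grG_R] at h
  exact h

theorem rABmkf (hp : ∀ t, p (p t) = t) (hne : ∀ t, p t ≠ t) {t x y d e : Ω} {X Y : List Ω}
    (hL : LD p [t, x, y, d, e]) (h1 : d ∈ X) (h2 : p d ∈ X) (h3 : [p y, p t] <:+: Y) (h4 : y ∈ Y)
    (hnd : ((x :: (X ++ [t, p e])) ++ (e :: (Y ++ [p x]))).Nodup) :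
    RTn p 6 (x :: (X ++ [t, p e]), e :: (Y ++ [p x])) ((x :: (X ++ [t, p e])).flatMap (gr t (p x) y (p y)), (e :: (Y ++ [p x])).flatMap (gr t (p x) y (p y))) := by
  have h := TG.rho c_ABmkf [0, 1, 2, 3, 6] (by decide +kernel) hp hne (fun n => [t, x, y, d, t, t, e].getD n t) hL X Y
    (by
      intro u hu
      simp only [T_ABmkf, List.mem_cons, List.not_mem_nil, or_false] at hu
      rcases hu with rfl | rfl
      · exact inf1 h1
      · exact inf1 h2
      )
    (by
      intro u hu
      simp only [T_ABmkf, List.mem_cons, List.not_mem_nil, or_false] at hu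
      rcases hu with rfl | rfl
      · exact h3
      · exact inf1 h4
      )
    hnd
  simp only [T_ABmkf] at h
  rw [grG_R] at h
  exact h

theorem rBAmkf (hp : ∀ t, p (p t) = t) (hne : ∀ t, p t ≠ t) {t x y z e : Ω} {X Y : List Ω}
    (hL : LD p [t, x, y, z, e]) (h1 : [p y, p t] <:+: X) (h2 : y ∈ X) (h3 : z ∈ Y) (h4 : p z ∈ Y)
    (hnd : ((p x :: (X ++ [p e])) ++ (e :: (Y ++ [t, x]))).Nodup) :
    RTn p 6 (p x :: (X ++ [p e]), e :: (Y ++ [t, x])) ((p x :: (X ++ [p e])).flatMap (gr t (p x) y (p y)), (e :: (Y ++ [t, x])).flatMap (gr t (p x) y (p y))) := by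
  have h := TG.rho c_BAmkf [0, 1, 2, 4, 6] (by decide +kernel) hp hne (fun n => [t, x, y, t, z, t, e].getD n t) hL X Y
    (by
      intro u hu
      simp only [T_BAmkf, List.mem_cons, List.not_mem_nil, or_false] at hu
      rcases hu with rfl | rfl
      · exact h1
      · exact inf1 h2
      )
    (by
      intro u hu
      simp only [T_BAmkf, List.mem_cons, List.not_mem_nil, or_false] at hu
      rcases hu with rfl | rfl
      · exact inf1 h3
      · exact inf1 h4
      )
    hnd
  simp only [T_BAmkf] at h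
  rw [grG_R] at h
  exact h

theorem rQAm (hp : ∀ t, p (p t) = t) (hne : ∀ t, p t ≠ t) {t y d z f e : Ω} {X Y : List Ω}
    (hL : LD p [t, y, d, z, f, e]) (h1 : [t, p y, p t] <:+: X) (h2 : d ∈ X) (h3 : p d ∈ X) (h4 : y ∈ Y) (h5 : z ∈ Y) (h6 : p z ∈ Y)
    (hnd : ((p f :: (X ++ [p e])) ++ (e :: (Y ++ [f]))).Nodup) :
    RTn p 6 (p f :: (X ++ [p e]), e :: (Y ++ [f])) ((p f :: (X ++ [p e])).flatMap (gq t y (p y)), (e :: (Y ++ [f])).flatMap (gq t y (p y))) := by
  have h := TG.rho c_QAm [0, 2, 3, 4, 5, 6] (by decide +kernel) hp hne (fun n => [t, t, y, d, z, f, e].getD n t) hL X Y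
    (by
      intro u hu
      simp only [T_QAm, List.mem_cons, List.not_mem_nil, or_false] at hu
      rcases hu with rfl | rfl | rfl
      · exact h1
      · exact inf1 h2
      · exact inf1 h3
      )
    (by
      intro u hu
      simp only [T_QAm, List.mem_cons, List.not_mem_nil, or_false] at hu
      rcases hu with rfl | rfl | rfl
      · exact inf1 h4
      · exact inf1 h5
      · exact inf1 h6
      )
    hnd
  simp only [T_QAm] at h
  rw [grG_Q] at h
  exact h

theorem rQAk (hp : ∀ t, p (p t) = t) (hne : ∀ t, p t ≠ t) {t y z f e : Ω} {X Y : List Ω}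
    (hL : LD p [t, y, z, f, e]) (h1 : [t, p y, p t] <:+: X) (h2 : y ∈ X) (h3 : z ∈ Y) (h4 : p z ∈ Y)
    (hnd : ((p f :: (X ++ [p e])) ++ (e :: (Y ++ [f]))).Nodup) :
    RTn p 6 (p f :: (X ++ [p e]), e :: (Y ++ [f])) ((p f :: (X ++ [p e])).flatMap (gq t y (p y)), (e :: (Y ++ [f])).flatMap (gq t y (p y))) := by
  have h := TG.rho c_QAk [0, 2, 4, 5, 6] (by decide +kernel) hp hne (fun n => [t, t, y, t, z, f, e].getD n t) hL X Y
    (by
      intro u hu
      simp only [T_QAk, List.mem_cons, List.not_mem_nil, or_false] at hu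
      rcases hu with rfl | rfl
      · exact h1
      · exact inf1 h2
      )
    (by
      intro u hu
      simp only [T_QAk, List.mem_cons, List.not_mem_nil, or_false] at hu
      rcases hu with rfl | rfl
      · exact inf1 h3
      · exact inf1 h4
      )
    hnd
  simp only [T_QAk] at h
  rw [grG_Q] at h
  exact h

end Pool.Agent.helper32.RH
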