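import Pool.Agent.helper32.RH.Eng

/-!
# MP_c8d30a, exponent 12: the splitter

A word with explicit units (short words of explicit tokens) is a symbolic word: blocks in all gaps,
the units in the order in which they occur. The order is a member of `permutations'` of the list of
the units, so a statement about all orders can be checked by evaluation.
-/

set_option autoImplicit false

namespace Pool.Agent.helper32.RH

open NTH NTok

universe u
variable {Ω : Type u} {p : Ω → Ω}

/-- `IL us w`: the word `w` is `b0 u1 b1 .. ur br` with the units `us = [u1, .., ur]`. -/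
inductive IL : List (List Ω) → List Ω → Prop
  | nil (b : List Ω) : IL [] b
  | cons (b u : List Ω) {us : List (List Ω)} {w : List Ω} (h : IL us w) : IL (u :: us) (b ++ (u ++ w))

theorem infix_skip {u v w : List Ω} (hu : u ≠ []) (hd : ∀ t ∈ v, t ∉ u) (h : u <:+: v ++ w) : u <:+: w := by
  induction v with
  | nil => simpa using h
  | cons a v ih =>
    apply ih (fun t ht => hd t (List.mem_cons_of_mem _ ht))
    rw [List.cons_append, List.infix_cons_iff] at h
    rcases h with h | h
    · exfalso
      obtain ⟨t, ht⟩ := h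
      cases u with
      | nil => exact hu rfl
      | cons c u =>
        simp only [List.cons_append, List.cons.injEq] at ht
        exact hd a List.mem_cons_self (ht.1 ▸ List.mem_cons_self)
    · exact h

theorem infix_cases {u b v w : List Ω} (hu : u ≠ []) (hv : v ≠ []) (hd : ∀ t ∈ v, t ∉ u)
    (h : u <:+: b ++ (v ++ w)) : u <:+: b ∨ u <:+: w := by
  induction b with
  | nil => exact Or.inr (infix_skip hu hd (by simpa using h))
  | cons a b ih =>
    rw [List.cons_append, List.infix_cons_iff] at h
    rcases h with h | h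
    · -- prefix
      obtain ⟨a', v', rfl⟩ := List.exists_cons_of_ne_nil hv
      obtain ⟨t, ht⟩ := h
      have h1 : u ++ t = (a :: b) ++ (a' :: (v' ++ w)) := by simpa using ht
      rcases List.append_eq_append_iff.mp h1 with ⟨k, h2, h3⟩ | ⟨k, h2, h3⟩
      · left
        rw [h2]
        exact (List.prefix_append u k).isInfix
      · cases k with
        | nil =>
          left
          rw [h2, List.append_nil]
        | cons k0 k =>
          exfalso
          simp only [List.cons_append, List.cons.injEq] at h3
          apply hd a' List.mem_cons_self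
          rw [h2, h3.1]
          simp
    · rcases ih h with h1 | h1
      · exact Or.inl (List.infix_cons h1)
      · exact Or.inr h1

/-- insertion of a unit. -/
theorem IL.ins {us : List (List Ω)} {w : List Ω} (h : IL us w) {u : List Ω} (hu : u ≠ []) (hne : ∀ v ∈ us, v ≠ [])
    (hd : ∀ v ∈ us, ∀ t ∈ v, t ∉ u) (hi : u <:+: w) : ∃ us1 us2, us = us1 ++ us2 ∧ IL (us1 ++ u :: us2) w := by
  induction h with
  | nil b =>
    obtain ⟨s, t, hst⟩ := hi
    refine ⟨[], [], rfl, ?_⟩
    rw [← hst, List.append_assoc]
    exact IL.cons s u (IL.nil t)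
  | @cons b v us w h ih =>
    rcases infix_cases hu (hne v List.mem_cons_self) (hd v List.mem_cons_self) hi with h1 | h1
    · obtain ⟨s, t, hst⟩ := h1
      refine ⟨[], v :: us, rfl, ?_⟩
      rw [← hst]
      have : s ++ u ++ t ++ (v ++ w) = s ++ (u ++ (t ++ (v ++ w))) := by simp
      rw [this]
      exact IL.cons s u (IL.cons t v h)
    · obtain ⟨us1, us2, h2, h3⟩ := ih (fun v hv => hne v (List.mem_cons_of_mem _ hv))
        (fun v hv => hd v (List.mem_cons_of_mem _ hv)) h1
      refine ⟨v :: us1, us2, by rw [h2]; rfl, ?_⟩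
      exact IL.cons b v h3

/-- all orders of the units. -/
theorem IL.perm (us : List (List Ω)) (w : List Ω) (hne : ∀ v ∈ us, v ≠ [])
    (hd : us.Pairwise (fun u v => ∀ t ∈ v, t ∉ u)) (hi : ∀ u ∈ us, u <:+: w) :
    ∃ vs ∈ us.permutations', IL vs w := by
  induction us with
  | nil => exact ⟨[], by simp, IL.nil w⟩
  | cons u us ih =>
    rw [List.pairwise_cons] at hd
    obtain ⟨vs, h1, h2⟩ := ih (fun v hv => hne v (List.mem_cons_of_mem _ hv)) hd.2
      (fun v hv => hi v (List.mem_cons_of_mem _ hv))
    have hp : vs.Perm us := List.mem_permutations'.mp h1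
    obtain ⟨us1, us2, h3, h4⟩ := h2.ins (hne u List.mem_cons_self)
      (fun v hv => hne v (List.mem_cons_of_mem _ (hp.mem_iff.mp hv)))
      (fun v hv => hd.1 v (hp.mem_iff.mp hv)) (hi u List.mem_cons_self)
    refine ⟨us1 ++ u :: us2, ?_, h4⟩
    rw [List.mem_permutations']
    refine List.perm_middle.trans ?_
    rw [← h3]
    exact hp.cons u

/-! ## The symbolic side -/

/-- a symbolic unit: a list of explicit tokens (letter, copy). -/
abbrev Un := List (ℕ × Bool)

/-- the meaning of a unit. -/
def mU (τ : ℕ → Bool → Ω) (u : Un) : List Ω := u.map (fun a => τ a.1 a.2)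

/-- the symbolic word: blocks `o, o + 1, ..` in the gaps. -/
def wv (o : ℕ) : List Un → List Sy
  | [] => [.bk o]
  | u :: us => .bk o :: (u.map (fun a => Sy.tk a.1 a.2) ++ wv (o + 1) us)

theorem sem_units (τ : ℕ → Bool → Ω) (σ : ℕ → List Ω) (u : Un) :
    sem τ σ (u.map (fun a => Sy.tk a.1 a.2)) = mU τ u := by
  induction u with
  | nil => rfl
  | cons a u ih =>
    rw [List.map_cons, sem_cons, ih]
    simp [sem1, mU]

/-- the blocks of an interleaving. -/
theorem IL.blocks (τ : ℕ → Bool → Ω) (us : List Un) (w : List Ω) (h : IL (us.map (mU τ)) w) :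
    ∃ bs : List (List Ω), bs.length = us.length + 1 ∧ ∀ (o : ℕ) (σ : ℕ → List Ω),
      (∀ j (hj : j < bs.length), σ (o + j) = bs[j]) → w = sem τ σ (wv o us) := by
  generalize hv : us.map (mU τ) = vs at h
  induction h generalizing us with
  | nil b =>
    have : us = [] := by simpa using hv
    subst this
    refine ⟨[b], rfl, fun o σ hσ => ?_⟩
    have := hσ 0 (by simp)
    simp only [Nat.add_zero, List.getElem_cons_zero] at this
    simp [wv, sem, this]
  | @cons b v vs w h ih =>
    cases us with
    | nil => simp at hv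
    | cons u us =>
      simp only [List.map_cons, List.cons.injEq] at hv
      obtain ⟨bs, h1, h2⟩ := ih us hv.2
      refine ⟨b :: bs, by simp [h1], fun o σ hσ => ?_⟩
      have h3 := hσ 0 (by simp)
      simp only [Nat.add_zero, List.getElem_cons_zero] at h3
      have h4 := h2 (o + 1) σ (fun j hj => by
        have := hσ (j + 1) (by simpa using hj)
        simp only [List.getElem_cons_succ] at this
        rw [← this]
        congr 1
        omega)
      rw [wv, sem_cons, sem_append, sem_units, ← h4, hv.1]
      simp [sem1, h3]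

/-- **the splitter** for both words. -/
theorem splitter (τ : ℕ → Bool → Ω) (us vs : List Un) (X Y : List Ω)
    (hu : ∀ u ∈ us, u ≠ []) (hv : ∀ u ∈ vs, u ≠ [])
    (hdu : (us.map (mU τ)).Pairwise (fun u v => ∀ t ∈ v, t ∉ u))
    (hdv : (vs.map (mU τ)).Pairwise (fun u v => ∀ t ∈ v, t ∉ u))
    (hiu : ∀ u ∈ us, mU τ u <:+: X) (hiv : ∀ u ∈ vs, mU τ u <:+: Y) :
    ∃ us' ∈ us.permutations', ∃ vs' ∈ vs.permutations', ∃ σ : ℕ → List Ω,
      X = sem τ σ (wv 0 us') ∧ Y = sem τ σ (wv (us.length + 1) vs') := by
  have key : ∀ (us : List Un) (X : List Ω) (hu : ∀ u ∈ us, u ≠ [])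
      (hdu : (us.map (mU τ)).Pairwise (fun u v => ∀ t ∈ v, t ∉ u)) (hiu : ∀ u ∈ us, mU τ u <:+: X),
      ∃ us' ∈ us.permutations', IL (us'.map (mU τ)) X := by
    intro us X hu hdu hiu
    obtain ⟨vs, h1, h2⟩ := IL.perm (us.map (mU τ)) X (by
      intro v hv
      obtain ⟨u, h3, rfl⟩ := List.mem_map.mp hv
      intro h4
      apply hu u h3
      unfold mU at h4
      simpa using h4) hdu (by
      intro v hv
      obtain ⟨u, h3, rfl⟩ := List.mem_map.mp hv
      exact hiu u h3)
    rw [← List.map_permutations'] at h1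
    obtain ⟨us', h3, rfl⟩ := List.mem_map.mp h1
    exact ⟨us', h3, h2⟩
  obtain ⟨us', h1, h2⟩ := key us X hu hdu hiu
  obtain ⟨vs', h3, h4⟩ := key vs Y hv hdv hiv
  obtain ⟨bs, h5, h6⟩ := IL.blocks τ us' X h2
  obtain ⟨cs, h7, h8⟩ := IL.blocks τ vs' Y h4
  have hl : us'.length = us.length := (List.mem_permutations'.mp h1).length_eq
  refine ⟨us', h1, vs', h3, fun j => (bs ++ cs).getD j [], ?_, ?_⟩
  · apply h6 0
    intro j hj
    rw [Nat.zero_add, List.getD_eq_getElem _ _ (by simp; omega), List.getElem_append_left hj]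
  · apply h8 (us.length + 1)
    intro j hj
    rw [List.getD_eq_getElem _ _ (by simp; omega), List.getElem_append_right (by omega)]
    congr 1
    omega

end Pool.Agent.helper32.RH
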