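import Pool.Agent.helper32.RH.Mach
import Pool.Agent.helper32.RH.Split

/-!
# MP_c8d30a, exponent 12: tables of routes for the double 3-cycle move

Atoms: letter `n` has the tokens `2 n`, `2 n + 1`; `c = 0, 1`, `x = 2, 3`, `y = 4, 5`.  The move
(rho): the token `0` (directly before `2`) goes before `4`, the token `5` (directly before `1`) goes
before `3`.
-/

set_option autoImplicit false

namespace Pool.Agent.helper32.RH

open NTH

universe u
variable {Ω : Type u} {p : Ω → Ω}

/-- the move on atoms. -/
def gs (a : ℕ) : List ℕ :=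
  match Nat.beq a 0 with
  | true => []
  | false => match Nat.beq a 5 with
    | true => []
    | false => match Nat.beq a 3 with
      | true => [5, 3]
      | false => match Nat.beq a 4 with
        | true => [0, 4]
        | false => [a]

/-- the move on symbolic words. -/
def fl : List ℕ → List ℕ
  | [] => []
  | a :: w => gs a ++ fl w

theorem fl_eq (w : List ℕ) : fl w = w.flatMap gs := by
  induction w with
  | nil => rfl
  | cons a w ih => rw [fl, ih, List.flatMap_cons]

/-- the symbolic word with blocks in all gaps. -/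
def wn (o : ℕ) : List (List ℕ) → List ℕ
  | [] => [64 + o]
  | u :: us => (64 + o) :: (u ++ wn (o + 1) us)

/-- decode a route. -/
def dec : ℕ → ℕ → List ℕ
  | 0, _ => []
  | n + 1, a => match Nat.beq a 0 with
    | true => []
    | false => Nat.mod a 64 :: dec n (Nat.div a 64)

/-- check two lists of the same length. -/
def all2 {α β : Type} (f : α → β → Bool) : List α → List β → Bool
  | [], [] => true
  | a :: l, b :: r => match f a b with
    | true => all2 f l r
    | false => false
  | _, _ => false

theorem all2_mem {α β : Type} (f : α → β → Bool) : ∀ (l : List α) (r : List β), all2 f l r = true →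
    ∀ a ∈ l, ∃ b ∈ r, f a b = true
  | [], _, _, a, ha => absurd ha (by simp)
  | _ :: _, [], h, _, _ => by simp [all2] at h
  | a' :: l, b' :: r, h, a, ha => by
    unfold all2 at h
    cases hf : f a' b' with
    | false => rw [hf] at h; exact absurd h (by simp)
    | true =>
      rw [hf] at h
      rcases List.mem_cons.mp ha with rfl | h1
      · exact ⟨b', List.mem_cons_self, hf⟩
      · obtain ⟨b, h2, h3⟩ := all2_mem f l r h a h1
        exact ⟨b, List.mem_cons_of_mem _ h2, h3⟩

/-- all pairs of orders. -/
def prs (us vs : List (List ℕ)) : List (List (List ℕ) × List (List ℕ)) :=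
  us.permutations'.flatMap (fun a => vs.permutations'.map (fun b => (a, b)))

theorem mem_prs {us vs a b : List (List ℕ)} (ha : a ∈ us.permutations') (hb : b ∈ vs.permutations') :
    (a, b) ∈ prs us vs := by
  unfold prs
  rw [List.mem_flatMap]
  exact ⟨a, ha, List.mem_map.mpr ⟨b, hb, rfl⟩⟩

/-- a table. -/
structure TD where
  P1 : List ℕ
  S1 : List ℕ
  P2 : List ℕ
  S2 : List ℕ
  us : List (List ℕ)
  vs : List (List ℕ)

/-- the first word. -/
def TD.U (T : TD) (a : List (List ℕ)) : List ℕ := T.P1 ++ (wn 0 a ++ T.S1)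

/-- the second word. -/
def TD.V (T : TD) (b : List (List ℕ)) : List ℕ := T.P2 ++ (wn (T.us.length + 1) b ++ T.S2)

/-- the check of one pattern. -/
def TD.ck (T : TD) (K : ℕ) (q : List (List ℕ) × List (List ℕ)) (r : ℕ × ℕ) : Bool :=
  match ok K (dec 80 r.1) (T.U q.1) (T.V q.2) (fl (T.U q.1)) (fl (T.V q.2)) with
  | false => false
  | true => ok K (dec 80 r.2) (fl (T.U q.1)) (fl (T.V q.2)) (T.U q.1) (T.V q.2)

/-- the check of a table. -/
def TD.chk (T : TD) (K : ℕ) (rts : List (ℕ × ℕ)) : Bool := all2 (T.ck K) (prs T.us T.vs) rts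

theorem TD.chk_ok {T : TD} {K : ℕ} {rts : List (ℕ × ℕ)} (h : T.chk K rts = true) {a b : List (List ℕ)}
    (ha : a ∈ T.us.permutations') (hb : b ∈ T.vs.permutations') : ∃ k1 k2 : List ℕ,
    ok K k1 (T.U a) (T.V b) (fl (T.U a)) (fl (T.V b)) = true ∧
    ok K k2 (fl (T.U a)) (fl (T.V b)) (T.U a) (T.V b) = true := by
  obtain ⟨r, _, h1⟩ := all2_mem _ _ _ h (a, b) (mem_prs ha hb)
  unfold TD.ck at h1
  cases h2 : ok K (dec 80 r.1) (T.U a) (T.V b) (fl (T.U a)) (fl (T.V b)) with
  | false => rw [h2] at h1; exact absurd h1 (by simp)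
  | true =>
    rw [h2] at h1
    exact ⟨_, _, h2, h1⟩

/-! ## Meaning -/

theorem vl_units (τ : ℕ → Ω) (σ : ℕ → List Ω) {u : List ℕ} (hu : ∀ a ∈ u, a < 64) : vl τ σ u = u.map τ := by
  induction u with
  | nil => rfl
  | cons a u ih =>
    rw [vl_tok τ σ (hu a List.mem_cons_self), ih (fun b hb => hu b (List.mem_cons_of_mem _ hb)), List.map_cons]

theorem vl_blk (τ : ℕ → Ω) (σ : ℕ → List Ω) (o : ℕ) (w : List ℕ) : vl τ σ ((64 + o) :: w) = σ (64 + o) ++ vl τ σ w := by
  rw [vl_cons]
  simp [at1]

/-- the blocks of an interleaving. -/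
theorem IL.blocks' (τ : ℕ → Ω) (us : List (List ℕ)) (hus : ∀ u ∈ us, ∀ a ∈ u, a < 64) (w : List Ω)
    (h : IL (us.map (List.map τ)) w) :
    ∃ bs : List (List Ω), bs.length = us.length + 1 ∧ ∀ (o : ℕ) (σ : ℕ → List Ω),
      (∀ j (hj : j < bs.length), σ (64 + (o + j)) = bs[j]) → w = vl τ σ (wn o us) := by
  generalize hv : us.map (List.map τ) = vs at h
  induction h generalizing us with
  | nil b =>
    have : us = [] := by simpa using hv
    subst this
    refine ⟨[b], rfl, fun o σ hσ => ?_⟩
    have := hσ 0 (by simp)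
    simp only [Nat.add_zero, List.getElem_cons_zero] at this
    rw [wn, vl_blk, this]
    simp [vl]
  | @cons b v vs w h ih =>
    cases us with
    | nil => simp at hv
    | cons u us =>
      simp only [List.map_cons, List.cons.injEq] at hv
      obtain ⟨bs, h1, h2⟩ := ih us (fun u hu => hus u (List.mem_cons_of_mem _ hu)) hv.2
      refine ⟨b :: bs, by simp [h1], fun o σ hσ => ?_⟩
      have h3 := hσ 0 (by simp)
      simp only [Nat.add_zero, List.getElem_cons_zero] at h3
      have h4 := h2 (o + 1) σ (fun j hj => by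
        have := hσ (j + 1) (by simpa using hj)
        simp only [List.getElem_cons_succ] at this
        rw [← this]
        congr 1
        omega)
      rw [wn, vl_blk, vl_append, vl_units τ σ (hus u List.mem_cons_self), ← h4, hv.1, h3]

/-- **the splitter** for both words. -/
theorem splitter' (τ : ℕ → Ω) (us vs : List (List ℕ)) (X Y : List Ω)
    (hus : ∀ u ∈ us, ∀ a ∈ u, a < 64) (hvs : ∀ u ∈ vs, ∀ a ∈ u, a < 64)
    (hu : ∀ u ∈ us, u ≠ []) (hv : ∀ u ∈ vs, u ≠ [])
    (hdu : (us.map (List.map τ)).Pairwise (fun u v => ∀ t ∈ v, t ∉ u))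
    (hdv : (vs.map (List.map τ)).Pairwise (fun u v => ∀ t ∈ v, t ∉ u))
    (hiu : ∀ u ∈ us, u.map τ <:+: X) (hiv : ∀ u ∈ vs, u.map τ <:+: Y) :
    ∃ us' ∈ us.permutations', ∃ vs' ∈ vs.permutations', ∃ σ : ℕ → List Ω,
      X = vl τ σ (wn 0 us') ∧ Y = vl τ σ (wn (us.length + 1) vs') := by
  have key : ∀ (us : List (List ℕ)) (X : List Ω) (hu : ∀ u ∈ us, u ≠ [])
      (hdu : (us.map (List.map τ)).Pairwise (fun u v => ∀ t ∈ v, t ∉ u)) (hiu : ∀ u ∈ us, u.map τ <:+: X),
      ∃ us' ∈ us.permutations', IL (us'.map (List.map τ)) X := by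
    intro us X hu hdu hiu
    obtain ⟨vs, h1, h2⟩ := IL.perm (us.map (List.map τ)) X (by
      intro v hv
      obtain ⟨u, h3, rfl⟩ := List.mem_map.mp hv
      intro h4
      apply hu u h3
      simpa using h4) hdu (by
      intro v hv
      obtain ⟨u, h3, rfl⟩ := List.mem_map.mp hv
      exact hiu u h3)
    rw [← List.map_permutations'] at h1
    obtain ⟨us', h3, rfl⟩ := List.mem_map.mp h1
    exact ⟨us', h3, h2⟩
  obtain ⟨us', h1, h2⟩ := key us X hu hdu hiu
  obtain ⟨vs', h3, h4⟩ := key vs Y hv hdv hiv
  have hm1 : ∀ u ∈ us', u ∈ us := fun u hu => (List.mem_permutations'.mp h1).mem_iff.mp hu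
  have hm2 : ∀ u ∈ vs', u ∈ vs := fun u hu => (List.mem_permutations'.mp h3).mem_iff.mp hu
  obtain ⟨bs, h5, h6⟩ := IL.blocks' τ us' (fun u hu => hus u (hm1 u hu)) X h2
  obtain ⟨cs, h7, h8⟩ := IL.blocks' τ vs' (fun u hu => hvs u (hm2 u hu)) Y h4
  have hl : us'.length = us.length := (List.mem_permutations'.mp h1).length_eq
  refine ⟨us', h1, vs', h3, fun j => (bs ++ cs).getD (j - 64) [], ?_, ?_⟩
  · apply h6 0
    intro j hj
    have : 64 + (0 + j) - 64 = j := by omega
    rw [this, List.getD_eq_getElem _ _ (by simp; omega), List.getElem_append_left hj]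
  · apply h8 (us.length + 1)
    intro j hj
    have : 64 + (us.length + 1 + j) - 64 = us.length + 1 + j := by omega
    rw [this, List.getD_eq_getElem _ _ (by simp; omega), List.getElem_append_right (by omega)]
    congr 1
    omega

/-- the move on tokens. -/
noncomputable def gr (c1 X2 Y1 Y2 : Ω) (t : Ω) : List Ω := by
  classical
  exact if t = c1 then [] else if t = Y2 then [] else if t = X2 then [Y2, X2] else if t = Y1 then [c1, Y1] else [t]

theorem at1_pw (τ : ℕ → Ω) (σ : ℕ → List Ω) {w : List ℕ} (h : (vl τ σ w).Nodup) {a b : ℕ} (ha : a ∈ w) (hb : b ∈ w)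
    (hab : a ≠ b) : List.Disjoint (at1 τ σ a) (at1 τ σ b) := by
  unfold vl at h
  rw [List.nodup_flatMap] at h
  haveI : Std.Symm (Function.onFun List.Disjoint (at1 τ σ)) := ⟨fun _ _ h => List.Disjoint.symm h⟩
  exact List.Pairwise.forall h.2 ha hb hab

/-- the move on symbolic words is the move on the meanings. -/
theorem vl_fl (τ : ℕ → Ω) (σ : ℕ → List Ω) {w : List ℕ} (h : (vl τ σ w).Nodup)
    (h0 : 0 ∈ w) (h3 : 3 ∈ w) (h4 : 4 ∈ w) (h5 : 5 ∈ w) {v : List ℕ} (hv : ∀ a ∈ v, a ∈ w) :
    (vl τ σ v).flatMap (gr (τ 0) (τ 3) (τ 4) (τ 5)) = vl τ σ (fl v) := by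
  induction v with
  | nil => rfl
  | cons a v ih =>
    have ha : a ∈ w := hv a List.mem_cons_self
    rw [fl, vl_append, ← ih (fun b hb => hv b (List.mem_cons_of_mem _ hb)), vl_cons, List.flatMap_append]
    congr 1
    by_cases h64 : a < 64
    · have e : at1 τ σ a = [τ a] := by simp [at1, h64]
      rw [e, List.flatMap_singleton]
      have key : ∀ b ∈ w, b < 64 → a ≠ b → τ a ≠ τ b := by
        intro b hb hb64 hab he
        have := at1_pw τ σ h ha hb hab
        rw [e] at this
        have e2 : at1 τ σ b = [τ b] := by simp [at1, hb64]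
        rw [e2] at this
        exact this (List.mem_singleton.mpr rfl) (by rw [he]; exact List.mem_singleton.mpr rfl)
      by_cases a0 : a = 0
      · subst a0; simp [gr, gs, vl]
      by_cases a5 : a = 5
      · subst a5; simp [gr, gs, vl]
      by_cases a3 : a = 3
      · subst a3
        have k1 := key 0 h0 (by norm_num) (by norm_num)
        have k2 := key 5 h5 (by norm_num) (by norm_num)
        simp [gr, gs, vl, at1, k1, k2]
      by_cases a4 : a = 4
      · subst a4
        have k1 := key 0 h0 (by norm_num) (by norm_num)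
        have k2 := key 5 h5 (by norm_num) (by norm_num)
        have k3 := key 3 h3 (by norm_num) (by norm_num)
        simp [gr, gs, vl, at1, k1, k2, k3]
      · have k0 := key 0 h0 (by norm_num) a0
        have k5 := key 5 h5 (by norm_num) a5
        have k3 := key 3 h3 (by norm_num) a3
        have k4 := key 4 h4 (by norm_num) a4
        have eg : gs a = [a] := by
          have e0 : Nat.beq a 0 = false := by
            cases hb : Nat.beq a 0 with
            | false => rfl
            | true => exact absurd (Nat.eq_of_beq_eq_true hb) a0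
          have e5 : Nat.beq a 5 = false := by
            cases hb : Nat.beq a 5 with
            | false => rfl
            | true => exact absurd (Nat.eq_of_beq_eq_true hb) a5
          have e3 : Nat.beq a 3 = false := by
            cases hb : Nat.beq a 3 with
            | false => rfl
            | true => exact absurd (Nat.eq_of_beq_eq_true hb) a3
          have e4 : Nat.beq a 4 = false := by
            cases hb : Nat.beq a 4 with
            | false => rfl
            | true => exact absurd (Nat.eq_of_beq_eq_true hb) a4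
          unfold gs
          rw [e0, e5, e3, e4]
        rw [eg]
        simp [gr, vl, at1, k0, k5, k3, k4, h64]
    · have e : at1 τ σ a = σ a := by simp [at1, h64]
      have key : ∀ b ∈ w, b < 64 → ∀ t ∈ σ a, t ≠ τ b := by
        intro b hb hb64 t ht he
        have := at1_pw τ σ h ha hb (by rintro rfl; exact h64 hb64)
        rw [e] at this
        have e2 : at1 τ σ b = [τ b] := by simp [at1, hb64]
        rw [e2] at this
        exact this ht (by rw [he]; exact List.mem_singleton.mpr rfl)
      have eg : gs a = [a] := by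
        have e0 : Nat.beq a 0 = false := by
          cases hb : Nat.beq a 0 with
          | false => rfl
          | true => have := Nat.eq_of_beq_eq_true hb; omega
        have e5 : Nat.beq a 5 = false := by
          cases hb : Nat.beq a 5 with
          | false => rfl
          | true => have := Nat.eq_of_beq_eq_true hb; omega
        have e3 : Nat.beq a 3 = false := by
          cases hb : Nat.beq a 3 with
          | false => rfl
          | true => have := Nat.eq_of_beq_eq_true hb; omega
        have e4 : Nat.beq a 4 = false := by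
          cases hb : Nat.beq a 4 with
          | false => rfl
          | true => have := Nat.eq_of_beq_eq_true hb; omega
        unfold gs
        rw [e0, e5, e3, e4]
      rw [eg, e]
      have e3 : vl τ σ [a] = σ a := by simp [vl, at1, h64]
      rw [e3]
      have : ∀ t ∈ σ a, gr (τ 0) (τ 3) (τ 4) (τ 5) t = [t] := by
        intro t ht
        have k0 := key 0 h0 (by norm_num) t ht
        have k5 := key 5 h5 (by norm_num) t ht
        have k3 := key 3 h3 (by norm_num) t ht
        have k4 := key 4 h4 (by norm_num) t ht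
        simp [gr, k0, k5, k3, k4]
      rw [List.flatMap_congr this]
      simp

end Pool.Agent.helper32.RH
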