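import Pool.Agent.helper32.RH.Cargo

/-!
# MP_c8d30a, exponent 12: tables for arbitrary token replacements

`G` is a list of pairs (token, its replacement); all other atoms stay.
-/

set_option autoImplicit false

namespace Pool.Agent.helper32.RH

open NTH

universe u
variable {Ω : Type u} {p : Ω → Ω}

/-- the replacement of an atom. -/
def lkp : List (ℕ × List ℕ) → ℕ → List ℕ
  | [], a => [a]
  | q :: G, a => match Nat.beq a q.1 with
    | true => q.2
    | false => lkp G a

/-- the replacement in a word. -/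
def flG (G : List (ℕ × List ℕ)) : List ℕ → List ℕ
  | [] => []
  | a :: w => lkp G a ++ flG G w

/-- the replacement on tokens. -/
noncomputable def grG (τ : ℕ → Ω) : List (ℕ × List ℕ) → Ω → List Ω
  | [], t => [t]
  | q :: G, t => by
    classical
    exact if t = τ q.1 then q.2.map τ else grG τ G t

/-- a table. -/
structure TG where
  P1 : List ℕ
  S1 : List ℕ
  P2 : List ℕ
  S2 : List ℕ
  us : List (List ℕ)
  vs : List (List ℕ)
  G : List (ℕ × List ℕ)

/-- the first word. -/
def TG.U (T : TG) (a : List (List ℕ)) : List ℕ := T.P1 ++ (wn 0 a ++ T.S1)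

/-- the second word. -/
def TG.V (T : TG) (b : List (List ℕ)) : List ℕ := T.P2 ++ (wn (T.us.length + 1) b ++ T.S2)

/-- the check of one pattern. -/
def TG.ck (T : TG) (K : ℕ) (q : List (List ℕ) × List (List ℕ)) (r : ℕ × ℕ) : Bool :=
  match ok K (dec 80 r.1) (T.U q.1) (T.V q.2) (flG T.G (T.U q.1)) (flG T.G (T.V q.2)) with
  | false => false
  | true => ok K (dec 80 r.2) (flG T.G (T.U q.1)) (flG T.G (T.V q.2)) (T.U q.1) (T.V q.2)

/-- the check of a table. -/
def TG.chk (T : TG) (K : ℕ) (rts : List (ℕ × ℕ)) : Bool := all2 (T.ck K) (prs T.us T.vs) rts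

theorem TG.chk_ok {T : TG} {K : ℕ} {rts : List (ℕ × ℕ)} (h : T.chk K rts = true) {a b : List (List ℕ)}
    (ha : a ∈ T.us.permutations') (hb : b ∈ T.vs.permutations') : ∃ k1 k2 : List ℕ,
    ok K k1 (T.U a) (T.V b) (flG T.G (T.U a)) (flG T.G (T.V b)) = true ∧
    ok K k2 (flG T.G (T.U a)) (flG T.G (T.V b)) (T.U a) (T.V b) = true := by
  obtain ⟨r, _, h1⟩ := all2_mem _ _ _ h (a, b) (mem_prs ha hb)
  unfold TG.ck at h1
  cases h2 : ok K (dec 80 r.1) (T.U a) (T.V b) (flG T.G (T.U a)) (flG T.G (T.V b)) with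
  | false => rw [h2] at h1; exact absurd h1 (by simp)
  | true =>
    rw [h2] at h1
    exact ⟨_, _, h2, h1⟩

theorem vl_map (τ : ℕ → Ω) (σ : ℕ → List Ω) {u : List ℕ} (hu : ∀ a ∈ u, a < 64) : u.map τ = vl τ σ u :=
  (vl_units τ σ hu).symm

theorem vl_flG (τ : ℕ → Ω) (σ : ℕ → List Ω) (G : List (ℕ × List ℕ)) {w : List ℕ} (h : (vl τ σ w).Nodup)
    (hk : ∀ q ∈ G, q.1 ∈ w ∧ q.1 < 64 ∧ ∀ a ∈ q.2, a < 64) {v : List ℕ} (hv : ∀ a ∈ v, a ∈ w) :
    (vl τ σ v).flatMap (grG τ G) = vl τ σ (flG G v) := by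
  have k1 : ∀ a ∈ w, a < 64 → ∀ G' : List (ℕ × List ℕ), (∀ q ∈ G', q.1 ∈ w ∧ q.1 < 64 ∧ ∀ a ∈ q.2, a < 64) →
      grG τ G' (τ a) = vl τ σ (lkp G' a) := by
    intro a ha h64 G'
    induction G' with
    | nil => intro _; simp [grG, lkp, vl, at1, h64]
    | cons q G' ih =>
      intro hG
      obtain ⟨q1, q2, q3⟩ := hG q List.mem_cons_self
      have ih' := ih (fun q hq => hG q (List.mem_cons_of_mem _ hq))
      unfold grG lkp
      by_cases e : a = q.1
      · rw [if_pos (by rw [e])]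
        have : Nat.beq a q.1 = true := by rw [e]; exact Nat.beq_refl _
        rw [this]
        exact vl_map τ σ q3
      · have hne : τ a ≠ τ q.1 := by
          intro he
          have := at1_pw τ σ h ha q1 e
          have e1 : at1 τ σ a = [τ a] := by simp [at1, h64]
          have e2 : at1 τ σ q.1 = [τ q.1] := by simp [at1, q2]
          rw [e1, e2] at this
          exact this (List.mem_singleton.mpr rfl) (by rw [he]; exact List.mem_singleton.mpr rfl)
        rw [if_neg hne]
        have : Nat.beq a q.1 = false := by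
          cases hb : Nat.beq a q.1 with
          | false => rfl
          | true => exact absurd (Nat.eq_of_beq_eq_true hb) e
        rw [this]
        exact ih'
  have k2 : ∀ a ∈ w, ¬ a < 64 → ∀ G' : List (ℕ × List ℕ), (∀ q ∈ G', q.1 ∈ w ∧ q.1 < 64 ∧ ∀ a ∈ q.2, a < 64) →
      (∀ t ∈ σ a, grG τ G' t = [t]) ∧ lkp G' a = [a] := by
    intro a ha h64 G'
    induction G' with
    | nil => intro _; exact ⟨fun t _ => rfl, rfl⟩
    | cons q G' ih =>
      intro hG
      obtain ⟨q1, q2, q3⟩ := hG q List.mem_cons_self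
      have ih' := ih (fun q hq => hG q (List.mem_cons_of_mem _ hq))
      constructor
      · intro t ht
        unfold grG
        rw [if_neg, ih'.1 t ht]
        intro he
        have := at1_pw τ σ h ha q1 (by rintro rfl; exact h64 q2)
        have e1 : at1 τ σ a = σ a := by simp [at1, h64]
        have e2 : at1 τ σ q.1 = [τ q.1] := by simp [at1, q2]
        rw [e1, e2] at this
        exact this ht (by rw [he]; exact List.mem_singleton.mpr rfl)
      · unfold lkp
        have : Nat.beq a q.1 = false := by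
          cases hb : Nat.beq a q.1 with
          | false => rfl
          | true => exact absurd (Nat.eq_of_beq_eq_true hb) (by rintro rfl; exact h64 q2)
        rw [this]
        exact ih'.2
  induction v with
  | nil => rfl
  | cons a v ih =>
    have ha : a ∈ w := hv a List.mem_cons_self
    rw [flG, vl_append, ← ih (fun b hb => hv b (List.mem_cons_of_mem _ hb)), vl_cons, List.flatMap_append]
    congr 1
    by_cases h64 : a < 64
    · have e : at1 τ σ a = [τ a] := by simp [at1, h64]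
      rw [e, List.flatMap_singleton]
      exact k1 a ha h64 G hk
    · have e : at1 τ σ a = σ a := by simp [at1, h64]
      obtain ⟨q1, q2⟩ := k2 a ha h64 G hk
      rw [q2, e, List.flatMap_congr q1]
      have e3 : vl τ σ [a] = σ a := by simp [vl, at1, h64]
      rw [e3]
      simp

/-- the explicit atoms. -/
def TG.at (T : TG) : List ℕ := (T.P1 ++ T.us.flatten ++ T.S1) ++ (T.P2 ++ T.vs.flatten ++ T.S2)

/-- the conditions on a table. -/
def TG.good (T : TG) (S : List ℕ) : Prop :=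
  T.at.Nodup ∧ (∀ m ∈ T.at, m < 64 ∧ m / 2 ∈ S) ∧ (∀ u ∈ T.us, u ≠ []) ∧ (∀ u ∈ T.vs, u ≠ []) ∧
    (∀ q ∈ T.G, q.1 ∈ T.at ∧ q.1 < 64 ∧ ∀ a ∈ q.2, a < 64)

instance (T : TG) (S : List ℕ) : Decidable (T.good S) := by unfold TG.good; infer_instance

/-- **from a table to lists**. -/
theorem TG.rho {T : TG} {K : ℕ} {rts : List (ℕ × ℕ)} (h : T.chk K rts = true) (S : List ℕ) (hw : T.good S)
    (hp : ∀ t, p (p t) = t) (hne : ∀ t, p t ≠ t) (a : ℕ → Ω) (hS : LD p (S.map a)) (X Y : List Ω)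
    (hX : ∀ u ∈ T.us, u.map (tk p a) <:+: X) (hY : ∀ u ∈ T.vs, u.map (tk p a) <:+: Y)
    (hnd : ((T.P1.map (tk p a) ++ (X ++ T.S1.map (tk p a))) ++ (T.P2.map (tk p a) ++ (Y ++ T.S2.map (tk p a)))).Nodup) :
    RTn p K (T.P1.map (tk p a) ++ (X ++ T.S1.map (tk p a)), T.P2.map (tk p a) ++ (Y ++ T.S2.map (tk p a)))
      ((T.P1.map (tk p a) ++ (X ++ T.S1.map (tk p a))).flatMap (grG (tk p a) T.G),
        (T.P2.map (tk p a) ++ (Y ++ T.S2.map (tk p a))).flatMap (grG (tk p a) T.G)) := by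
  obtain ⟨g1, g2, g3, g4, g5⟩ := hw
  set τ := tk p a with hτd
  have hτ : ∀ t, t < 64 → τ (t ^^^ 1) = p (τ t) := fun t ht => tk_xor hp a t ht
  have hmap : (T.at.map τ).Nodup := List.Nodup.map_on (fun m hm n hn e =>
    tk_inj hp hne a S hS (g2 m hm).2 (g2 n hn).2 e) g1
  have hus : ∀ u ∈ T.us, ∀ m ∈ u, m ∈ T.at := by
    intro u hu m hm
    unfold TG.at
    simp only [List.mem_append, List.mem_flatten]
    exact Or.inl (Or.inl (Or.inr ⟨u, hu, hm⟩))
  have hvs : ∀ u ∈ T.vs, ∀ m ∈ u, m ∈ T.at := by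
    intro u hu m hm
    unfold TG.at
    simp only [List.mem_append, List.mem_flatten]
    exact Or.inr (Or.inl (Or.inr ⟨u, hu, hm⟩))
  have hP1 : ∀ m ∈ T.P1, m ∈ T.at := by
    intro m hm; unfold TG.at; simp only [List.mem_append]; exact Or.inl (Or.inl (Or.inl hm))
  have hS1 : ∀ m ∈ T.S1, m ∈ T.at := by
    intro m hm; unfold TG.at; simp only [List.mem_append]; exact Or.inl (Or.inr hm)
  have hP2 : ∀ m ∈ T.P2, m ∈ T.at := by
    intro m hm; unfold TG.at; simp only [List.mem_append]; exact Or.inr (Or.inl (Or.inl hm))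
  have hS2 : ∀ m ∈ T.S2, m ∈ T.at := by
    intro m hm; unfold TG.at; simp only [List.mem_append]; exact Or.inr (Or.inr hm)
  have hpw : ∀ L : List (List ℕ), (L.flatten.map τ).Nodup → (L.map (List.map τ)).Pairwise (fun u v => ∀ t ∈ v, t ∉ u) := by
    intro L hL
    rw [List.map_flatten, List.nodup_flatten] at hL
    refine List.Pairwise.imp ?_ hL.2
    intro u v h t ht1 ht2
    exact h ht2 ht1
  have hmu : (T.us.flatten.map τ).Nodup := by
    refine List.Nodup.sublist ?_ hmap
    apply List.Sublist.map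
    unfold TG.at
    refine List.Sublist.trans ?_ (List.sublist_append_left _ _)
    refine List.Sublist.trans ?_ (List.sublist_append_left _ _)
    exact List.sublist_append_right _ _
  have hmv : (T.vs.flatten.map τ).Nodup := by
    refine List.Nodup.sublist ?_ hmap
    apply List.Sublist.map
    unfold TG.at
    refine List.Sublist.trans ?_ (List.sublist_append_right _ _)
    refine List.Sublist.trans ?_ (List.sublist_append_left _ _)
    exact List.sublist_append_right _ _
  obtain ⟨us', h1, vs', h2, σ, h3, h4⟩ := splitter' τ T.us T.vs X Y (fun u hu m hm => (g2 m (hus u hu m hm)).1)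
    (fun u hu m hm => (g2 m (hvs u hu m hm)).1) g3 g4 (hpw _ hmu) (hpw _ hmv) hX hY
  obtain ⟨k1, k2, h5, h6⟩ := TG.chk_ok h h1 h2
  have eU : T.P1.map τ ++ (X ++ T.S1.map τ) = vl τ σ (T.U us') := by
    unfold TG.U
    rw [vl_append, vl_append, vl_units τ σ (fun m hm => (g2 m (hP1 m hm)).1), vl_units τ σ (fun m hm => (g2 m (hS1 m hm)).1), h3]
  have eV : T.P2.map τ ++ (Y ++ T.S2.map τ) = vl τ σ (T.V vs') := by
    unfold TG.V
    rw [vl_append, vl_append, vl_units τ σ (fun m hm => (g2 m (hP2 m hm)).1), vl_units τ σ (fun m hm => (g2 m (hS2 m hm)).1), h4]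
  rw [eU, eV] at hnd ⊢
  rw [← vl_append] at hnd
  have hin : ∀ m ∈ T.at, m ∈ T.U us' ++ T.V vs' := by
    intro m hm
    unfold TG.at at hm
    unfold TG.U TG.V
    simp only [List.mem_append, List.mem_flatten] at hm ⊢
    rcases hm with ((hm | ⟨u, hu, hm⟩) | hm) | ((hm | ⟨u, hu, hm⟩) | hm)
    · exact Or.inl (Or.inl hm)
    · exact Or.inl (Or.inr (Or.inl (mem_wn hm 0 ((List.mem_permutations'.mp h1).mem_iff.mpr hu))))
    · exact Or.inl (Or.inr (Or.inr hm))
    · exact Or.inr (Or.inl hm)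
    · exact Or.inr (Or.inr (Or.inl (mem_wn hm _ ((List.mem_permutations'.mp h2).mem_iff.mpr hu))))
    · exact Or.inr (Or.inr (Or.inr hm))
  have hk : ∀ q ∈ T.G, q.1 ∈ T.U us' ++ T.V vs' ∧ q.1 < 64 ∧ ∀ a ∈ q.2, a < 64 :=
    fun q hq => ⟨hin _ (g5 q hq).1, (g5 q hq).2⟩
  rw [vl_flG τ σ T.G hnd hk (fun m hm => List.mem_append_left _ hm),
    vl_flG τ σ T.G hnd hk (fun m hm => List.mem_append_right _ hm)]
  exact ⟨ok_sound h5 τ σ hτ, ok_sound h6 τ σ hτ⟩

end Pool.Agent.helper32.RH
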