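import Pool.Agent.helper32.RH.Drop
import Pool.Agent.helper32.RH.RhoL

/-!
# MP_c8d30a, exponent 12: decision trees of patterns

A pattern is a pair of words of atoms (explicit tokens below `64`, blocks of mixed tokens above).  A block is split at its
first or last token: it is empty, or the token is a new explicit letter whose partner is in one of the blocks of the other
word.  Leaves are routes to a good state.
-/

set_option autoImplicit false

namespace Pool.Agent.helper32.RH

open NTH

variable {Ω : Type} [DecidableEq Ω] {p : Ω → Ω}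

/-! ## Splits -/

/-- all ways to put the token `2 n + 1` into a block; the second part of the block is `fb`. -/
def insP (n fb : ℕ) : List ℕ → List (List ℕ)
  | [] => []
  | v :: w => match Nat.ble 64 v with
    | true => (v :: (2 * n + 1) :: fb :: w) :: (insP n fb w).map (List.cons v)
    | false => (insP n fb w).map (List.cons v)

theorem mem_insP {n fb v : ℕ} (hv : 64 ≤ v) : ∀ V1 V2 : List ℕ, (V1 ++ v :: (2 * n + 1) :: fb :: V2) ∈ insP n fb (V1 ++ v :: V2)
  | [], V2 => by
    have : Nat.ble 64 v = true := Nat.ble_eq_true_of_le hv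
    rw [List.nil_append, List.nil_append, insP, this]
    exact List.mem_cons_self
  | a :: V1, V2 => by
    have ih := mem_insP hv V1 V2 (n := n) (fb := fb)
    rw [List.cons_append, List.cons_append, insP]
    have h1 : a :: (V1 ++ v :: (2 * n + 1) :: fb :: V2) ∈ (insP n fb (V1 ++ v :: V2)).map (List.cons a) :=
      List.mem_map.mpr ⟨_, ih, rfl⟩
    cases Nat.ble 64 a with
    | true => exact List.mem_cons_of_mem _ h1
    | false => exact h1

/-- the partner of every explicit atom of the word `W` is in `X`. -/
def cls (X : List ℕ) : List ℕ → Bool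
  | [] => true
  | a :: w => match Nat.ble 64 a with
    | true => cls X w
    | false => match mb (a ^^^ 1) X with
      | true => cls X w
      | false => false

theorem cls_spec {X : List ℕ} : ∀ {W : List ℕ}, cls X W = true → ∀ a ∈ W, a < 64 → a ^^^ 1 ∈ X
  | [], _, a, ha, _ => absurd ha (by simp)
  | b :: W, h, a, ha, h64 => by
    unfold cls at h
    cases hb : Nat.ble 64 b with
    | true =>
      rw [hb] at h
      rcases List.mem_cons.mp ha with rfl | ha
      · have := Nat.le_of_ble_eq_true hb
        omega
      · exact cls_spec h a ha h64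
    | false =>
      rw [hb] at h
      cases hm : mb (b ^^^ 1) X with
      | false => rw [hm] at h; exact absurd h (by simp)
      | true =>
        rw [hm] at h
        rcases List.mem_cons.mp ha with rfl | ha
        · exact mb_spec _ _ hm
        · exact cls_spec h a ha h64

/-- not a member, as a boolean. -/
def nmb (t : ℕ) (w : List ℕ) : Bool := match mb t w with
  | true => false
  | false => true

theorem mb_false {t : ℕ} : ∀ {w : List ℕ}, mb t w = false → t ∉ w
  | [], _ => by simp
  | a :: w, h => by
    unfold mb at h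
    cases hb : Nat.beq a t with
    | true => rw [hb] at h; exact absurd h (by simp)
    | false =>
      rw [hb] at h
      intro hm
      rcases List.mem_cons.mp hm with rfl | hm
      · rw [Nat.beq_refl] at hb
        exact absurd hb (by simp)
      · exact mb_false h hm

theorem nmb_spec {t : ℕ} {w : List ℕ} (h : nmb t w = true) : t ∉ w := by
  unfold nmb at h
  cases hb : mb t w with
  | true => rw [hb] at h; exact absurd h (by simp)
  | false => exact mb_false hb

/-- the conditions for a new letter and a new block. -/
def frs (n fb : ℕ) (U V : List ℕ) : Bool :=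
  Nat.ble n 31 && (Nat.ble 64 fb && (nmb (2 * n) (U ++ V) && (nmb (2 * n + 1) (U ++ V) && (nmb fb (U ++ V) && (cls (U ++ V) (U ++ V) &&
    match Nat.beq n 6 with
    | true => false
    | false => true)))))

/-- the children of a split of the first word. -/
def chU (i : ℕ) (e : Bool) (n fb : ℕ) (U V : List ℕ) : Option (List (List ℕ × List ℕ)) :=
  match frs n fb U V with
  | false => none
  | true => match (spl i U).2 with
    | [] => none
    | b :: R => match Nat.ble 64 b with
      | false => none
      | true => match e with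
        | false => some (((spl i U).1 ++ R, V) :: (insP n fb V).map (fun V' => ((spl i U).1 ++ 2 * n :: b :: R, V')))
        | true => some (((spl i U).1 ++ R, V) :: (insP n fb V).map (fun V' => ((spl i U).1 ++ b :: 2 * n :: R, V')))

/-- the meaning of a pattern. -/
structure Sm (p : Ω → Ω) (a : ℕ → Ω) (σ : ℕ → List Ω) (U V : List ℕ) (A B : List Ω) : Prop where
  ea : A = vl (tk p a) σ U
  eb : B = vl (tk p a) σ V
  ma : ∀ b ∈ U, 64 ≤ b → ∀ t ∈ σ b, p t ∈ B
  mb : ∀ b ∈ V, 64 ≤ b → ∀ t ∈ σ b, p t ∈ A

theorem Sm.swap {a : ℕ → Ω} {σ : ℕ → List Ω} {U V : List ℕ} {A B : List Ω} (h : Sm p a σ U V A B) : Sm p a σ V U B A :=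
  ⟨h.eb, h.ea, h.mb, h.ma⟩

theorem vl_congr {τ τ' : ℕ → Ω} {σ σ' : ℕ → List Ω} {W : List ℕ} (h1 : ∀ a ∈ W, a < 64 → τ a = τ' a)
    (h2 : ∀ a ∈ W, 64 ≤ a → σ a = σ' a) : vl τ σ W = vl τ' σ' W := by
  unfold vl
  apply List.flatMap_congr
  intro a ha
  unfold at1
  by_cases h : a < 64
  · rw [if_pos h, if_pos h, h1 a ha h]
  · rw [if_neg h, if_neg h, h2 a ha (by omega)]

theorem tk_upd {a : ℕ → Ω} {n m : ℕ} {t : Ω} (h : m / 2 ≠ n) : tk p (Function.update a n t) m = tk p a m := by
  unfold tk
  rw [Function.update_of_ne h]

theorem tk_even {a : ℕ → Ω} {n : ℕ} {t : Ω} : tk p (Function.update a n t) (2 * n) = t := by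
  unfold tk
  have h1 : 2 * n % 2 = 0 := by omega
  have h2 : 2 * n / 2 = n := by omega
  rw [h1, h2, if_pos rfl, Function.update_self]

theorem tk_odd {a : ℕ → Ω} {n : ℕ} {t : Ω} : tk p (Function.update a n t) (2 * n + 1) = p t := by
  unfold tk
  have h1 : (2 * n + 1) % 2 = 1 := by omega
  have h2 : (2 * n + 1) / 2 = n := by omega
  rw [h1, h2, if_neg (by norm_num), Function.update_self]

theorem at1_blk {τ : ℕ → Ω} {σ : ℕ → List Ω} {b : ℕ} (h : 64 ≤ b) : at1 τ σ b = σ b := by
  unfold at1
  rw [if_neg (by omega)]

theorem once {τ : ℕ → Ω} {σ : ℕ → List Ω} {b : ℕ} {W1 W2 : List ℕ} (hn : (vl τ σ (W1 ++ b :: W2)).Nodup) {t : Ω}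
    (ht : t ∈ at1 τ σ b) : b ∉ W1 ∧ b ∉ W2 := by
  rw [vl_append, vl_cons] at hn
  have h1 := List.nodup_append.1 hn
  constructor
  · intro h
    have h2 : t ∈ vl τ σ W1 := by
      unfold vl
      exact List.mem_flatMap.mpr ⟨b, h, ht⟩
    exact h1.2.2 t h2 t (List.mem_append_left _ ht) rfl
  · intro h
    have h2 : t ∈ vl τ σ W2 := by
      unfold vl
      exact List.mem_flatMap.mpr ⟨b, h, ht⟩
    exact (List.nodup_append.1 h1.2.1).2.2 t ht t h2 rfl

theorem frs_spec {n fb : ℕ} {U V : List ℕ} (h : frs n fb U V = true) : n < 32 ∧ 64 ≤ fb ∧ 2 * n ∉ U ++ V ∧ 2 * n + 1 ∉ U ++ V ∧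
    fb ∉ U ++ V ∧ (∀ a ∈ U ++ V, a < 64 → a ^^^ 1 ∈ U ++ V) ∧ n ≠ 6 := by
  unfold frs at h
  simp only [Bool.and_eq_true] at h
  obtain ⟨h1, h2, h3, h4, h5, h6, h7⟩ := h
  refine ⟨?_, Nat.le_of_ble_eq_true h2, nmb_spec h3, nmb_spec h4, nmb_spec h5, fun a ha h64 => cls_spec h6 a ha h64, ?_⟩
  · have := Nat.le_of_ble_eq_true h1
    omega
  · rintro rfl
    simp at h7

theorem frs_swap_mem {n fb : ℕ} {U V : List ℕ} (h : frs n fb U V = true) {a : ℕ} (ha : a ∈ U ++ V) : a ≠ 2 * n ∧ a ≠ 2 * n + 1 ∧ a ≠ fb ∧ (a < 64 → a / 2 ≠ n) := by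
  obtain ⟨h1, h2, h3, h4, h5, h6, h7⟩ := frs_spec h
  refine ⟨fun h => h3 (h ▸ ha), fun h => h4 (h ▸ ha), fun h => h5 (h ▸ ha), fun h64 h => ?_⟩
  have h8 : a = 2 * n ∨ a = 2 * n + 1 := by omega
  rcases h8 with h8 | h8
  · exact h3 (h8 ▸ ha)
  · exact h4 (h8 ▸ ha)

/-- **the split is exhaustive**. -/
theorem chU_sound {a : ℕ → Ω} {σ : ℕ → List Ω} {U V : List ℕ} {A B : List Ω} (hw : WF p (A, B)) (hs : Sm p a σ U V A B)
    {i n fb : ℕ} {e : Bool} {L : List (List ℕ × List ℕ)} (h : chU i e n fb U V = some L) :
    ∃ c ∈ L, ∃ a' σ', Sm p a' σ' c.1 c.2 A B := by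
  unfold chU at h
  cases hf : frs n fb U V with
  | false => rw [hf] at h; exact absurd h (by simp)
  | true =>
  rw [hf] at h
  simp only at h
  have hU := spl_spec i U
  cases hR : (spl i U).2 with
  | nil => rw [hR] at h; exact absurd h (by simp)
  | cons b R =>
  rw [hR] at h hU
  simp only at h
  cases hb : Nat.ble 64 b with
  | false => rw [hb] at h; exact absurd h (by simp)
  | true =>
  rw [hb] at h
  simp only at h
  have hb64 : 64 ≤ b := Nat.le_of_ble_eq_true hb
  set U1 := (spl i U).1 with hU1
  clear_value U1
  subst hU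
  obtain ⟨hn, hfb, -, -, -, hcl, -⟩ := frs_spec hf
  have hfr := fun {a : ℕ} => frs_swap_mem (a := a) hf
  obtain ⟨hA, hB, hma, hmb⟩ := hs
  have hbU : b ∈ U1 ++ b :: R := by simp
  -- the nodup facts
  have hnd := List.nodup_append.1 hw.nd
  simp only at hnd
  have hndA : (vl (tk p a) σ (U1 ++ b :: R)).Nodup := by rw [← hA]; exact hnd.1
  have hndB : (vl (tk p a) σ V).Nodup := by rw [← hB]; exact hnd.2.1
  have hdj : ∀ t, t ∈ A → t ∉ B := fun t h1 h2 => hnd.2.2 t h1 t h2 rfl
  -- the empty case
  by_cases hσ : σ b = []
  · have h0 : (U1 ++ R, V) ∈ L := by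
      cases e with
      | false =>
        simp only [Option.some.injEq] at h
        rw [← h]
        exact List.mem_cons_self
      | true =>
        simp only [Option.some.injEq] at h
        rw [← h]
        exact List.mem_cons_self
    refine ⟨_, h0, a, σ, ?_, hB, ?_, hmb⟩
    · show A = vl (tk p a) σ (U1 ++ R)
      rw [hA, vl_append, vl_append, vl_cons, at1_blk hb64, hσ, List.nil_append]
    · intro b' hb' h64
      apply hma b' _ h64
      rcases List.mem_append.1 hb' with h1 | h1
      · exact List.mem_append_left _ h1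
      · exact List.mem_append_right _ (List.mem_cons_of_mem _ h1)
  -- the first or last token
  · obtain ⟨g, Y, hY⟩ : ∃ g Y, σ b = if e = false then g :: Y else Y ++ [g] := by
      cases e with
      | false =>
        obtain ⟨g, Y, h1⟩ := List.exists_cons_of_ne_nil hσ
        exact ⟨g, Y, by simpa using h1⟩
      | true =>
        obtain ⟨Y, g, h1⟩ := List.eq_nil_or_concat (σ b) |>.resolve_left hσ
        exact ⟨g, Y, by simpa using h1⟩
    have hg : g ∈ σ b := by
      rw [hY]
      cases e <;> simp
    have hYs : ∀ t ∈ Y, t ∈ σ b := by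
      intro t ht
      rw [hY]
      cases e <;> simp [ht]
    have hgA : g ∈ A := by
      rw [hA]
      unfold vl
      exact List.mem_flatMap.mpr ⟨b, hbU, by rw [at1_blk hb64]; exact hg⟩
    have hpg : p g ∈ B := hma b hbU hb64 g hg
    obtain ⟨v, hv, hpv⟩ : ∃ v ∈ V, p g ∈ at1 (tk p a) σ v := by
      rw [hB] at hpg
      unfold vl at hpg
      exact List.mem_flatMap.mp hpg
    by_cases hv64 : v < 64
    · -- impossible
      exfalso
      have h1 : p g = tk p a v := by
        unfold at1 at hpv
        rw [if_pos hv64] at hpv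
        exact List.mem_singleton.1 hpv
      have h2 : v ^^^ 1 ∈ (U1 ++ b :: R) ++ V := hcl v (List.mem_append_right _ hv) hv64
      have h3 : tk p a (v ^^^ 1) = g := by rw [tk_xor hw.inv a v hv64, ← h1, hw.inv]
      have hxl := xor_lt hv64
      have h4 : (vl (tk p a) σ ((U1 ++ b :: R) ++ V)).Nodup := by
        rw [vl_append, ← hA, ← hB]
        exact hw.nd
      have h5 := at1_pw (tk p a) σ h4 (List.mem_append_left _ hbU) h2 (by omega)
      apply h5 (by rw [at1_blk hb64]; exact hg)
      unfold at1
      rw [if_pos hxl, h3]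
      exact List.mem_singleton_self _
    · have hv64' : 64 ≤ v := by omega
      rw [at1_blk hv64'] at hpv
      obtain ⟨V1, V2, hV⟩ := List.append_of_mem hv
      obtain ⟨X, Z, hXZ⟩ := List.append_of_mem hpv
      have hbv : b ≠ v := by
        rintro rfl
        apply hdj g hgA
        rw [hB]
        unfold vl
        exact List.mem_flatMap.mpr ⟨b, hv, by rw [at1_blk hb64]; exact hg⟩
      have hbo := once hndA (t := g) (by rw [at1_blk hb64]; exact hg)
      have hvo := once (W1 := V1) (W2 := V2) (b := v) (by rw [← hV]; exact hndB) (t := p g) (by rw [at1_blk hv64']; exact hpv)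
      -- `b` is not in the second word, `v` is not in the first
      have hbV : b ∉ V := by
        intro h1
        apply hdj g hgA
        rw [hB]
        unfold vl
        exact List.mem_flatMap.mpr ⟨b, h1, by rw [at1_blk hb64]; exact hg⟩
      have hvU : v ∉ U1 ++ b :: R := by
        intro h1
        apply hdj (p g) _ (by rw [hB]; unfold vl; exact List.mem_flatMap.mpr ⟨v, hv, by rw [at1_blk hv64']; exact hpv⟩)
        rw [hA]
        unfold vl
        exact List.mem_flatMap.mpr ⟨v, h1, by rw [at1_blk hv64']; exact hpv⟩
      have hbf : b ≠ fb := (hfr (List.mem_append_left _ hbU)).2.2.1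
      have hvf : v ≠ fb := (hfr (List.mem_append_right _ hv)).2.2.1
      let a' := Function.update a n g
      let σ' := Function.update (Function.update (Function.update σ b Y) v X) fb Z
      have σb : σ' b = Y := by
        simp only [σ']
        rw [Function.update_of_ne hbf, Function.update_of_ne hbv, Function.update_self]
      have σv : σ' v = X := by
        simp only [σ']
        rw [Function.update_of_ne hvf, Function.update_self]
      have σf : σ' fb = Z := by
        simp only [σ']
        rw [Function.update_self]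
      have σo : ∀ w, w ≠ b → w ≠ v → w ≠ fb → σ' w = σ w := by
        intro w h1 h2 h3
        simp only [σ']
        rw [Function.update_of_ne h3, Function.update_of_ne h2, Function.update_of_ne h1]
      have cong : ∀ W : List ℕ, (∀ w ∈ W, w ∈ (U1 ++ b :: R) ++ V) → b ∉ W → v ∉ W → vl (tk p a) σ W = vl (tk p a') σ' W := by
        intro W h1 h2 h3
        apply vl_congr
        · intro w hw' h64
          exact (tk_upd ((hfr (h1 w hw')).2.2.2 h64)).symm
        · intro w hw' h64
          exact (σo w (fun h => h2 (h ▸ hw')) (fun h => h3 (h ▸ hw')) (hfr (h1 w hw')).2.2.1).symm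
      have c1 : vl (tk p a) σ U1 = vl (tk p a') σ' U1 :=
        cong U1 (fun w hw' => by simp [hw']) hbo.1 (fun h => hvU (List.mem_append_left _ h))
      have c2 : vl (tk p a) σ R = vl (tk p a') σ' R :=
        cong R (fun w hw' => by simp [hw']) hbo.2 (fun h => hvU (List.mem_append_right _ (List.mem_cons_of_mem _ h)))
      have c3 : vl (tk p a) σ V1 = vl (tk p a') σ' V1 :=
        cong V1 (fun w hw' => by rw [hV]; simp [hw']) (fun h => hbV (by rw [hV]; simp [h])) hvo.1
      have c4 : vl (tk p a) σ V2 = vl (tk p a') σ' V2 :=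
        cong V2 (fun w hw' => by rw [hV]; simp [hw']) (fun h => hbV (by rw [hV]; simp [h])) hvo.2
      have hn2 : 2 * n < 64 := by omega
      have hn3 : 2 * n + 1 < 64 := by omega
      have eB : B = vl (tk p a') σ' (V1 ++ v :: (2 * n + 1) :: fb :: V2) := by
        rw [hB, hV, vl_append, vl_cons, at1_blk hv64', hXZ, vl_append, vl_cons _ _ v, at1_blk hv64', σv, vl_tok _ _ hn3,
          vl_cons _ _ fb, at1_blk hfb, σf, c3, c4]
        have : tk p a' (2 * n + 1) = p g := tk_odd
        rw [this]
        simp
      have eA : A = vl (tk p a') σ' (U1 ++ (if e = false then 2 * n :: b :: R else b :: 2 * n :: R)) := by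
        have h8 : tk p a' (2 * n) = g := tk_even
        cases e with
        | false =>
          simp only [if_true] at hY ⊢
          rw [hA, vl_append, vl_cons, at1_blk hb64, hY, vl_append, vl_tok _ _ hn2, vl_cons _ _ b, at1_blk hb64, σb, h8, c1, c2]
          simp
        | true =>
          simp only [reduceCtorEq, if_false] at hY ⊢
          rw [hA, vl_append, vl_cons, at1_blk hb64, hY, vl_append, vl_cons _ _ b, at1_blk hb64, σb, vl_tok _ _ hn2, h8, c1, c2]
          simp
      refine ⟨(U1 ++ (if e = false then 2 * n :: b :: R else b :: 2 * n :: R), V1 ++ v :: (2 * n + 1) :: fb :: V2), ?_, a', σ', eA, eB, ?_, ?_⟩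
      · have h1 : (V1 ++ v :: (2 * n + 1) :: fb :: V2) ∈ insP n fb V := by
          rw [hV]
          exact mem_insP hv64' V1 V2
        cases e with
        | false =>
          simp only [Option.some.injEq] at h
          rw [← h]
          apply List.mem_cons_of_mem
          exact List.mem_map.mpr ⟨_, h1, by simp⟩
        | true =>
          simp only [Option.some.injEq] at h
          rw [← h]
          apply List.mem_cons_of_mem
          exact List.mem_map.mpr ⟨_, h1, by simp⟩
      · intro w hw' h64 t ht
        have hw2 : w = b ∨ w ∈ U1 ∨ w ∈ R := by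
          have h1 : w ∈ U1 ++ (if e = false then 2 * n :: b :: R else b :: 2 * n :: R) := hw'
          rcases List.mem_append.1 h1 with h1 | h1
          · exact Or.inr (Or.inl h1)
          · cases e with
            | false =>
              simp only [if_true, List.mem_cons] at h1
              rcases h1 with h1 | h1 | h1
              · omega
              · exact Or.inl h1
              · exact Or.inr (Or.inr h1)
            | true =>
              simp only [reduceCtorEq, if_false, List.mem_cons] at h1
              rcases h1 with h1 | h1 | h1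
              · exact Or.inl h1
              · omega
              · exact Or.inr (Or.inr h1)
        rcases hw2 with rfl | hw2
        · rw [σb] at ht
          exact hma w hbU h64 t (hYs t ht)
        · have h1 : w ∈ U1 ++ b :: R := by
            rcases hw2 with h2 | h2
            · exact List.mem_append_left _ h2
            · exact List.mem_append_right _ (List.mem_cons_of_mem _ h2)
          have h3 : w ≠ b := by
            rintro rfl
            rcases hw2 with h2 | h2
            · exact hbo.1 h2
            · exact hbo.2 h2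
          rw [σo w h3 (fun h => hvU (h ▸ h1)) (hfr (List.mem_append_left _ h1)).2.2.1] at ht
          exact hma w h1 h64 t ht
      · intro w hw' h64 t ht
        have hw2 : w = v ∨ w = fb ∨ w ∈ V1 ∨ w ∈ V2 := by
          have h1 : w ∈ V1 ++ v :: (2 * n + 1) :: fb :: V2 := hw'
          rcases List.mem_append.1 h1 with h1 | h1
          · exact Or.inr (Or.inr (Or.inl h1))
          · simp only [List.mem_cons] at h1
            rcases h1 with h1 | h1 | h1 | h1
            · exact Or.inl h1
            · omega
            · exact Or.inr (Or.inl h1)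
            · exact Or.inr (Or.inr (Or.inr h1))
        rcases hw2 with rfl | rfl | hw2
        · rw [σv] at ht
          exact hmb w hv h64 t (by rw [hXZ]; exact List.mem_append_left _ ht)
        · rw [σf] at ht
          exact hmb v hv hv64' t (by rw [hXZ]; exact List.mem_append_right _ (List.mem_cons_of_mem _ ht))
        · have h1 : w ∈ V := by
            rw [hV]
            rcases hw2 with h2 | h2
            · exact List.mem_append_left _ h2
            · exact List.mem_append_right _ (List.mem_cons_of_mem _ h2)
          have h3 : w ≠ v := by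
            rintro rfl
            rcases hw2 with h2 | h2
            · exact hvo.1 h2
            · exact hvo.2 h2
          rw [σo w (fun h => hbV (h ▸ h1)) h3 (hfr (List.mem_append_right _ h1)).2.2.1] at ht
          exact hmb w h1 h64 t ht

end Pool.Agent.helper32.RH
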