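import Pool.Agent.helper32.RH.Tree

/-!
# MP_c8d30a, exponent 12: decision trees of patterns, leaves and the whole check
-/

set_option autoImplicit false

namespace Pool.Agent.helper32.RH

open NTH

variable {Ω : Type} [DecidableEq Ω] {p : Ω → Ω}

/-- the blocks of the first word are in the second. -/
def blk (X : List ℕ) : List ℕ → Bool
  | [] => true
  | a :: w => match Nat.ble 64 a with
    | false => blk X w
    | true => match mb a X with
      | true => blk X w
      | false => false

theorem blk_spec {X : List ℕ} : ∀ {W : List ℕ}, blk X W = true → ∀ a ∈ W, 64 ≤ a → a ∈ X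
  | [], _, a, ha, _ => absurd ha (by simp)
  | b :: W, h, a, ha, h64 => by
    unfold blk at h
    cases hb : Nat.ble 64 b with
    | false =>
      rw [hb] at h
      rcases List.mem_cons.mp ha with rfl | ha
      · rw [Nat.ble_eq_true_of_le h64] at hb
        exact absurd hb (by simp)
      · exact blk_spec h a ha h64
    | true =>
      rw [hb] at h
      cases hm : mb b X with
      | false => rw [hm] at h; exact absurd h (by simp)
      | true =>
        rw [hm] at h
        rcases List.mem_cons.mp ha with rfl | ha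
        · exact mb_spec _ _ hm
        · exact blk_spec h a ha h64

/-- a permutation, as a boolean. -/
def pm : List ℕ → List ℕ → Bool
  | [], [] => true
  | [], _ :: _ => false
  | a :: V, W => match cut a W with
    | none => false
    | some r => pm V (r.1 ++ r.2)

theorem pm_spec : ∀ {V W : List ℕ}, pm V W = true → V.Perm W
  | [], [], _ => List.Perm.nil
  | [], _ :: _, h => by simp [pm] at h
  | a :: V, W, h => by
    unfold pm at h
    cases hc : cut a W with
    | none => rw [hc] at h; exact absurd h (by simp)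
    | some r =>
      rw [hc] at h
      rw [cut_spec a W r.1 r.2 hc]
      exact ((pm_spec h).cons a).trans List.perm_middle.symm

/-- the last atom is `10`. -/
def lst : List ℕ → Bool
  | [] => false
  | [a] => Nat.beq a 10
  | _ :: b :: w => lst (b :: w)

theorem lst_spec : ∀ {W : List ℕ}, lst W = true → ∃ W', W = W' ++ [10]
  | [], h => by simp [lst] at h
  | [a], h => ⟨[], by rw [Nat.eq_of_beq_eq_true h]; rfl⟩
  | a :: b :: w, h => by
    obtain ⟨W', h1⟩ := lst_spec (W := b :: w) h
    exact ⟨a :: W', by rw [h1]; rfl⟩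

/-- the explicit atoms whose partner is not in `X`. -/
def cnt (X : List ℕ) : List ℕ → ℕ
  | [] => 0
  | a :: w => match Nat.ble 64 a with
    | true => cnt X w
    | false => match mb (a ^^^ 1) X with
      | true => cnt X w
      | false => cnt X w + 1

/-- the check of a leaf. -/
def lfc (K : ℕ) (fin : Bool → ℕ → Bool) (fw bw : List ℕ) (U' V' U V : List ℕ) : Bool :=
  ok K fw (U ++ [13]) (12 :: V) (U' ++ [13]) (12 :: V') &&
  (ok K bw (U' ++ [13]) (12 :: V') (U ++ [13]) (12 :: V) &&
  (nmb 12 (U ++ V) && (nmb 13 (U ++ V) && (lst V && (lst V' && (pm (U' ++ V') (U ++ V) &&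
  (blk U U' && (blk U' U && (blk V V' && (blk V' V && (cls (U ++ V) (U ++ V) &&
  fin (mb 11 U') (cnt V' U' + cnt U' V'))))))))))))

/-- partners of tokens of blocks are in blocks. -/
theorem Sm.part {a : ℕ → Ω} {σ : ℕ → List Ω} {U V : List ℕ} {A B : List Ω} (hs : Sm p a σ U V A B) (hw : WF p (A, B))
    (hcl : ∀ m ∈ U ++ V, m < 64 → m ^^^ 1 ∈ U ++ V) {b : ℕ} (hb : b ∈ U) (h64 : 64 ≤ b) {t : Ω} (ht : t ∈ σ b) :
    ∃ v ∈ V, 64 ≤ v ∧ p t ∈ σ v := by
  have hpg : p t ∈ B := hs.ma b hb h64 t ht
  obtain ⟨v, hv, hpv⟩ : ∃ v ∈ V, p t ∈ at1 (tk p a) σ v := by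
    rw [hs.eb] at hpg
    unfold vl at hpg
    exact List.mem_flatMap.mp hpg
  by_cases hv64 : v < 64
  · exfalso
    have h1 : p t = tk p a v := by
      unfold at1 at hpv
      rw [if_pos hv64] at hpv
      exact List.mem_singleton.1 hpv
    have h2 : v ^^^ 1 ∈ U ++ V := hcl v (List.mem_append_right _ hv) hv64
    have h3 : tk p a (v ^^^ 1) = t := by rw [tk_xor hw.inv a v hv64, ← h1, hw.inv]
    have hxl := xor_lt hv64
    have h4 : (vl (tk p a) σ (U ++ V)).Nodup := by
      rw [vl_append, ← hs.ea, ← hs.eb]
      exact hw.nd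
    have h5 := at1_pw (tk p a) σ h4 (List.mem_append_left _ hb) h2 (by omega)
    apply h5 (by rw [at1_blk h64]; exact ht)
    unfold at1
    rw [if_pos hxl, h3]
    exact List.mem_singleton_self _
  · have hv64' : 64 ≤ v := by omega
    rw [at1_blk hv64'] at hpv
    exact ⟨v, hv, hv64', hpv⟩

theorem count_vl (a : ℕ → Ω) (σ : ℕ → List Ω) (P : Ω → Bool) (X : List ℕ) : ∀ W : List ℕ,
    (∀ m ∈ W, m < 64 → m ^^^ 1 ∈ X → P (tk p a m) = false) → (∀ m ∈ W, 64 ≤ m → ∀ t ∈ σ m, P t = false) →
    (vl (tk p a) σ W).countP P ≤ cnt X W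
  | [], _, _ => by simp [vl, cnt]
  | m :: W, h1, h2 => by
    have ih := count_vl a σ P X W (fun m hm => h1 m (List.mem_cons_of_mem _ hm)) (fun m hm => h2 m (List.mem_cons_of_mem _ hm))
    rw [vl_cons, List.countP_append]
    unfold cnt
    by_cases h64 : m < 64
    · have hb : Nat.ble 64 m = false := by
        cases h : Nat.ble 64 m with
        | false => rfl
        | true => have := Nat.le_of_ble_eq_true h; omega
      rw [hb]
      have e : at1 (tk p a) σ m = [tk p a m] := by simp [at1, h64]
      rw [e]
      simp only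
      cases hm : mb (m ^^^ 1) X with
      | true =>
        have h3 := h1 m List.mem_cons_self h64 (mb_spec _ _ hm)
        simp only
        rw [List.countP_singleton, h3]
        simpa using ih
      | false =>
        simp only
        have : List.countP P [tk p a m] ≤ 1 := List.countP_le_length.trans (by simp)
        omega
    · have h64' : 64 ≤ m := by omega
      have hb : Nat.ble 64 m = true := Nat.ble_eq_true_of_le h64'
      rw [hb, at1_blk h64']
      simp only
      have : List.countP P (σ m) = 0 := by
        rw [List.countP_eq_zero]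
        intro t ht
        rw [h2 m List.mem_cons_self h64' t ht]
        simp
      omega

/-- the goal: a round trip to a state with last token `f`, with few coloured letters. -/
def Gl (p : Ω → Ω) (K : ℕ) (fin : Bool → ℕ → Bool) (s : St Ω) : Prop :=
  ∀ f, s.2.getLast? = some f → ∃ s' m d, RTs p K s s' ∧ (s'.1 ++ s'.2).Perm (s.1 ++ s.2) ∧ s'.2.getLast? = some f ∧
    (m = true → p f ∈ s'.1) ∧ NTS.D2 p s' ≤ d ∧ fin m d = true

theorem lfc_sound {K : ℕ} {fin : Bool → ℕ → Bool} {fw bw U' V' U V : List ℕ} (h : lfc K fin fw bw U' V' U V = true)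
    {a : ℕ → Ω} {σ : ℕ → List Ω} {A B : List Ω} (hw : WF p (A, B)) (hs : Sm p a σ U V A B) : Gl p K fin (A, B) := by
  unfold lfc at h
  simp only [Bool.and_eq_true] at h
  obtain ⟨h1, h2, h3, h4, h5, h6, h7, h8, h9, h10, h11, h12, h13⟩ := h
  have n12 := nmb_spec h3
  have n13 := nmb_spec h4
  obtain ⟨V0, hV0⟩ := lst_spec h5
  obtain ⟨V1, hV1⟩ := lst_spec h6
  have hpm := pm_spec h7
  have hcl := cls_spec h12
  intro f hf
  simp only at hf
  have hf10 : tk p a 10 = f := by
    rw [hs.eb, hV0, vl_append, vl_tok _ _ (by norm_num : (10 : ℕ) < 64)] at hf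
    simp [vl] at hf
    exact hf
  have hperm : (vl (tk p a) σ U' ++ vl (tk p a) σ V').Perm (A ++ B) := by
    rw [hs.ea, hs.eb, ← vl_append, ← vl_append]
    exact hpm.flatMap_right _
  have hnd' : (vl (tk p a) σ U' ++ vl (tk p a) σ V').Nodup := hperm.nodup_iff.2 hw.nd
  have hdj : ∀ t, t ∈ vl (tk p a) σ U' → t ∉ vl (tk p a) σ V' := fun t h1 h2 => (List.nodup_append.1 hnd').2.2 t h1 t h2 rfl
  refine ⟨(vl (tk p a) σ U', vl (tk p a) σ V'), mb 11 U', cnt V' U' + cnt U' V', ?_, hperm, ?_, ?_, ?_, h13⟩
  · intro e _ _
    have hne : ∀ W : List ℕ, (∀ m ∈ W, m ∈ U ++ V) → vl (tk p (Function.update a 6 e)) σ W = vl (tk p a) σ W := by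
      intro W hW
      apply vl_congr
      · intro m hm _
        apply tk_upd
        intro h14
        have h15 : m = 12 ∨ m = 13 := by omega
        rcases h15 with rfl | rfl
        · exact n12 (hW _ hm)
        · exact n13 (hW _ hm)
      · intro _ _ _
        rfl
    have hU' : ∀ m ∈ U', m ∈ U ++ V := fun m hm => hpm.mem_iff.1 (List.mem_append_left _ hm)
    have hV' : ∀ m ∈ V', m ∈ U ++ V := fun m hm => hpm.mem_iff.1 (List.mem_append_right _ hm)
    have e12 : tk p (Function.update a 6 e) 12 = e := tk_even (n := 6)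
    have e13 : tk p (Function.update a 6 e) 13 = p e := tk_odd (n := 6)
    have key : ∀ W1 W2 : List ℕ, (∀ m ∈ W1, m ∈ U ++ V) → (∀ m ∈ W2, m ∈ U ++ V) →
        (vl (tk p (Function.update a 6 e)) σ (W1 ++ [13]), vl (tk p (Function.update a 6 e)) σ (12 :: W2)) =
          (vl (tk p a) σ W1 ++ [p e], e :: vl (tk p a) σ W2) := by
      intro W1 W2 k1 k2
      rw [vl_append, vl_tok _ _ (by norm_num : (12 : ℕ) < 64), vl_tok _ _ (by norm_num : (13 : ℕ) < 64), e12, e13, hne W1 k1, hne W2 k2]
      rfl
    have hτ : ∀ t, t < 64 → tk p (Function.update a 6 e) (t ^^^ 1) = p (tk p (Function.update a 6 e) t) :=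
      fun t ht => tk_xor hw.inv _ t ht
    have r1 := ok_sound h1 (tk p (Function.update a 6 e)) σ hτ
    have r2 := ok_sound h2 (tk p (Function.update a 6 e)) σ hτ
    rw [key U V (fun m hm => List.mem_append_left _ hm) (fun m hm => List.mem_append_right _ hm), key U' V' hU' hV'] at r1 r2
    rw [← hs.ea, ← hs.eb] at r1 r2
    exact ⟨r1, r2⟩
  · show (vl (tk p a) σ V').getLast? = some f
    rw [hV1, vl_append, vl_tok _ _ (by norm_num : (10 : ℕ) < 64), hf10]
    simp [vl]
  · intro h14
    have h15 : (11 : ℕ) ∈ U' := mb_spec _ _ h14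
    have h16 : tk p a 11 = p f := by
      have := tk_xor hw.inv a 10 (by norm_num)
      rw [hf10] at this
      exact this
    rw [← h16]
    exact mem_vl (tk p a) σ (by norm_num) h15
  · unfold NTS.D2
    simp only
    apply Nat.add_le_add
    · apply count_vl
      · intro m hm h64 hm'
        simp only [decide_eq_false_iff_not]
        rw [← tk_xor hw.inv a m h64]
        intro h14
        exact hdj _ h14 (mem_vl (tk p a) σ (xor_lt h64) hm')
      · intro m hm h64 t ht
        simp only [decide_eq_false_iff_not]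
        intro h14
        obtain ⟨v, hv, hv64, hpv⟩ := hs.part hw hcl (blk_spec h8 m hm h64) h64 ht
        apply hdj _ h14
        unfold vl
        exact List.mem_flatMap.mpr ⟨v, blk_spec h11 v hv hv64, by rw [at1_blk hv64]; exact hpv⟩
    · apply count_vl
      · intro m hm h64 hm'
        simp only [decide_eq_false_iff_not]
        rw [← tk_xor hw.inv a m h64]
        intro h14
        exact hdj _ (mem_vl (tk p a) σ (xor_lt h64) hm') h14
      · intro m hm h64 t ht
        simp only [decide_eq_false_iff_not]
        intro h14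
        have hcl' : ∀ m ∈ V ++ U, m < 64 → m ^^^ 1 ∈ V ++ U := by
          intro m hm h64
          have := hcl m (by simpa [or_comm] using hm) h64
          simpa [or_comm] using this
        obtain ⟨v, hv, hv64, hpv⟩ := hs.swap.part (A := B) (B := A) hw.mir hcl' (blk_spec h10 m hm h64) h64 ht
        refine hdj _ ?_ h14
        unfold vl
        exact List.mem_flatMap.mpr ⟨v, blk_spec h9 v hv hv64, by rw [at1_blk hv64]; exact hpv⟩

/-! ## Reducible patterns -/

/-- all atoms are explicit. -/
def exa : List ℕ → Bool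
  | [] => true
  | a :: w => match Nat.ble 64 a with
    | true => false
    | false => exa w

theorem exa_spec : ∀ {W : List ℕ}, exa W = true → ∀ a ∈ W, a < 64
  | [], _, a, ha => absurd ha (by simp)
  | b :: W, h, a, ha => by
    unfold exa at h
    cases hb : Nat.ble 64 b with
    | true => rw [hb] at h; exact absurd h (by simp)
    | false =>
      rw [hb] at h
      rcases List.mem_cons.mp ha with rfl | ha
      · by_contra h1
        rw [Nat.ble_eq_true_of_le (by omega)] at hb
        exact absurd hb (by simp)
      · exact exa_spec h a ha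

/-- the last atoms (after the first `k`) are a closed word. -/
def rdc (k : ℕ) (V : List ℕ) : Bool :=
  match (spl k V).2 with
  | [] => false
  | b :: R => exa (b :: R) && cls (b :: R) (b :: R)

theorem rdc_sound {k : ℕ} {V : List ℕ} (h : rdc k V = true) {a : ℕ → Ω} {σ : ℕ → List Ω} {U : List ℕ} {A B : List Ω}
    (hw : WF p (A, B)) (hs : Sm p a σ U V A B) : ¬ NA.IrB p (A, B) := by
  unfold rdc at h
  have hV := spl_spec k V
  cases hR : (spl k V).2 with
  | nil => rw [hR] at h; exact absurd h (by simp)
  | cons b R =>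
    rw [hR] at h hV
    simp only [Bool.and_eq_true] at h
    have h1 := exa_spec h.1
    have h2 := cls_spec h.2
    intro hi
    have h3 := hi (vl (tk p a) σ (spl k V).1) (vl (tk p a) σ (b :: R)) (by
      show B = _
      rw [← vl_append, ← hV]
      exact hs.eb) (by
      intro t ht
      unfold vl at ht
      obtain ⟨m, hm, hmt⟩ := List.mem_flatMap.mp ht
      have hm64 := h1 m hm
      unfold at1 at hmt
      rw [if_pos hm64] at hmt
      rw [List.mem_singleton.1 hmt, ← tk_xor hw.inv a m hm64]
      exact mem_vl (tk p a) σ (xor_lt hm64) (h2 m hm hm64))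
    have h4 : tk p a b ∈ vl (tk p a) σ (b :: R) := mem_vl (tk p a) σ (h1 b List.mem_cons_self) List.mem_cons_self
    rw [h3] at h4
    exact absurd h4 (by simp)

/-! ## The machine for trees -/

/-- the steps: a reducible pattern, a leaf, a split. -/
inductive IS : Type
  | rd (k : ℕ) : IS
  | lf (fw bw : ℕ) (U' V' : List ℕ) : IS
  | sp (w : Bool) (i : ℕ) (e : Bool) (n fb : ℕ) : IS

/-- the children of a split of one of the words. -/
def chT (w : Bool) (i : ℕ) (e : Bool) (n fb : ℕ) (U V : List ℕ) : Option (List (List ℕ × List ℕ)) :=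
  match w with
  | false => chU i e n fb U V
  | true => match chU i e n fb V U with
    | none => none
    | some L => some (L.map (fun q => (q.2, q.1)))

theorem chT_sound {a : ℕ → Ω} {σ : ℕ → List Ω} {U V : List ℕ} {A B : List Ω} (hw : WF p (A, B)) (hs : Sm p a σ U V A B)
    {w : Bool} {i n fb : ℕ} {e : Bool} {L : List (List ℕ × List ℕ)} (h : chT w i e n fb U V = some L) :
    ∃ c ∈ L, ∃ a' σ', Sm p a' σ' c.1 c.2 A B := by
  unfold chT at h
  cases w with
  | false => exact chU_sound hw hs h
  | true =>
    simp only at h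
    cases hc : chU i e n fb V U with
    | none => rw [hc] at h; exact absurd h (by simp)
    | some L' =>
      rw [hc] at h
      simp only [Option.some.injEq] at h
      obtain ⟨c, hc1, a', σ', hc2⟩ := chU_sound (A := B) (B := A) hw.mir hs.swap hc
      refine ⟨(c.2, c.1), ?_, a', σ', hc2.swap⟩
      rw [← h]
      exact List.mem_map.mpr ⟨c, hc1, rfl⟩

/-- the check of a list of steps. -/
def runT (K : ℕ) (fin : Bool → ℕ → Bool) : List IS → List (List ℕ × List ℕ) → Bool
  | [], [] => true
  | [], _ :: _ => false
  | _ :: _, [] => false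
  | .rd k :: is, q :: st => match rdc k q.2 with
    | true => runT K fin is st
    | false => false
  | .lf fw bw U' V' :: is, q :: st => match lfc K fin (dec 80 fw) (dec 80 bw) U' V' q.1 q.2 with
    | true => runT K fin is st
    | false => false
  | .sp w i e n fb :: is, q :: st => match chT w i e n fb q.1 q.2 with
    | some L => runT K fin is (L ++ st)
    | none => false

/-- **soundness**. -/
theorem runT_sound {K : ℕ} {fin : Bool → ℕ → Bool} : ∀ {is : List IS} {st : List (List ℕ × List ℕ)}, runT K fin is st = true →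
    ∀ q ∈ st, ∀ {a : ℕ → Ω} {σ : ℕ → List Ω} {A B : List Ω}, WF p (A, B) → NA.IrB p (A, B) → Sm p a σ q.1 q.2 A B →
      Gl p K fin (A, B)
  | [], [], _, q, hq, _, _, _, _, _, _, _ => absurd hq (by simp)
  | [], _ :: _, h, _, _, _, _, _, _, _, _, _ => by simp [runT] at h
  | _ :: _, [], _, q, hq, _, _, _, _, _, _, _ => absurd hq (by simp)
  | .rd k :: is, q' :: st, h, q, hq, a, σ, A, B, hw, hi, hs => by
    unfold runT at h
    cases hr : rdc k q'.2 with
    | false => rw [hr] at h; exact absurd h (by simp)
    | true =>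
      rw [hr] at h
      rcases List.mem_cons.mp hq with rfl | hq
      · exact absurd hi (rdc_sound hr hw hs)
      · exact runT_sound h q hq hw hi hs
  | .lf fw bw U' V' :: is, q' :: st, h, q, hq, a, σ, A, B, hw, hi, hs => by
    unfold runT at h
    cases hr : lfc K fin (dec 80 fw) (dec 80 bw) U' V' q'.1 q'.2 with
    | false => rw [hr] at h; exact absurd h (by simp)
    | true =>
      rw [hr] at h
      rcases List.mem_cons.mp hq with rfl | hq
      · exact lfc_sound hr hw hs
      · exact runT_sound h q hq hw hi hs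
  | .sp w i e n fb :: is, q' :: st, h, q, hq, a, σ, A, B, hw, hi, hs => by
    unfold runT at h
    cases hr : chT w i e n fb q'.1 q'.2 with
    | none => rw [hr] at h; exact absurd h (by simp)
    | some L =>
      rw [hr] at h
      rcases List.mem_cons.mp hq with rfl | hq
      · obtain ⟨c, hc, a', σ', hc'⟩ := chT_sound hw hs hr
        exact runT_sound h c (List.mem_append_left _ hc) hw hi hc'
      · exact runT_sound h q (List.mem_append_right _ hq) hw hi hs

end Pool.Agent.helper32.RH
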